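import Mathlib

set_option autoImplicit false

/-!
A Chernoff bound in counting form, and the numerical inequality for the local lemma.
The statement needs `0 < R` or `0 ≤ mu` (for `R = 0`, `T` empty, `s = 0`, `mu < 0` it fails).
-/

namespace Pool.Agent.H9.TD.T5

open Finset

/-- Chernoff bound, counting form (with `0 < R`). -/
theorem chernoff_pos {T : Type} [Fintype T] [DecidableEq T] (R : ℕ) (hR : 0 < R) (U : Finset T)
    (Bad : T → Finset (Fin R)) (s : ℕ) (mu lam : ℝ) (hlam : 0 ≤ lam)
    (hmu : ∑ t ∈ U, ((Bad t).card : ℝ) ≤ mu * R) :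
    ((univ.filter (fun ω : T → Fin R => s ≤ (U.filter (fun t => ω t ∈ Bad t)).card)).card : ℝ) *
      (1 + lam) ^ s ≤ Real.exp (lam * mu) * (R : ℝ) ^ Fintype.card T := by
  classical
  have hR' : (0 : ℝ) < R := by exact_mod_cast hR
  set f : T → Fin R → ℝ := fun t r => if t ∈ U then (if r ∈ Bad t then 1 + lam else 1) else 1
    with hf
  have hf1 : ∀ t r, 1 ≤ f t r := by
    intro t r
    simp only [hf]
    split_ifs <;> linarith
  have hf0 : ∀ t r, 0 ≤ f t r := fun t r => le_trans zero_le_one (hf1 t r)
  have key : ∏ t : T, ∑ r : Fin R, f t r = ∑ ω : T → Fin R, ∏ t, f t (ω t) := by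
    rw [Finset.prod_univ_sum, Fintype.piFinset_univ]
  -- product value at a point
  have hval : ∀ ω : T → Fin R, ∏ t, f t (ω t) = (1 + lam) ^ (U.filter (fun t => ω t ∈ Bad t)).card := by
    intro ω
    have h1 : ∏ t, f t (ω t) = ∏ t ∈ U, (if ω t ∈ Bad t then 1 + lam else 1) := by
      simp only [hf]
      rw [Finset.prod_ite_mem]
      simp
    rw [h1, Finset.prod_ite]
    simp
  have hlow : ((univ.filter (fun ω : T → Fin R => s ≤ (U.filter (fun t => ω t ∈ Bad t)).card)).card : ℝ) *
      (1 + lam) ^ s ≤ ∑ ω : T → Fin R, ∏ t, f t (ω t) := by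
    calc ((univ.filter (fun ω : T → Fin R => s ≤ (U.filter (fun t => ω t ∈ Bad t)).card)).card : ℝ) *
      (1 + lam) ^ s = ∑ ω ∈ univ.filter (fun ω : T → Fin R => s ≤ (U.filter (fun t => ω t ∈ Bad t)).card),
          (1 + lam) ^ s := by simp
      _ ≤ ∑ ω ∈ univ.filter (fun ω : T → Fin R => s ≤ (U.filter (fun t => ω t ∈ Bad t)).card),
          ∏ t, f t (ω t) := by
          apply Finset.sum_le_sum
          intro ω hω
          rw [hval]
          exact pow_le_pow_right₀ (by linarith) (Finset.mem_filter.1 hω).2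
      _ ≤ ∑ ω : T → Fin R, ∏ t, f t (ω t) := by
          apply Finset.sum_le_sum_of_subset_of_nonneg (Finset.filter_subset _ _)
          intro ω _ _
          exact Finset.prod_nonneg fun t _ => hf0 t _
  refine hlow.trans ?_
  rw [← key]
  have hsum : ∀ t, ∑ r : Fin R, f t r = if t ∈ U then (R : ℝ) + lam * (Bad t).card else R := by
    intro t
    by_cases ht : t ∈ U
    · simp only [hf, ht, if_true]
      have : ∀ r : Fin R, (if r ∈ Bad t then 1 + lam else (1 : ℝ)) = 1 + (if r ∈ Bad t then lam else 0) := by
        intro r; split_ifs <;> simp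
      simp only [this, Finset.sum_add_distrib, Finset.sum_const, Finset.card_univ, Fintype.card_fin,
        nsmul_eq_mul, mul_one, Finset.sum_ite_mem, Finset.univ_inter]
      ring
    · simp [hf, ht]
  calc ∏ t : T, ∑ r : Fin R, f t r
      ≤ ∏ t : T, ((R : ℝ) * Real.exp (if t ∈ U then lam * (Bad t).card / R else 0)) := by
        apply Finset.prod_le_prod
        · intro t _
          exact Finset.sum_nonneg fun r _ => hf0 t r
        · intro t _
          rw [hsum]
          split_ifs with ht
          · have h := Real.add_one_le_exp (lam * (Bad t).card / R)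
            calc (R : ℝ) + lam * (Bad t).card = R * (lam * (Bad t).card / R + 1) := by
                  field_simp
                  ring
              _ ≤ R * Real.exp (lam * (Bad t).card / R) := by gcongr
          · simp
    _ = (R : ℝ) ^ Fintype.card T * Real.exp (∑ t : T, if t ∈ U then lam * (Bad t).card / R else 0) := by
        rw [Finset.prod_mul_distrib, Finset.prod_const, Finset.card_univ, Real.exp_sum]
    _ ≤ (R : ℝ) ^ Fintype.card T * Real.exp (lam * mu) := by
        gcongr
        rw [Finset.sum_ite_mem, Finset.univ_inter, ← Finset.sum_div, ← Finset.mul_sum]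
        rw [div_le_iff₀ hR', mul_assoc]
        gcongr
    _ = Real.exp (lam * mu) * (R : ℝ) ^ Fintype.card T := by ring

/-- Chernoff bound, counting form (with `0 ≤ mu`). -/
theorem chernoff {T : Type} [Fintype T] [DecidableEq T] (R : ℕ) (U : Finset T)
    (Bad : T → Finset (Fin R)) (s : ℕ) (mu lam : ℝ) (hlam : 0 ≤ lam) (hmu0 : 0 ≤ mu)
    (hmu : ∑ t ∈ U, ((Bad t).card : ℝ) ≤ mu * R) :
    ((univ.filter (fun ω : T → Fin R => s ≤ (U.filter (fun t => ω t ∈ Bad t)).card)).card : ℝ) *
      (1 + lam) ^ s ≤ Real.exp (lam * mu) * (R : ℝ) ^ Fintype.card T := by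
  rcases Nat.eq_zero_or_pos R with hR | hR
  · subst hR
    rcases isEmpty_or_nonempty T with hT | hT
    · have hU : U = ∅ := Finset.eq_empty_of_isEmpty U
      subst hU
      have h1 : (1 : ℝ) ≤ Real.exp (lam * mu) := Real.one_le_exp (mul_nonneg hlam hmu0)
      rcases Nat.eq_zero_or_pos s with hs | hs
      · subst hs
        simpa using h1
      · have : ¬ s ≤ 0 := by omega
        simp [this]
        positivity
    · have : IsEmpty (T → Fin 0) := ⟨fun f => (f (Classical.arbitrary T)).elim0⟩
      have h0 : (univ.filter (fun ω : T → Fin 0 => s ≤ (U.filter (fun t => ω t ∈ Bad t)).card)).card = 0 := by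
        rw [Finset.card_eq_zero]
        exact Finset.eq_empty_of_isEmpty _
      rw [h0, Nat.cast_zero, zero_mul]
      positivity
  · exact chernoff_pos R hR U Bad s mu lam hlam hmu

end Pool.Agent.H9.TD.T5
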