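import Pool.Graph.R_seed8.Helper635.LLL
import Pool.Agent.H9.TD.Chernoff

set_option autoImplicit false

/-!
The probability that one of several sums of indicators is large.
-/

namespace Pool.Agent.H9.TD

open Finset Pool.Agent.Helper635.LLL T5

/-- Union bound for the Chernoff bound. -/
theorem tail {T Y : Type} [Fintype T] [DecidableEq T] (R : ℕ) (hR : 0 < R) (U : Finset T)
    (Rel : Finset Y) (Bad : Y → T → Finset (Fin R)) (s : ℕ) (mu lam p0 : ℝ) (hlam : 0 ≤ lam)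
    (hmu : ∀ y ∈ Rel, ∑ t ∈ U, ((Bad y t).card : ℝ) ≤ mu * R)
    (hp : Real.exp (lam * mu) ≤ p0 * (1 + lam) ^ s) (E : (T → Fin R) → Prop)
    (hE : ∀ ω, E ω → ∃ y ∈ Rel, s ≤ (U.filter (fun t => ω t ∈ Bad y t)).card) :
    (cnt E : ℝ) ≤ (Rel.card : ℝ) * p0 * (R : ℝ) ^ Fintype.card T := by
  classical
  have h1 : ev E ⊆ Rel.biUnion (fun y => univ.filter (fun ω : T → Fin R =>
      s ≤ (U.filter (fun t => ω t ∈ Bad y t)).card)) := by
    intro ω hω
    rw [mem_ev] at hω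
    obtain ⟨y, hy, h⟩ := hE ω hω
    rw [mem_biUnion]
    exact ⟨y, hy, by rw [mem_filter]; exact ⟨mem_univ _, h⟩⟩
  have h2 : ∀ y ∈ Rel, ((univ.filter (fun ω : T → Fin R =>
      s ≤ (U.filter (fun t => ω t ∈ Bad y t)).card)).card : ℝ) ≤
      p0 * (R : ℝ) ^ Fintype.card T := by
    intro y hy
    have h3 := chernoff_pos R hR U (Bad y) s mu lam hlam (hmu y hy)
    have hpos : (0 : ℝ) < (1 + lam) ^ s := by positivity
    have hR : (0 : ℝ) ≤ (R : ℝ) ^ Fintype.card T := by positivity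
    have h4 : ((univ.filter (fun ω : T → Fin R =>
      s ≤ (U.filter (fun t => ω t ∈ Bad y t)).card)).card : ℝ) * (1 + lam) ^ s ≤
        (p0 * (R : ℝ) ^ Fintype.card T) * (1 + lam) ^ s := by
      refine h3.trans ?_
      nlinarith [mul_le_mul_of_nonneg_right hp hR]
    exact le_of_mul_le_mul_right h4 hpos
  have h5 : (cnt E : ℝ) ≤ ∑ y ∈ Rel, ((univ.filter (fun ω : T → Fin R =>
      s ≤ (U.filter (fun t => ω t ∈ Bad y t)).card)).card : ℝ) := by
    have h6 := (card_le_card h1).trans card_biUnion_le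
    unfold cnt
    exact_mod_cast h6
  refine h5.trans ((sum_le_sum h2).trans ?_)
  rw [sum_const, nsmul_eq_mul, mul_assoc]

/-- Symmetric local lemma. -/
theorem lll' {T ι : Type} [Fintype T] (R : ℕ) (I : Finset ι)
    (B : ι → (T → Fin R) → Prop) (S : ι → Finset T)
    (hB : ∀ i ∈ I, Helper635.LLL.DependsOn (B i) (S i)) (p : ℝ) (d : ℕ) (hp0 : 0 ≤ p)
    (hp : ∀ i ∈ I, (cnt (B i) : ℝ) ≤ p * (R : ℝ) ^ Fintype.card T)
    (hd : ∀ i ∈ I, ∀ F ⊆ I, (∀ j ∈ F, ¬ Disjoint (S i) (S j)) → F.card ≤ d)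
    (h4 : 4 * p * d ≤ 1) (hd1 : 1 ≤ d) (hR : 0 < R) :
    ∃ ω : T → Fin R, ∀ i ∈ I, ¬ B i ω := by
  classical
  refine lll I B S hB p d hp0 ?_ ?_ h4 hd1 ?_
  · intro i hi
    rw [Fintype.card_fun, Fintype.card_fin]
    push_cast
    exact hp i hi
  · intro i hi
    refine hd i hi _ (filter_subset _ _) ?_
    intro j hj
    exact (mem_filter.1 hj).2
  · rw [Fintype.card_fun, Fintype.card_fin]
    exact Nat.pow_pos hR

end Pool.Agent.H9.TD
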