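import Pool.Agent.H9.TD.Rand3
import Pool.Agent.H9.TD.Numeric

set_option autoImplicit false

/-!
Assembly of the copies of the tree from a block system.
-/

namespace Pool.Agent.H9.TD

open Finset

variable {V D : Type} [Fintype D] [DecidableEq D] [DecidableEq V]
variable {m : ℕ}

/-- The spread bound after `j` steps. -/
noncomputable def Dl (m j : ℕ) : ℝ := BB m * m * (1 + 1 / (m : ℝ)) ^ j

/-- The start of the assembly. -/
noncomputable def base {K : ℕ} (S : Sys V D m K) (d0 : D) :
    St S 0 ({v // v ∈ S.act 0} × Fin K) where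
  rho _ i := i.1.1
  x _ _ := d0
  rho_act r hr i := by
    obtain rfl : r = 0 := by omega
    exact i.1.2
  rho_fib r hr v hv := by
    obtain rfl : r = 0 := by omega
    have h : (univ.filter (fun i : {v // v ∈ S.act 0} × Fin K => i.1.1 = v)) =
        ({⟨v, hv⟩} : Finset {v // v ∈ S.act 0}) ×ˢ (univ : Finset (Fin K)) := by
      ext i
      rw [mem_filter, mem_product, mem_singleton]
      constructor
      · rintro ⟨_, h⟩
        exact ⟨Subtype.ext h, mem_univ _⟩
      · rintro ⟨h, _⟩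
        exact ⟨mem_univ _, by rw [h]⟩
    rw [h, card_product, card_singleton, card_univ, Fintype.card_fin, one_mul]
  x_lab r h1 h2 := by omega
  x_pe r h1 h2 := by omega
  x_ce r h1 h2 := by omega
  x_inj r h1 h2 := by omega
  x_surj r h1 h2 := by omega
  inj i r hr r' hr' _ := by omega

theorem Dl_pos (hm : 1 ≤ m) (j : ℕ) : (BB m : ℝ) * m ≤ Dl m j := by
  unfold Dl
  have hm' : (1 : ℝ) ≤ m := by exact_mod_cast hm
  have h1 : (1 : ℝ) ≤ (1 + 1 / (m : ℝ)) ^ j := one_le_pow₀ (by
    have : (0 : ℝ) < 1 / m := by positivity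
    linarith)
  exact le_mul_of_one_le_right (by positivity) h1

theorem Dl_le (hm : 1 ≤ m) (j : ℕ) (hj : j ≤ m) : Dl m j ≤ DDc m := by
  unfold Dl DDc
  have hm' : (1 : ℝ) ≤ m := by exact_mod_cast hm
  have hm0 : (0 : ℝ) < m := by linarith
  have h1 : (1 + 1 / (m : ℝ)) ^ j ≤ 3 := by
    have h2 : (1 + 1 / (m : ℝ)) ^ j ≤ (Real.exp (1 / m)) ^ j := by
      apply pow_le_pow_left₀ (by positivity)
      have := Real.add_one_le_exp (1 / (m : ℝ))
      linarith
    rw [← Real.exp_nat_mul] at h2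
    have h3 : (j : ℝ) * (1 / m) ≤ 1 := by
      rw [mul_one_div, div_le_one hm0]
      exact_mod_cast hj
    have h4 := Real.exp_le_exp.2 h3
    have h5 := Real.exp_one_lt_d9
    linarith
  push_cast
  nlinarith [mul_pos (show (0 : ℝ) < BB m by
    have := BB_pos m hm
    nlinarith) hm0]

theorem Dl_succ (hm : 1 ≤ m) (j : ℕ) : Dl m (j + 1) = Dl m j * (1 + 1 / m) := by
  unfold Dl
  rw [pow_succ]
  ring

theorem le_DDc (hm : 1 ≤ m) : m ≤ DDc m := by
  unfold DDc BB
  have h1 : 1 ≤ m ^ 8 := Nat.one_le_pow _ _ hm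
  nlinarith

theorem KK_pos (hm : 1 ≤ m) : 0 < KK m := by
  have h := RR_pos m hm
  unfold RR at h
  omega

theorem iterate (hm : 1 ≤ m) (S : Sys V D m (KK m)) (d0 : D) (j : ℕ) (hj : j < m) :
    ∃ s : St S j ({v // v ∈ S.act 0} × Fin (KK m)), s.Spread (Dl m j) := by
  have hm' : (1 : ℝ) ≤ m := by exact_mod_cast hm
  have hm0 : (0 : ℝ) < m := by linarith
  induction j with
  | zero =>
    refine ⟨base S d0, ?_⟩
    intro r hr v y hy
    have h0 : (base S d0).cnt r v y = 0 := by
      unfold St.cnt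
      rw [card_eq_zero, filter_eq_empty_iff]
      rintro i _ ⟨h1, r', _, h3⟩
      apply hy
      rw [← h3, ← h1]
      rfl
    rw [h0]
    have := Dl_pos hm 0
    push_cast
    exact le_trans (by positivity) this
  | succ j ih =>
    obtain ⟨s, hs⟩ := ih (by omega)
    have h0 : 0 ≤ Dl m j := le_trans (by positivity) (Dl_pos hm j)
    have hle : Dl m j ≤ DDc m := Dl_le hm j (by omega)
    obtain ⟨e⟩ := exists_ext s (by omega) (DDc m) (le_DDc hm) (three_DDc_le m) (KK_pos hm)
      (Dl m j) hs hle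
    have hstep : Dl m (j + 1) - Dl m j = Dl m j / m := by
      rw [Dl_succ hm]; ring
    have hstep0 : 0 ≤ Dl m j / m := by positivity
    have hstep1 : Dl m j ≤ Dl m (j + 1) := by linarith
    have hB : (BB m : ℝ) ≤ Dl m j / m := by
      rw [le_div_iff₀ hm0]
      exact Dl_pos hm j
    have hc0 := Nat.le_ceil (Dl m (j + 1) - Dl m j)
    have hc1 := Nat.le_ceil (Dl m (j + 1))
    have hc2 := Nat.ceil_lt_add_one (show 0 ≤ Dl m (j + 1) - Dl m j by linarith)
    have hc3 := Nat.ceil_lt_add_one (show 0 ≤ Dl m (j + 1) by linarith)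
    refine exists_next e hj (RR_pos m hm) (KK_pos hm) (Dl m j) (Dl m (j + 1)) hs h0 hstep1
      ⌈Dl m (j + 1) - Dl m j⌉₊ ⌈Dl m (j + 1)⌉₊ hc2.le hc3.le (P0 m) (1 / (2 * m))
      (by positivity) ?_ ?_ ?_
    · exact num_old m hm _ (by rw [hstep] at hc0 ⊢; linarith)
    · exact num_new m hm (Dl m j) (Dl_pos hm j) _ (by rw [← Dl_succ hm]; exact hc1)
    · exact num_lll m hm

/-- The copies of the tree. -/
theorem assembly (hm : 1 ≤ m) (S : Sys V D m (KK m)) :
    ∃ (I : Type) (_ : Fintype I) (φ : ℕ → I → V) (x : ℕ → I → D),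
      (∀ r, 1 ≤ r → r ≤ m → ∀ i, S.lab (x r i) = r ∧ (S.pe (x r i)).1 = φ (S.par r) i ∧
        (S.ce (x r i)).1 = φ r i) ∧
      (∀ r, 1 ≤ r → r ≤ m → Function.Injective (x r)) ∧
      (∀ r, 1 ≤ r → r ≤ m → ∀ d, S.lab d = r → ∃ i, x r i = d) ∧
      ∀ i, ∀ r ≤ m, ∀ r' ≤ m, φ r i = φ r' i → r = r' := by
  rcases isEmpty_or_nonempty D with hD | ⟨⟨d0⟩⟩
  · refine ⟨Empty, inferInstance, fun _ i => i.elim, fun _ i => i.elim, fun r _ _ i => i.elim,
      fun r _ _ i => i.elim, fun r _ _ d => (hD.false d).elim, fun i => i.elim⟩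
  · obtain ⟨s, hs⟩ := iterate hm S d0 (m - 1) (by omega)
    have hmj : m - 1 + 1 = m := by omega
    obtain ⟨e⟩ := exists_ext s (by omega) (DDc m) (le_DDc hm) (three_DDc_le m) (KK_pos hm)
      (Dl m (m - 1)) hs (Dl_le hm _ (by omega))
    let ω : V × ℕ → Fin (KK m - 2 * DDc m) := fun _ => ⟨0, RR_pos m hm⟩
    refine ⟨_, inferInstance, fun r i => if r = m then (S.ce (e.y ω i)).1 else (s.rho r i).1,
      fun r i => if r = m then e.y ω i else s.x r i, ?_, ?_, ?_, ?_⟩
    · intro r h1 h2 i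
      have hp := S.par_lt r h1 h2
      beta_reduce
      rw [if_neg (show S.par r ≠ m by omega)]
      by_cases h : r = m
      · rw [if_pos h, if_pos h]
        refine ⟨?_, ?_, rfl⟩
        · have := e.lab i (ω (s.rho (S.par (m - 1 + 1)) i))
          unfold Ext.y
          rw [this, h, hmj]
        · have := e.pe i (ω (s.rho (S.par (m - 1 + 1)) i))
          unfold Ext.y
          rw [this, h, hmj]
      · rw [if_neg h, if_neg h]
        exact ⟨s.x_lab r h1 (by omega) i, by rw [s.x_pe r h1 (by omega) i],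
          by rw [s.x_ce r h1 (by omega) i]⟩
    · intro r h1 h2
      by_cases h : r = m
      · simp only [if_pos h]; exact e.y_inj ω
      · simp only [if_neg h]; exact s.x_inj r h1 (by omega)
    · intro r h1 h2 d hd
      by_cases h : r = m
      · simp only [if_pos h]; exact e.y_surj ω (by omega) d (by rw [hd, h, hmj])
      · simp only [if_neg h]; exact s.x_surj r h1 (by omega) d hd
    · intro i r hr r' hr' h
      beta_reduce at h
      by_cases h1 : r = m <;> by_cases h2 : r' = m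
      · rw [h1, h2]
      · rw [if_pos h1, if_neg h2] at h
        exact absurd h.symm (e.new i _ r' (by omega))
      · rw [if_neg h1, if_pos h2] at h
        exact absurd h (e.new i _ r (by omega))
      · rw [if_neg h1, if_neg h2] at h
        exact s.inj i r (by omega) r' (by omega) h

end Pool.Agent.H9.TD
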