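import Mathlib

set_option autoImplicit false

/-!
Cutting the fibres of a map into blocks of size `K`.
-/

namespace Pool.Agent.H9.TD

open Finset

theorem blocks {D U : Type} [Fintype D] [DecidableEq D] [DecidableEq U] (f : D → U) (K : ℕ)
    (hK : 0 < K) (h : ∀ u, K ∣ (univ.filter (fun d => f d = u)).card) :
    ∃ β : D → ℕ, (∀ d, β d < (univ.filter (fun d' => f d' = f d)).card / K) ∧
      ∀ u b, b < (univ.filter (fun d' => f d' = u)).card / K →
        (univ.filter (fun d => f d = u ∧ β d = b)).card = K := by
  classical
  let e : ∀ u, (univ.filter (fun d => f d = u)) ≃ Fin (univ.filter (fun d => f d = u)).card :=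
    fun u => Finset.equivFin _
  have hm : ∀ d, d ∈ univ.filter (fun d' => f d' = f d) := fun d => by simp
  let γ : D → ℕ := fun d => (e (f d) ⟨d, hm d⟩ : Fin _).val
  have hγ : ∀ d u (hd : d ∈ univ.filter (fun d' => f d' = u)), γ d = (e u ⟨d, hd⟩ : Fin _).val := by
    intro d u hd
    have : f d = u := by simpa using hd
    subst this
    rfl
  refine ⟨fun d => γ d / K, ?_, ?_⟩
  · intro d
    have h1 : γ d < (univ.filter (fun d' => f d' = f d)).card := (e (f d) ⟨d, hm d⟩).isLt
    obtain ⟨m, hmm⟩ := h (f d)
    rw [hmm] at h1 ⊢
    rw [Nat.mul_div_cancel_left _ hK]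
    exact Nat.div_lt_of_lt_mul h1
  · intro u b hb
    obtain ⟨m, hmm⟩ := h u
    have hbm : b < m := by
      rw [hmm, Nat.mul_div_cancel_left _ hK] at hb
      exact hb
    have hle : (b + 1) * K ≤ (univ.filter (fun d => f d = u)).card := by
      rw [hmm, mul_comm K m]
      exact Nat.mul_le_mul_right K hbm
    have : (univ.filter (fun d => f d = u ∧ γ d / K = b)).card = (Finset.Ico (b * K) ((b + 1) * K)).card := by
      refine Finset.card_bij (fun d _ => γ d) ?_ ?_ ?_
      · intro d hd
        simp only [mem_filter, mem_univ, true_and] at hd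
        rw [Finset.mem_Ico]
        obtain ⟨-, h2⟩ := hd
        constructor
        · rw [← h2]; exact Nat.div_mul_le_self _ _
        · rw [← h2]
          exact Nat.lt_mul_of_div_lt (Nat.lt_succ_self _) hK
      · intro d hd d' hd' hdd
        simp only [mem_filter, mem_univ, true_and] at hd hd'
        have m1 : d ∈ univ.filter (fun d' => f d' = u) := by simp [hd.1]
        have m2 : d' ∈ univ.filter (fun d' => f d' = u) := by simp [hd'.1]
        have hdd : γ d = γ d' := hdd
        rw [hγ d u m1, hγ d' u m2] at hdd
        have := (e u).injective (Fin.ext hdd)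
        exact congrArg Subtype.val this
      · intro i hi
        rw [Finset.mem_Ico] at hi
        have hi2 : i < (univ.filter (fun d => f d = u)).card := lt_of_lt_of_le hi.2 hle
        let x := (e u).symm ⟨i, hi2⟩
        have hx : γ x.1 = i := by
          rw [hγ x.1 u x.2]
          have : e u ⟨x.1, x.2⟩ = ⟨i, hi2⟩ := by
            show e u x = _
            simp [x]
          rw [this]
        refine ⟨x.1, ?_, hx⟩
        have hxu : f x.1 = u := (Finset.mem_filter.1 x.2).2
        simp only [mem_filter, mem_univ, true_and]
        refine ⟨hxu, ?_⟩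
        rw [hx]
        apply Nat.div_eq_of_lt_le
        · exact hi.1
        · exact hi.2
    rw [this, Nat.card_Ico]
    rw [Nat.add_mul, one_mul, Nat.add_sub_cancel_left]

end Pool.Agent.H9.TD
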