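import Mathlib

set_option autoImplicit false

/-!
Koenig: edges of a bipartite multigraph all of whose degrees are divisible by `q` are split into
`q` classes, each with exactly `1 / q` of every degree.
-/

namespace Pool.Agent.H9.TD.T2

open Finset

/-- Koenig's theorem for nonnegative integer matrices with constant line sums. -/
theorem exists_perm_aux {V : Type} [Fintype V] [DecidableEq V] (M : V → V → ℕ) (k : ℕ)
    (hk : k ≠ 0) (hrow : ∀ v, ∑ w, M v w = k) (hcol : ∀ w, ∑ v, M v w = k) :
    ∃ σ : Equiv.Perm V, ∀ v, M v (σ v) ≠ 0 := by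
  have hall : ∀ s : Finset V,
      s.card ≤ (s.biUnion (fun v => univ.filter (fun w => M v w ≠ 0))).card := by
    intro s
    set N := s.biUnion (fun v => univ.filter (fun w => M v w ≠ 0)) with hN
    have h1 : k * s.card = ∑ v ∈ s, ∑ w ∈ N, M v w := by
      rw [mul_comm, ← smul_eq_mul, ← Finset.sum_const]
      apply Finset.sum_congr rfl
      intro v hv
      rw [← hrow v]
      symm
      apply Finset.sum_subset (Finset.subset_univ _)
      intro w _ hw
      by_contra h
      apply hw
      rw [hN, Finset.mem_biUnion]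
      exact ⟨v, hv, by simpa using h⟩
    have h2 : ∑ v ∈ s, ∑ w ∈ N, M v w ≤ k * N.card := by
      rw [Finset.sum_comm, mul_comm, ← smul_eq_mul, ← Finset.sum_const]
      apply Finset.sum_le_sum
      intro w _
      rw [← hcol w]
      exact Finset.sum_le_sum_of_subset (Finset.subset_univ _)
    rw [← h1] at h2
    exact Nat.le_of_mul_le_mul_left h2 (Nat.pos_of_ne_zero hk)
  obtain ⟨f, hf, hft⟩ := (Finset.all_card_le_biUnion_card_iff_exists_injective _).1 hall
  refine ⟨Equiv.ofBijective f (Finite.injective_iff_bijective.1 hf), ?_⟩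
  intro v
  have := hft v
  simpa using this

theorem koenig_aux {V : Type} [Fintype V] [DecidableEq V] (k : ℕ) : ∀ (M : V → V → ℕ)
    (_ : ∀ v, ∑ w, M v w = k) (_ : ∀ w, ∑ v, M v w = k),
    ∃ σ : Fin k → Equiv.Perm V, ∀ v w, M v w = ∑ i, (if σ i v = w then 1 else 0) := by
  induction k with
  | zero =>
    intro M hrow _
    refine ⟨fun i => Fin.elim0 i, ?_⟩
    intro v w
    rw [Finset.univ_eq_empty, Finset.sum_empty]
    exact (Finset.sum_eq_zero_iff.1 (hrow v)) w (Finset.mem_univ w)
  | succ k ih =>
    intro M hrow hcol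
    obtain ⟨σ0, hσ0⟩ := exists_perm_aux M (k + 1) (by omega) hrow hcol
    have hle : ∀ v w, (if σ0 v = w then 1 else 0) ≤ M v w := by
      intro v w
      by_cases h : σ0 v = w
      · rw [if_pos h, ← h]
        exact Nat.pos_of_ne_zero (hσ0 v)
      · rw [if_neg h]; exact Nat.zero_le _
    have hr1 : ∀ v, ∑ w, (if σ0 v = w then 1 else 0) = 1 := by
      intro v; simp
    have hc1 : ∀ w, ∑ v, (if σ0 v = w then 1 else 0) = 1 := by
      intro w
      rw [Finset.sum_eq_single (σ0.symm w)]
      · simp
      · intro b _ hb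
        rw [if_neg]
        intro h
        apply hb
        rw [← h]; simp
      · intro h; exact absurd (Finset.mem_univ _) h
    obtain ⟨σ, hσ⟩ := ih (fun v w => M v w - (if σ0 v = w then 1 else 0))
      (by
        intro v
        have h1 : ∑ w, (M v w - (if σ0 v = w then 1 else 0)) + ∑ w, (if σ0 v = w then 1 else 0)
            = ∑ w, M v w := by
          rw [← Finset.sum_add_distrib]
          apply Finset.sum_congr rfl
          intro w _
          exact Nat.sub_add_cancel (hle v w)
        rw [hr1, hrow] at h1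
        exact Nat.add_right_cancel h1)
      (by
        intro w
        have h1 : ∑ v, (M v w - (if σ0 v = w then 1 else 0)) + ∑ v, (if σ0 v = w then 1 else 0)
            = ∑ v, M v w := by
          rw [← Finset.sum_add_distrib]
          apply Finset.sum_congr rfl
          intro v _
          exact Nat.sub_add_cancel (hle v w)
        rw [hc1, hcol] at h1
        exact Nat.add_right_cancel h1)
    refine ⟨Fin.cons σ0 σ, ?_⟩
    intro v w
    rw [Fin.sum_univ_succ]
    simp only [Fin.cons_zero, Fin.cons_succ]
    rw [← hσ v w]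
    exact (Nat.add_sub_cancel' (hle v w)).symm

/-- The fibres of `t` are cut into blocks of size `q`. -/
theorem blocks {D V : Type} [Fintype D] [DecidableEq D] [Fintype V] [DecidableEq V]
    (t : D → V) (q : ℕ) (hq : 0 < q)
    (ht : ∀ v, q ∣ (univ.filter (fun d => t d = v)).card) :
    ∃ e : D ≃ (Σ v : V, Fin ((univ.filter (fun d => t d = v)).card / q)) × Fin q,
      ∀ d, (e d).1.1 = t d := by
  have hE : ∀ v, Nonempty ({d // t d = v} ≃
      Fin ((univ.filter (fun d => t d = v)).card / q) × Fin q) := by
    intro v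
    refine ⟨Fintype.equivOfCardEq ?_⟩
    rw [Fintype.card_prod, Fintype.card_fin, Fintype.card_fin, Nat.div_mul_cancel (ht v),
      Fintype.card_subtype]
  have E := fun v => Classical.choice (hE v)
  refine ⟨(Equiv.sigmaFiberEquiv t).symm.trans
    ((Equiv.sigmaCongrRight E).trans (Equiv.sigmaProdDistrib _ _).symm), ?_⟩
  intro d
  rfl

/-- A regular bipartite multigraph has a proper edge colouring. -/
theorem proper {D R C : Type} [Fintype D] [DecidableEq D] [Fintype R] [DecidableEq R]
    [Fintype C] [DecidableEq C] (q : ℕ) (hq : 0 < q) (e : D ≃ R × Fin q) (f : D ≃ C × Fin q) :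
    ∃ c : D → Fin q, (∀ d d', (e d).1 = (e d').1 → c d = c d' → d = d') ∧
      (∀ d d', (f d).1 = (f d').1 → c d = c d' → d = d') := by
  have hcard : Fintype.card R = Fintype.card C := by
    have h1 := Fintype.card_congr (e.symm.trans f)
    rw [Fintype.card_prod, Fintype.card_prod, Fintype.card_fin] at h1
    exact Nat.eq_of_mul_eq_mul_right hq h1
  let g : R ≃ C := Fintype.equivOfCardEq hcard
  let M : R → R → ℕ := fun r s => (univ.filter (fun d => (e d).1 = r ∧ (f d).1 = g s)).card
  have hrow : ∀ r, ∑ s, M r s = q := by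
    intro r
    have h1 : ∑ s, M r s = (univ.filter (fun d => (e d).1 = r)).card := by
      rw [Finset.card_eq_sum_card_fiberwise (f := fun d => g.symm (f d).1) (t := univ)
        (fun _ _ => Finset.mem_coe.2 (Finset.mem_univ _))]
      refine Finset.sum_congr rfl (fun s _ => ?_)
      change (univ.filter (fun d => (e d).1 = r ∧ (f d).1 = g s)).card = _
      rw [Finset.filter_filter]
      refine congrArg Finset.card (Finset.filter_congr (fun d _ => ?_))
      rw [Equiv.symm_apply_eq]
    rw [h1]
    have h2 : (univ.filter (fun d => (e d).1 = r)).card = (univ : Finset (Fin q)).card := by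
      refine Finset.card_bij' (fun d _ => (e d).2) (fun i _ => e.symm (r, i)) ?_ ?_ ?_ ?_
      · intro d _; exact Finset.mem_univ _
      · intro i _; simp
      · intro d hd
        simp only [Finset.mem_filter, Finset.mem_univ, true_and] at hd
        rw [Equiv.symm_apply_eq, ← hd]
      · intro i _; simp
    rw [h2, Finset.card_univ, Fintype.card_fin]
  have hcol : ∀ s, ∑ r, M r s = q := by
    intro s
    have h1 : ∑ r, M r s = (univ.filter (fun d => (f d).1 = g s)).card := by
      rw [Finset.card_eq_sum_card_fiberwise (f := fun d => (e d).1) (t := univ)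
        (fun _ _ => Finset.mem_coe.2 (Finset.mem_univ _))]
      refine Finset.sum_congr rfl (fun r _ => ?_)
      change (univ.filter (fun d => (e d).1 = r ∧ (f d).1 = g s)).card = _
      rw [Finset.filter_filter]
      refine congrArg Finset.card (Finset.filter_congr (fun d _ => ?_))
      exact and_comm
    rw [h1]
    have h2 : (univ.filter (fun d => (f d).1 = g s)).card = (univ : Finset (Fin q)).card := by
      refine Finset.card_bij' (fun d _ => (f d).2) (fun i _ => f.symm (g s, i)) ?_ ?_ ?_ ?_
      · intro d _; exact Finset.mem_univ _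
      · intro i _; simp
      · intro d hd
        simp only [Finset.mem_filter, Finset.mem_univ, true_and] at hd
        rw [Equiv.symm_apply_eq, ← hd]
      · intro i _; simp
    rw [h2, Finset.card_univ, Fintype.card_fin]
  obtain ⟨σ, hσ⟩ := koenig_aux q M hrow hcol
  have hB : ∀ r s, Nonempty ({d // (e d).1 = r ∧ (f d).1 = g s} ≃ {i : Fin q // σ i r = s}) := by
    intro r s
    refine ⟨Fintype.equivOfCardEq ?_⟩
    rw [Fintype.card_subtype, Fintype.card_subtype, Finset.card_filter (fun i => σ i r = s)]
    exact hσ r s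
  have B := fun r s => Classical.choice (hB r s)
  let c : D → Fin q := fun d =>
    (B (e d).1 (g.symm (f d).1) ⟨d, rfl, (g.apply_symm_apply _).symm⟩).1
  have hc : ∀ d, σ (c d) (e d).1 = g.symm (f d).1 := fun d =>
    (B (e d).1 (g.symm (f d).1) ⟨d, rfl, (g.apply_symm_apply _).symm⟩).2
  have hc2 : ∀ r s (d : D) (h : (e d).1 = r ∧ (f d).1 = g s), c d = (B r s ⟨d, h⟩).1 := by
    intro r s d h
    obtain ⟨h1, h2⟩ := h
    subst h1
    have h3 : s = g.symm (f d).1 := by rw [h2]; simp
    subst h3
    rfl
  have key : ∀ d d', (e d).1 = (e d').1 → (f d).1 = (f d').1 → c d = c d' → d = d' := by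
    intro d d' h1 h2 h3
    have h4 : (f d).1 = g (g.symm (f d').1) := by rw [g.apply_symm_apply]; exact h2
    have h5 : (f d').1 = g (g.symm (f d').1) := by rw [g.apply_symm_apply]
    rw [hc2 (e d').1 (g.symm (f d').1) d ⟨h1, h4⟩,
      hc2 (e d').1 (g.symm (f d').1) d' ⟨rfl, h5⟩] at h3
    have h6 := (B (e d').1 (g.symm (f d').1)).injective (Subtype.ext h3)
    exact congrArg Subtype.val h6
  refine ⟨c, ?_, ?_⟩
  · intro d d' h1 h2
    refine key d d' h1 ?_ h2
    have h3 := hc d
    rw [h1, h2, hc d'] at h3
    exact (g.symm.injective h3).symm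
  · intro d d' h1 h2
    refine key d d' ?_ h1 h2
    have h3 := hc d
    have h4 := hc d'
    rw [h1, ← h4, h2] at h3
    exact (σ (c d')).injective h3

theorem count {D V : Type} [Fintype D] [DecidableEq D] [Fintype V] [DecidableEq V]
    (t : D → V) (q : ℕ) (hq : 0 < q)
    (ht : ∀ v, q ∣ (univ.filter (fun d => t d = v)).card)
    (e : D ≃ (Σ v : V, Fin ((univ.filter (fun d => t d = v)).card / q)) × Fin q)
    (he : ∀ d, (e d).1.1 = t d) (c : D → Fin q)
    (hc : ∀ d d', (e d).1 = (e d').1 → c d = c d' → d = d') (k : Fin q) (v : V) :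
    q * (univ.filter (fun d => c d = k ∧ t d = v)).card =
        (univ.filter (fun d => t d = v)).card := by
  have hinj : Function.Injective (fun d => ((e d).1, c d)) := by
    intro d d' h
    have h' : ((e d).1, c d) = ((e d').1, c d') := h
    exact hc d d' (Prod.ext_iff.1 h').1 (Prod.ext_iff.1 h').2
  have hbij : Function.Bijective (fun d => ((e d).1, c d)) :=
    (Fintype.bijective_iff_injective_and_card _).2 ⟨hinj, Fintype.card_congr e⟩
  let E := Equiv.ofBijective _ hbij
  have hE : ∀ d, E d = ((e d).1, c d) := fun d => rfl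
  have h1 : (univ.filter (fun d => c d = k ∧ t d = v)).card =
      (univ : Finset (Fin ((univ.filter (fun d => t d = v)).card / q))).card := by
    symm
    refine Finset.card_bij (fun i _ => E.symm (⟨v, i⟩, k)) ?_ ?_ ?_
    · intro i _
      simp only [Finset.mem_filter, Finset.mem_univ, true_and]
      have h2 := hE (E.symm (⟨v, i⟩, k))
      rw [E.apply_symm_apply] at h2
      refine ⟨(Prod.ext_iff.1 h2).2.symm, ?_⟩
      rw [← he, ← (Prod.ext_iff.1 h2).1]
    · intro i _ j _ h
      have h2 := E.symm.injective h
      simpa using h2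
    · intro d hd
      simp only [Finset.mem_filter, Finset.mem_univ, true_and] at hd
      obtain ⟨hd1, hd2⟩ := hd
      rw [← he] at hd2
      subst hd2
      refine ⟨(e d).1.2, Finset.mem_univ _, ?_⟩
      rw [Equiv.symm_apply_eq, hE, hd1]
  rw [h1, Finset.card_univ, Fintype.card_fin, Nat.mul_div_cancel' (ht v)]

theorem split {D V W : Type} [Fintype D] [DecidableEq D] [Fintype V] [DecidableEq V]
    [Fintype W] [DecidableEq W] (t : D → V) (h : D → W) (q : ℕ) (hq : 0 < q)
    (ht : ∀ v, q ∣ (univ.filter (fun d => t d = v)).card)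
    (hh : ∀ w, q ∣ (univ.filter (fun d => h d = w)).card) :
    ∃ c : D → Fin q, ∀ k,
      (∀ v, q * (univ.filter (fun d => c d = k ∧ t d = v)).card =
        (univ.filter (fun d => t d = v)).card) ∧
      (∀ w, q * (univ.filter (fun d => c d = k ∧ h d = w)).card =
        (univ.filter (fun d => h d = w)).card) := by
  obtain ⟨e, he⟩ := blocks t q hq ht
  obtain ⟨f, hf⟩ := blocks h q hq hh
  obtain ⟨c, hc1, hc2⟩ := proper q hq e f
  exact ⟨c, fun k => ⟨fun v => count t q hq ht e he c hc1 k v,
    fun w => count h q hq hh f hf c hc2 k w⟩⟩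

end Pool.Agent.H9.TD.T2
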