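import Pool.Agent.H9.TD.Assembly
import Pool.Agent.H9.TD.Split
import Pool.Agent.H9.TD.Blocks

set_option autoImplicit false

/-!
From a coloured orientation to the copies of the tree.
-/

namespace Pool.Agent.H9.TD

open Finset T2

/-- The end of the tree edge `{j, par j}` in the class of heads (`col = false`). -/
def te (par : ℕ → ℕ) (col : ℕ → Bool) (j : ℕ) : ℕ := if col j = false then j else par j

/-- The number of tree edges at the head role `t`. -/
def qq (par : ℕ → ℕ) (col : ℕ → Bool) (m t : ℕ) : ℕ :=
  ((Icc 1 m).filter (fun j => te par col j = t)).card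

/-- The head roles except the last vertex. -/
abbrev JJ (col : ℕ → Bool) (m : ℕ) : Type := {t : Fin m // col t = false}

section

variable {par : ℕ → ℕ} {col : ℕ → Bool} {m : ℕ}

theorem te_lt (hpar : ∀ j, 1 ≤ j → j ≤ m → par j < j)
    (hcolm : col m = false) (hcol : ∀ j, 1 ≤ j → j ≤ m → col j ≠ col (par j))
    {j : ℕ} (h1 : 1 ≤ j) (h2 : j < m) : te par col j < m ∧ col (te par col j) = false := by
  have hp := hpar j h1 h2.le
  have hc := hcol j h1 h2.le
  unfold te
  by_cases h : col j = false
  · rw [if_pos h]; exact ⟨h2, h⟩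
  · rw [if_neg h]
    refine ⟨by omega, ?_⟩
    rw [Bool.not_eq_false] at h
    rw [h] at hc
    cases hh : col (par j)
    · rfl
    · rw [hh] at hc; exact absurd rfl hc

theorem te_last (hcolm : col m = false) : te par col m = m := by
  unfold te
  rw [if_pos hcolm]

theorem qq_pos (hm : 1 ≤ m) (hpar : ∀ j, 1 ≤ j → j ≤ m → par j < j)
    (hcol : ∀ j, 1 ≤ j → j ≤ m → col j ≠ col (par j)) (t : JJ col m) :
    0 < qq par col m t.1 := by
  unfold qq
  rw [card_pos]
  rcases Nat.eq_zero_or_pos (t.1 : ℕ) with h | h
  · refine ⟨1, ?_⟩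
    rw [mem_filter, mem_Icc]
    refine ⟨⟨le_rfl, hm⟩, ?_⟩
    have h1 := hpar 1 le_rfl hm
    have h2 : par 1 = 0 := by omega
    have h3 := hcol 1 le_rfl hm
    have h4 := t.2
    rw [h] at h4
    rw [h2, h4] at h3
    unfold te
    rw [if_neg h3, h2, h]
  · refine ⟨t.1, ?_⟩
    rw [mem_filter, mem_Icc]
    have := t.1.2
    refine ⟨⟨h, by omega⟩, ?_⟩
    unfold te
    rw [if_pos t.2]

theorem qq_sum (hm : 1 ≤ m) (hpar : ∀ j, 1 ≤ j → j ≤ m → par j < j)
    (hcolm : col m = false) (hcol : ∀ j, 1 ≤ j → j ≤ m → col j ≠ col (par j)) :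
    ∑ t : JJ col m, qq par col m t.1 + 1 = m := by
  classical
  have h1 : ∑ t : JJ col m, qq par col m t.1 = (Icc 1 (m - 1)).card := by
    unfold qq
    rw [← card_biUnion]
    · congr 1
      ext j
      rw [mem_biUnion, mem_Icc]
      constructor
      · rintro ⟨t, _, h⟩
        rw [mem_filter, mem_Icc] at h
        have h3 : j ≠ m := by
          rintro rfl
          rw [te_last hcolm] at h
          have := t.1.2
          omega
        omega
      · rintro ⟨h2, h3⟩
        have h4 := te_lt hpar hcolm hcol h2 (show j < m by omega)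
        refine ⟨⟨⟨te par col j, h4.1⟩, h4.2⟩, mem_univ _, ?_⟩
        rw [mem_filter, mem_Icc]
        exact ⟨⟨h2, by omega⟩, rfl⟩
    · intro t _ t' _ hne
      show Disjoint _ _
      rw [disjoint_left]
      intro j h2 h3
      rw [mem_filter] at h2 h3
      exact hne (Subtype.ext (Fin.ext (h2.2.symm.trans h3.2)))
  rw [h1, Nat.card_Icc]
  omega

end

section

variable {V D : Type} [Fintype V] [DecidableEq V] [Fintype D] [DecidableEq D]

/-- The labels: every colour class is split evenly. -/
theorem exists_lab {par : ℕ → ℕ} {col : ℕ → Bool} {m K : ℕ} (hm : 1 ≤ m)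
    (hpar : ∀ j, 1 ≤ j → j ≤ m → par j < j)
    (hcolm : col m = false) (hcol : ∀ j, 1 ≤ j → j ≤ m → col j ≠ col (par j))
    (tail head : D → V) (c : D → Option (JJ col m)) (g : V → ℕ)
    (h1 : ∀ v t, (univ.filter (fun d => tail d = v ∧ c d = some t)).card =
      K * qq par col m t.1 * g v)
    (h2 : ∀ v, (univ.filter (fun d => tail d = v ∧ c d = none)).card = K * g v)
    (h3 : ∀ v t, K * qq par col m t.1 ∣ (univ.filter (fun d => head d = v ∧ c d = some t)).card) :
    ∃ (lab : D → ℕ) (nh : ℕ → V → ℕ), (∀ d, 1 ≤ lab d ∧ lab d ≤ m) ∧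
      (∀ j, 1 ≤ j → j ≤ m → ∀ v, (univ.filter (fun d => lab d = j ∧ tail d = v)).card = K * g v) ∧
      (∀ j, 1 ≤ j → j < m → ∀ v, (univ.filter (fun d => lab d = j ∧ head d = v)).card =
        K * nh (te par col j) v) := by
  classical
  -- split every class
  have key : ∀ t : JJ col m, ∃ lb : D → ℕ,
      (∀ d, c d = some t → lb d ∈ (Icc 1 m).filter (fun j => te par col j = t.1)) ∧
      ∀ j ∈ (Icc 1 m).filter (fun j => te par col j = t.1), ∀ v,
        (univ.filter (fun d => (c d = some t ∧ lb d = j) ∧ tail d = v)).card = K * g v ∧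
        (univ.filter (fun d => (c d = some t ∧ lb d = j) ∧ head d = v)).card =
          K * ((univ.filter (fun d => head d = v ∧ c d = some t)).card /
            (K * qq par col m t.1)) := by
    intro t
    have hq := qq_pos hm hpar hcol t
    let Dt := {d : D // c d = some t}
    have conv : ∀ (P : D → Prop) [DecidablePred P],
        (univ.filter (fun d : Dt => P d.1)).card =
        (univ.filter (fun d => P d ∧ c d = some t)).card := by
      intro P _
      rw [← card_map (Function.Embedding.subtype _)]
      congr 1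
      ext d
      simp only [mem_map, mem_filter, mem_univ, true_and, Function.Embedding.coe_subtype]
      constructor
      · rintro ⟨d', h, rfl⟩
        exact ⟨h, d'.2⟩
      · rintro ⟨h, h'⟩
        exact ⟨⟨d, h'⟩, h, rfl⟩
    obtain ⟨cc, hcc⟩ := split (D := Dt) (fun d => tail d.1) (fun d => head d.1)
      (qq par col m t.1) hq (by
        intro v
        rw [conv (fun d => tail d = v), h1]
        exact ⟨K * g v, by ring⟩) (by
        intro v
        rw [conv (fun d => head d = v)]
        exact (Dvd.intro_left K rfl).trans (h3 v t))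
    have hcardL : ((Icc 1 m).filter (fun j => te par col j = t.1)).card = qq par col m t.1 := rfl
    let eL := ((Icc 1 m).filter (fun j => te par col j = t.1)).orderIsoOfFin hcardL
    refine ⟨fun d => if h : c d = some t then (eL (cc ⟨d, h⟩) : ℕ) else 0, ?_, ?_⟩
    · intro d hd
      beta_reduce
      rw [dif_pos hd]
      exact (eL (cc ⟨d, hd⟩)).2
    · intro j hj v
      have hk : ∀ d : Dt, ((if h : c d.1 = some t then (eL (cc ⟨d.1, h⟩) : ℕ) else 0) = j) ↔
          cc d = eL.symm ⟨j, hj⟩ := by
        intro d
        rw [dif_pos d.2]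
        constructor
        · intro h
          rw [← eL.symm_apply_apply (cc d)]
          congr 1
          exact Subtype.ext h
        · intro h
          show (eL (cc d) : ℕ) = j
          rw [h, eL.apply_symm_apply]
      have hcount : ∀ (f : D → V),
          (univ.filter (fun d => (c d = some t ∧ (if h : c d = some t then
            (eL (cc ⟨d, h⟩) : ℕ) else 0) = j) ∧ f d = v)).card =
          (univ.filter (fun d : Dt => cc d = eL.symm ⟨j, hj⟩ ∧ f d.1 = v)).card := by
        intro f
        rw [← card_map (Function.Embedding.subtype _)]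
        congr 1
        ext d
        simp only [mem_map, mem_filter, mem_univ, true_and, Function.Embedding.coe_subtype]
        constructor
        · rintro ⟨⟨h, h'⟩, h''⟩
          exact ⟨⟨d, h⟩, ⟨(hk ⟨d, h⟩).1 h', h''⟩, rfl⟩
        · rintro ⟨d', ⟨h, h'⟩, rfl⟩
          exact ⟨⟨d'.2, (hk d').2 h⟩, h'⟩
      have hspl := hcc (eL.symm ⟨j, hj⟩)
      constructor
      · have e1 := hspl.1 v
        rw [hcount tail]
        rw [conv (fun d => tail d = v), h1] at e1
        have e2 : qq par col m t.1 * (univ.filter (fun d : Dt => cc d = eL.symm ⟨j, hj⟩ ∧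
            tail d.1 = v)).card = qq par col m t.1 * (K * g v) := by rw [e1]; ring
        exact Nat.eq_of_mul_eq_mul_left hq e2
      · have e1 := hspl.2 v
        rw [hcount head]
        rw [conv (fun d => head d = v)] at e1
        obtain ⟨n, hn⟩ := h3 v t
        rw [hn] at e1 ⊢
        rcases Nat.eq_zero_or_pos K with hK | hK
        · subst hK
          have e2 : qq par col m t.1 * (univ.filter (fun d : Dt => cc d = eL.symm ⟨j, hj⟩ ∧
            head d.1 = v)).card = 0 := by rw [e1]; ring
          rw [zero_mul]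
          rcases Nat.mul_eq_zero.1 e2 with h | h
          · omega
          · exact h
        · rw [Nat.mul_div_cancel_left _ (Nat.mul_pos hK hq)]
          have e2 : qq par col m t.1 * (univ.filter (fun d : Dt => cc d = eL.symm ⟨j, hj⟩ ∧
            head d.1 = v)).card = qq par col m t.1 * (K * n) := by rw [e1]; ring
          exact Nat.eq_of_mul_eq_mul_left hq e2
  choose lb hlb1 hlb2 using key
  -- the label
  let lab : D → ℕ := fun d => match c d with
    | none => m
    | some t => lb t d
  have lab_none : ∀ d, c d = none → lab d = m := by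
    intro d hd
    simp only [lab, hd]
  have lab_some : ∀ d t, c d = some t → lab d = lb t d := by
    intro d t hd
    simp only [lab, hd]
  have lab_te : ∀ d t, c d = some t → (1 ≤ lab d ∧ lab d < m) ∧ te par col (lab d) = t.1 := by
    intro d t hd
    have h := hlb1 t d hd
    rw [← lab_some d t hd, mem_filter, mem_Icc] at h
    refine ⟨⟨h.1.1, ?_⟩, h.2⟩
    rcases Nat.lt_or_ge (lab d) m with h' | h'
    · exact h'
    · have h4 : lab d = m := by omega
      rw [h4, te_last hcolm] at h
      have := t.1.2
      omega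
  have flt : ∀ (f : D → V) (v : V) (j : ℕ) (hj1 : 1 ≤ j) (hj2 : j < m),
      (univ.filter (fun d => lab d = j ∧ f d = v)) =
      (univ.filter (fun d => (c d = some ⟨⟨te par col j, (te_lt hpar hcolm hcol hj1 hj2).1⟩,
        (te_lt hpar hcolm hcol hj1 hj2).2⟩ ∧ lb ⟨⟨te par col j,
          (te_lt hpar hcolm hcol hj1 hj2).1⟩,
        (te_lt hpar hcolm hcol hj1 hj2).2⟩ d = j) ∧ f d = v)) := by
    intro f v j hj1 hj2
    ext d
    simp only [mem_filter, mem_univ, true_and]
    refine and_congr_left fun _ => ?_
    constructor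
    · intro h
      cases hc : c d with
      | none => rw [lab_none d hc] at h; omega
      | some t =>
        have h5 := lab_te d t hc
        rw [h] at h5
        have h6 : t = ⟨⟨te par col j, (te_lt hpar hcolm hcol hj1 hj2).1⟩,
          (te_lt hpar hcolm hcol hj1 hj2).2⟩ := Subtype.ext (Fin.ext h5.2.symm)
        rw [← h6]
        refine ⟨rfl, ?_⟩
        rw [← lab_some d t hc, h]
    · rintro ⟨h, h'⟩
      rw [lab_some d _ h, h']
  refine ⟨lab, fun r v => if hr : r < m ∧ col r = false then
    (univ.filter (fun d => head d = v ∧ c d = some ⟨⟨r, hr.1⟩, hr.2⟩)).card /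
      (K * qq par col m r) else 0, ?_, ?_, ?_⟩
  · intro d
    cases hc : c d with
    | none => rw [lab_none d hc]; exact ⟨hm, le_rfl⟩
    | some t => have := (lab_te d t hc).1; omega
  · intro j hj1 hj2 v
    rcases Nat.lt_or_ge j m with h | h
    · rw [flt tail v j hj1 h]
      refine ((hlb2 _ j ?_ v).1)
      rw [mem_filter, mem_Icc]
      exact ⟨⟨hj1, hj2⟩, rfl⟩
    · obtain rfl : j = m := by omega
      rw [← h2 v]
      congr 1
      ext d
      simp only [mem_filter, mem_univ, true_and]
      constructor
      · rintro ⟨h4, h5⟩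
        refine ⟨h5, ?_⟩
        cases hc : c d with
        | none => rfl
        | some t => have := (lab_te d t hc).1; omega
      · rintro ⟨h4, h5⟩
        exact ⟨lab_none d h5, h4⟩
  · intro j hj1 hj2 v
    have hte := te_lt hpar hcolm hcol hj1 hj2
    rw [flt head v j hj1 hj2]
    beta_reduce
    rw [dif_pos hte]
    refine ((hlb2 _ j ?_ v).2)
    rw [mem_filter, mem_Icc]
    exact ⟨⟨hj1, hj2.le⟩, rfl⟩

end

end Pool.Agent.H9.TD
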