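import Pool.Agent.H9.TD.Build

set_option autoImplicit false

/-!
The block system of a coloured orientation, and the copies of the tree.
-/

namespace Pool.Agent.H9.TD

open Finset

variable {V D : Type} [Fintype V] [DecidableEq V] [Fintype D] [DecidableEq D]

/-- The copies of the tree obtained from a coloured orientation. -/
theorem copies {par : ℕ → ℕ} {col : ℕ → Bool} {m : ℕ} (hm : 1 ≤ m)
    (hpar : ∀ j, 1 ≤ j → j ≤ m → par j < j)
    (hcolm : col m = false) (hcol : ∀ j, 1 ≤ j → j ≤ m → col j ≠ col (par j))
    (tail head : D → V) (c : D → Option (JJ col m)) (g : V → ℕ)
    (h1 : ∀ v t, (univ.filter (fun d => tail d = v ∧ c d = some t)).card =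
      KK m * qq par col m t.1 * g v)
    (h2 : ∀ v, (univ.filter (fun d => tail d = v ∧ c d = none)).card = KK m * g v)
    (h3 : ∀ v t, KK m * qq par col m t.1 ∣
      (univ.filter (fun d => head d = v ∧ c d = some t)).card)
    (hsimple : ∀ d d', tail d = tail d' → head d = head d' → d = d')
    (hloop : ∀ d, tail d ≠ head d) :
    ∃ (I : Type) (_ : Fintype I) (φ : ℕ → I → V) (x : ℕ → I → D) (lab : D → ℕ),
      (∀ d, 1 ≤ lab d ∧ lab d ≤ m) ∧
      (∀ r, 1 ≤ r → r ≤ m → ∀ i, lab (x r i) = r ∧
        s(tail (x r i), head (x r i)) = s(φ r i, φ (par r) i)) ∧
      (∀ r, 1 ≤ r → r ≤ m → Function.Injective (x r)) ∧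
      (∀ r, 1 ≤ r → r ≤ m → ∀ d, lab d = r → ∃ i, x r i = d) ∧
      ∀ i, ∀ r ≤ m, ∀ r' ≤ m, φ r i = φ r' i → r = r' := by
  classical
  obtain ⟨lab, nh, hlab, ht, hh⟩ := exists_lab hm hpar hcolm hcol tail head c g h1 h2 h3
  have hK : 0 < KK m := KK_pos hm
  let pend : D → V := fun d => if col (par (lab d)) = true then tail d else head d
  let cend : D → V := fun d => if col (lab d) = true then tail d else head d
  let n : ℕ → V → ℕ := fun r v => if col r = true then g v else nh r v
  -- the numbers of edges at the ends
  have hp : ∀ j, 1 ≤ j → j ≤ m → ∀ v,
      (univ.filter (fun d => lab d = j ∧ pend d = v)).card = KK m * n (par j) v := by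
    intro j hj1 hj2 v
    by_cases hc : col (par j) = true
    · have e : (univ.filter (fun d => lab d = j ∧ pend d = v)) =
          (univ.filter (fun d => lab d = j ∧ tail d = v)) := by
        ext d
        simp only [mem_filter, mem_univ, true_and]
        refine and_congr_right fun h => ?_
        simp only [pend, h, hc, if_true]
      rw [e, ht j hj1 hj2]
      simp only [n, hc, if_true]
    · have e : (univ.filter (fun d => lab d = j ∧ pend d = v)) =
          (univ.filter (fun d => lab d = j ∧ head d = v)) := by
        ext d
        simp only [mem_filter, mem_univ, true_and]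
        refine and_congr_right fun h => ?_
        simp only [pend, h, hc]
        simp
      have hcj := hcol j hj1 hj2
      have hcj' : col j = true := by
        rw [Bool.not_eq_true] at hc
        rw [hc] at hcj
        exact Bool.eq_true_of_not_eq_false hcj
      have hjm : j < m := by
        rcases Nat.lt_or_ge j m with h | h
        · exact h
        · have : j = m := by omega
          rw [this, hcolm] at hcj'
          exact absurd hcj' (by decide)
      have hte : te par col j = par j := by
        unfold te
        rw [if_neg (by rw [hcj']; decide)]
      rw [e, hh j hj1 hjm, hte]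
      simp only [n, hc]
      simp
  have hcnt : ∀ j, 1 ≤ j → j < m → ∀ v,
      (univ.filter (fun d => lab d = j ∧ cend d = v)).card = KK m * n j v := by
    intro j hj1 hj2 v
    by_cases hc : col j = true
    · have e : (univ.filter (fun d => lab d = j ∧ cend d = v)) =
          (univ.filter (fun d => lab d = j ∧ tail d = v)) := by
        ext d
        simp only [mem_filter, mem_univ, true_and]
        refine and_congr_right fun h => ?_
        simp only [cend, h, hc, if_true]
      rw [e, ht j hj1 hj2.le]
      simp only [n, hc, if_true]
    · have e : (univ.filter (fun d => lab d = j ∧ cend d = v)) =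
          (univ.filter (fun d => lab d = j ∧ head d = v)) := by
        ext d
        simp only [mem_filter, mem_univ, true_and]
        refine and_congr_right fun h => ?_
        simp only [cend, h, hc]
        simp
      have hte : te par col j = j := by
        unfold te
        rw [if_pos (by rwa [Bool.not_eq_true] at hc)]
      rw [e, hh j hj1 hj2, hte]
      simp only [n, hc]
      simp
  -- blocks at the parents
  have hfp : ∀ u : ℕ × V, KK m ∣ (univ.filter (fun d => (lab d, pend d) = u)).card := by
    rintro ⟨j, v⟩
    by_cases hj : 1 ≤ j ∧ j ≤ m
    · have e : (univ.filter (fun d => (lab d, pend d) = (j, v))) =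
          (univ.filter (fun d => lab d = j ∧ pend d = v)) := by
        ext d
        simp only [mem_filter, mem_univ, true_and, Prod.mk.injEq]
      rw [e, hp j hj.1 hj.2]
      exact Dvd.intro _ rfl
    · have e : (univ.filter (fun d => (lab d, pend d) = (j, v))) = ∅ := by
        rw [filter_eq_empty_iff]
        intro d _ h
        rw [Prod.mk.injEq] at h
        apply hj
        rw [← h.1]
        exact hlab d
      rw [e, card_empty]
      exact dvd_zero _
  obtain ⟨bp, hbp1, hbp2⟩ := blocks (fun d => (lab d, pend d)) (KK m) hK hfp
  -- blocks at the children
  have hfc : ∀ u : Option (ℕ × V), KK m ∣ (univ.filter (fun d =>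
      (if lab d < m then some (lab d, cend d) else none) = u)).card := by
    intro u
    cases u with
    | none =>
      have e : (univ.filter (fun d => (if lab d < m then some (lab d, cend d) else none) =
          (none : Option (ℕ × V)))) =
          univ.biUnion (fun v : V => univ.filter (fun d => lab d = m ∧ tail d = v)) := by
        ext d
        simp only [mem_filter, mem_univ, true_and, mem_biUnion]
        constructor
        · intro h
          by_cases h' : lab d < m
          · rw [if_pos h'] at h
            exact absurd h (by simp)
          · have := (hlab d).2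
            exact ⟨tail d, by omega, rfl⟩
        · rintro ⟨v, h, _⟩
          rw [if_neg (by omega)]
      rw [e, card_biUnion]
      · apply Finset.dvd_sum
        intro v _
        rw [ht m hm le_rfl]
        exact Dvd.intro _ rfl
      · intro v _ v' _ hne
        show Disjoint _ _
        rw [disjoint_left]
        intro d hd hd'
        rw [mem_filter] at hd hd'
        exact hne (hd.2.2.symm.trans hd'.2.2)
    | some u =>
      obtain ⟨j, v⟩ := u
      by_cases hj : 1 ≤ j ∧ j < m
      · have e : (univ.filter (fun d => (if lab d < m then some (lab d, cend d) else none) =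
            some (j, v))) = (univ.filter (fun d => lab d = j ∧ cend d = v)) := by
          ext d
          simp only [mem_filter, mem_univ, true_and]
          constructor
          · intro h
            by_cases h' : lab d < m
            · rw [if_pos h', Option.some_inj, Prod.mk.injEq] at h
              exact h
            · rw [if_neg h'] at h
              exact absurd h (by simp)
          · rintro ⟨h, h'⟩
            rw [if_pos (by omega), h, h']
        rw [e, hcnt j hj.1 hj.2]
        exact Dvd.intro _ rfl
      · have e : (univ.filter (fun d => (if lab d < m then some (lab d, cend d) else none) =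
            some (j, v))) = ∅ := by
          rw [filter_eq_empty_iff]
          intro d _ h
          by_cases h' : lab d < m
          · rw [if_pos h', Option.some_inj, Prod.mk.injEq] at h
            apply hj
            rw [← h.1]
            exact ⟨(hlab d).1, h'⟩
          · rw [if_neg h'] at h
            exact absurd h (by simp)
        rw [e, card_empty]
        exact dvd_zero _
  obtain ⟨bc, hbc1, hbc2⟩ := blocks
    (fun d => (if lab d < m then some (lab d, cend d) else none)) (KK m) hK hfc
  have ep : ∀ j, 1 ≤ j → j ≤ m → ∀ v,
      (univ.filter (fun d => (lab d, pend d) = (j, v))).card / KK m = n (par j) v := by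
    intro j hj1 hj2 v
    have e : (univ.filter (fun d => (lab d, pend d) = (j, v))) =
        (univ.filter (fun d => lab d = j ∧ pend d = v)) := by
      ext d
      simp only [mem_filter, mem_univ, true_and, Prod.mk.injEq]
    rw [e, hp j hj1 hj2, Nat.mul_div_cancel_left _ hK]
  have ec : ∀ j, 1 ≤ j → j < m → ∀ v,
      (univ.filter (fun d => (if lab d < m then some (lab d, cend d) else none) =
        some (j, v))).card / KK m = n j v := by
    intro j hj1 hj2 v
    have e : (univ.filter (fun d => (if lab d < m then some (lab d, cend d) else none) =
        some (j, v))) = (univ.filter (fun d => lab d = j ∧ cend d = v)) := by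
      ext d
      simp only [mem_filter, mem_univ, true_and]
      constructor
      · intro h
        by_cases h' : lab d < m
        · rw [if_pos h', Option.some_inj, Prod.mk.injEq] at h
          exact h
        · rw [if_neg h'] at h
          exact absurd h (by simp)
      · rintro ⟨h, h'⟩
        rw [if_pos (by omega), h, h']
    rw [e, hcnt j hj1 hj2, Nat.mul_div_cancel_left _ hK]
  -- the ends
  have hends : ∀ d, s(tail d, head d) = s(cend d, pend d) := by
    intro d
    have hc := hcol (lab d) (hlab d).1 (hlab d).2
    by_cases h : col (lab d) = true
    · have h' : ¬ col (par (lab d)) = true := by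
        rw [h] at hc
        exact fun h'' => hc h''.symm
      simp only [cend, pend, h, if_true, if_neg h']
    · have h' : col (par (lab d)) = true := by
        rw [Bool.not_eq_true] at h
        rw [h] at hc
        exact Bool.eq_true_of_not_eq_false (Ne.symm hc)
      simp only [cend, pend, if_neg h, h', if_true]
      exact Sym2.eq_swap
  have memact : ∀ (r : ℕ) (x : V × ℕ),
      x ∈ (univ : Finset V).biUnion (fun v => (range (n r v)).image (fun b => (v, b))) ↔
        x.2 < n r x.1 := by
    intro r x
    rw [mem_biUnion]
    constructor
    · rintro ⟨v, _, h⟩
      rw [mem_image] at h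
      obtain ⟨b, hb, rfl⟩ := h
      exact mem_range.1 hb
    · intro h
      exact ⟨x.1, mem_univ _, mem_image.2 ⟨x.2, mem_range.2 h, rfl⟩⟩
  let S : Sys V D m (KK m) :=
    { par := par
      lab := lab
      pe := fun d => (pend d, bp d)
      ce := fun d => (cend d, bc d)
      act := fun r => (univ : Finset V).biUnion (fun v => (range (n r v)).image (fun b => (v, b)))
      par_lt := hpar
      lab_pos := fun d => (hlab d).1
      lab_le := fun d => (hlab d).2
      pe_act := by
        intro d
        rw [memact]
        have := hbp1 d
        rw [ep _ (hlab d).1 (hlab d).2] at this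
        exact this
      ce_act := by
        intro d hd
        rw [memact]
        have := hbc1 d
        rw [if_pos hd, ec _ (hlab d).1 hd] at this
        exact this
      pe_fib := by
        intro j hj1 hj2 x hx
        rw [memact] at hx
        have := hbp2 (j, x.1) x.2 (by rw [ep j hj1 hj2]; exact hx)
        refine Eq.trans ?_ this
        congr 1
        ext d
        simp only [mem_filter, mem_univ, true_and, Prod.mk.injEq]
        constructor
        · rintro ⟨h, h'⟩
          rw [Prod.ext_iff] at h'
          exact ⟨⟨h, h'.1⟩, h'.2⟩
        · rintro ⟨⟨h, h'⟩, h''⟩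
          exact ⟨h, Prod.ext h' h''⟩
      ce_fib := by
        intro j hj1 hj2 x hx
        rw [memact] at hx
        have := hbc2 (some (j, x.1)) x.2 (by rw [ec j hj1 hj2]; exact hx)
        refine Eq.trans ?_ this
        congr 1
        ext d
        simp only [mem_filter, mem_univ, true_and]
        constructor
        · rintro ⟨h, h'⟩
          rw [Prod.ext_iff] at h'
          refine ⟨?_, h'.2⟩
          rw [if_pos (by omega), h]
          congr 2
          exact h'.1
        · rintro ⟨h, h'⟩
          by_cases h3 : lab d < m
          · rw [if_pos h3, Option.some_inj, Prod.mk.injEq] at h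
            exact ⟨h.1, Prod.ext h.2 h'⟩
          · rw [if_neg h3] at h
            exact absurd h (by simp)
      simp' := by
        intro d d' hl hpd hcd
        simp only at hpd hcd
        have hc := hcol (lab d) (hlab d).1 (hlab d).2
        by_cases h : col (lab d) = true
        · have h' : ¬ col (par (lab d)) = true := by
            rw [h] at hc
            exact fun h'' => hc h''.symm
          simp only [cend, pend, ← hl, if_pos h, if_neg h'] at hpd hcd
          exact hsimple d d' hcd hpd
        · have h' : col (par (lab d)) = true := by
            rw [Bool.not_eq_true] at h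
            rw [h] at hc
            exact Bool.eq_true_of_not_eq_false (Ne.symm hc)
          simp only [cend, pend, ← hl, if_neg h, if_pos h'] at hpd hcd
          exact hsimple d d' hpd hcd
      loop' := by
        intro d h
        simp only at h
        have h4 := hends d
        rw [h] at h4
        rw [Sym2.eq_iff] at h4
        rcases h4 with h4 | h4
        · exact hloop d (h4.1.trans h4.2.symm)
        · exact hloop d (h4.1.trans h4.2.symm) }
  obtain ⟨I, hI, φ, x, a1, a2, a3, a4⟩ := assembly hm S
  refine ⟨I, hI, φ, x, lab, hlab, ?_, a2, a3, a4⟩
  intro r hr1 hr2 i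
  obtain ⟨b1, b2, b3⟩ := a1 r hr1 hr2 i
  refine ⟨b1, ?_⟩
  rw [hends]
  have b2' : pend (x r i) = φ (par r) i := b2
  have b3' : cend (x r i) = φ r i := b3
  rw [b2', b3']

end Pool.Agent.H9.TD
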