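import Mathlib

set_option autoImplicit false

/-!
Decompositions of graphs into copies of a tree given by parents.
-/

namespace Pool.Agent.H9.TD

/-- `G` is decomposed into copies of the tree with the vertices `0, …, m` and the edges
`{j, par j}`, `1 ≤ j ≤ m`. -/
def TDec {V : Type} (par : ℕ → ℕ) (m : ℕ) (G : SimpleGraph V) : Prop :=
  ∃ (ι : Type) (_ : Fintype ι) (f : ι → ℕ → V),
    (∀ i, ∀ r ≤ m, ∀ r' ≤ m, f i r = f i r' → r = r') ∧
    (∀ i j, 1 ≤ j → j ≤ m → G.Adj (f i j) (f i (par j))) ∧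
    ∀ u v, G.Adj u v → ∃! p : ι × ℕ, (1 ≤ p.2 ∧ p.2 ≤ m) ∧ s(f p.1 p.2, f p.1 (par p.2)) = s(u, v)

end Pool.Agent.H9.TD
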