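import Pool.Agent.H9.TD.Labelling
import Pool.Agent.H9.TD.Build2
import Pool.Agent.H9.TD.Defs

set_option autoImplicit false

/-!
The almost bipartite case.
-/

namespace Pool.Agent.H9.TD

open Finset

/-- Two-colourings of trees given by parents. -/
theorem exists_col (par : ℕ → ℕ) (m : ℕ) (hpar : ∀ j, 1 ≤ j → j ≤ m → par j < j) :
    ∃ col : ℕ → Bool, col m = false ∧ ∀ j, 1 ≤ j → j ≤ m → col j ≠ col (par j) := by
  have key : ∀ n ≤ m, ∃ col : ℕ → Bool, ∀ j, 1 ≤ j → j ≤ n → col j ≠ col (par j) := by
    intro n
    induction n with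
    | zero => intro _; exact ⟨fun _ => false, fun j h1 h2 => by omega⟩
    | succ n ih =>
      intro hn
      obtain ⟨col, hcol⟩ := ih (by omega)
      refine ⟨fun i => if i = n + 1 then !col (par (n + 1)) else col i, ?_⟩
      intro j h1 h2
      have hp := hpar j h1 (by omega)
      beta_reduce
      rw [if_neg (show par j ≠ n + 1 by omega)]
      by_cases h : j = n + 1
      · rw [if_pos h, h]
        cases col (par (n + 1)) <;> simp
      · rw [if_neg h]
        exact hcol j h1 (by omega)
  obtain ⟨col, hcol⟩ := key m le_rfl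
  cases h : col m
  · exact ⟨col, h, hcol⟩
  · refine ⟨fun i => !col i, by simp [h], ?_⟩
    intro j h1 h2 h3
    exact hcol j h1 h2 (by simpa using h3)

section

variable {V : Type} [Fintype V] [DecidableEq V]

theorem dec_of_almost_bipartite (m : ℕ) (hm : 1 ≤ m) (par : ℕ → ℕ)
    (hpar : ∀ j, 1 ≤ j → j ≤ m → par j < j) (side : V → Bool) (G : SimpleGraph V)
    (Y : Finset (V × V)) (hdiv : m * KK m ∣ G.edgeSet.ncard)
    (hY1 : ∀ u v, G.Adj u v ∧ side u = side v ↔ ((u, v) ∈ Y ∨ (v, u) ∈ Y))
    (hY2 : ∀ u v, (u, v) ∈ Y → (v, u) ∉ Y)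
    (hY3 : ∀ u, (Y.filter (fun p => p.1 = u)).card + 1 ≤ m)
    (hcut : ∀ U : Finset V, U.Nonempty → U ≠ univ →
        16 * m ^ 2 * KK m ≤
          {p : V × V | G.Adj p.1 p.2 ∧ p.1 ∈ U ∧ p.2 ∉ U ∧ side p.1 ≠ side p.2}.ncard) :
    TDec par m G := by
  classical
  obtain ⟨col, hcolm, hcol⟩ := exists_col par m hpar
  have hK : 0 < KK m := KK_pos hm
  let A := {v : V // side v = true}
  let B := {v : V // side v = false}
  let X := {p : A × B // G.Adj p.1.1 p.2.1}
  let a : X → A := fun x => x.1.1
  let b : X → B := fun x => x.1.2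
  let val : A ⊕ B → V := Sum.elim Subtype.val Subtype.val
  let inv : V → A ⊕ B := fun v => if h : side v = true then Sum.inl ⟨v, h⟩ else
    Sum.inr ⟨v, by rwa [Bool.not_eq_true] at h⟩
  have val_inv : ∀ v, val (inv v) = v := by
    intro v
    simp only [inv]
    split_ifs <;> rfl
  have inv_val : ∀ w, inv (val w) = w := by
    rintro (⟨v, hv⟩ | ⟨v, hv⟩)
    · show inv v = _
      simp only [inv, hv, dif_pos]
    · show inv v = _
      have : ¬ side v = true := by rw [hv]; decide
      simp only [inv, dif_neg this]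
  have val_inj : Function.Injective val := Function.LeftInverse.injective inv_val
  let e : A ⊕ B ≃ V := ⟨val, inv, inv_val, val_inv⟩
  let y : A ⊕ B → ℕ := fun w => (Y.filter (fun p => p.1 = val w)).card
  -- the cut condition
  have hcut' : ∀ W : Finset (A ⊕ B), W.Nonempty → W ≠ univ →
      16 * m ^ 2 * KK m ≤
        (univ.filter (fun x : X => ¬ (Sum.inl (a x) ∈ W ↔ Sum.inr (b x) ∈ W))).card := by
    intro W hW hW'
    have h1 := hcut (W.image val) (hW.image _) (by
      intro h
      apply hW'
      ext w
      simp only [mem_univ, iff_true]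
      have : val w ∈ W.image val := by rw [h]; exact mem_univ _
      rw [mem_image] at this
      obtain ⟨w', hw', h'⟩ := this
      rwa [← val_inj h'])
    refine h1.trans ?_
    have hmem : ∀ w, val w ∈ W.image val ↔ w ∈ W := by
      intro w
      rw [mem_image]
      constructor
      · rintro ⟨w', hw', h'⟩
        rwa [← val_inj h']
      · intro h
        exact ⟨w, h, rfl⟩
    let f : X → V × V := fun x => if Sum.inl (a x) ∈ W then ((a x).1, (b x).1) else
      ((b x).1, (a x).1)
    have hsub : {p : V × V | G.Adj p.1 p.2 ∧ p.1 ∈ W.image val ∧ p.2 ∉ W.image val ∧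
        side p.1 ≠ side p.2} ⊆
        (((univ.filter (fun x : X => ¬ (Sum.inl (a x) ∈ W ↔ Sum.inr (b x) ∈ W))).image f :
          Finset (V × V)) : Set (V × V)) := by
      rintro ⟨u, v⟩ ⟨h2, h3, h4, h5⟩
      simp only at h2 h3 h4 h5
      rw [mem_coe, mem_image]
      cases hu : side u
      · have hv : side v = true := by
          rw [hu] at h5
          exact Bool.eq_true_of_not_eq_false (Ne.symm h5)
        have e1 : u = val (Sum.inr ⟨u, hu⟩) := rfl
        have e2 : v = val (Sum.inl ⟨v, hv⟩) := rfl
        rw [e1, hmem] at h3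
        rw [e2, hmem] at h4
        refine ⟨⟨(⟨v, hv⟩, ⟨u, hu⟩), h2.symm⟩, ?_, ?_⟩
        · rw [mem_filter]
          refine ⟨mem_univ _, ?_⟩
          intro h6
          exact h4 (h6.2 h3)
        · simp only [f, a, b]
          rw [if_neg h4]
      · have hv : side v = false := by
          rw [hu] at h5
          exact Bool.eq_false_of_not_eq_true (Ne.symm h5)
        have e1 : u = val (Sum.inl ⟨u, hu⟩) := rfl
        have e2 : v = val (Sum.inr ⟨v, hv⟩) := rfl
        rw [e1, hmem] at h3
        rw [e2, hmem] at h4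
        refine ⟨⟨(⟨u, hu⟩, ⟨v, hv⟩), h2⟩, ?_, ?_⟩
        · rw [mem_filter]
          refine ⟨mem_univ _, ?_⟩
          intro h6
          exact h4 (h6.1 h3)
        · simp only [f, a, b]
          rw [if_pos h3]
    refine (Set.ncard_le_ncard hsub (Finset.finite_toSet _)).trans ?_
    rw [Set.ncard_coe_finset]
    exact card_image_le
  -- the edges
  let D := X ⊕ {p // p ∈ Y}
  let edge : D → Sym2 V := Sum.elim (fun x => s((a x).1, (b x).1)) (fun p => s(p.1.1, p.1.2))
  have edge_mem : ∀ d, edge d ∈ G.edgeSet := by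
    rintro (x | p)
    · exact x.2
    · exact ((hY1 p.1.1 p.1.2).2 (Or.inl p.2)).1
  have edge_inj : Function.Injective edge := by
    have hmix : ∀ (x : X) (p : {p // p ∈ Y}), s((a x).1, (b x).1) ≠ s(p.1.1, p.1.2) := by
      intro x p h
      have h1 := ((hY1 p.1.1 p.1.2).2 (Or.inl p.2)).2
      have h2 : side (a x).1 = true := (a x).2
      have h3 : side (b x).1 = false := (b x).2
      rw [Sym2.eq_iff] at h
      rcases h with ⟨h4, h5⟩ | ⟨h4, h5⟩
      · rw [← h4, ← h5, h2, h3] at h1
        exact absurd h1 (by decide)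
      · rw [← h4, ← h5, h2, h3] at h1
        exact absurd h1 (by decide)
    rintro (x | p) (x' | p') h
    · have h' : s((a x).1, (b x).1) = s((a x').1, (b x').1) := h
      rw [Sym2.eq_iff] at h'
      rcases h' with ⟨h4, h5⟩ | ⟨h4, h5⟩
      · have : x = x' := Subtype.ext (Prod.ext (Subtype.ext h4) (Subtype.ext h5))
        rw [this]
      · have h2 : side (a x).1 = true := (a x).2
        have h3 : side (b x').1 = false := (b x').2
        rw [h4, h3] at h2
        exact absurd h2 (by decide)
    · exact absurd h (hmix x p')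
    · exact absurd h.symm (hmix x' p)
    · have h' : s(p.1.1, p.1.2) = s(p'.1.1, p'.1.2) := h
      rw [Sym2.eq_iff] at h'
      rcases h' with ⟨h4, h5⟩ | ⟨h4, h5⟩
      · have : p = p' := Subtype.ext (Prod.ext h4 h5)
        rw [this]
      · exfalso
        have h6 := hY2 p.1.1 p.1.2 p.2
        apply h6
        rw [h4, h5]
        exact p'.2
  have edge_surj : ∀ u v, G.Adj u v → ∃ d, edge d = s(u, v) := by
    intro u v huv
    by_cases h : side u = side v
    · rcases (hY1 u v).1 ⟨huv, h⟩ with h1 | h1
      · exact ⟨Sum.inr ⟨(u, v), h1⟩, rfl⟩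
      · exact ⟨Sum.inr ⟨(v, u), h1⟩, Sym2.eq_swap⟩
    · cases hu : side u
      · have hv : side v = true := by
          rw [hu] at h
          exact Bool.eq_true_of_not_eq_false (Ne.symm h)
        exact ⟨Sum.inl ⟨(⟨v, hv⟩, ⟨u, hu⟩), huv.symm⟩, Sym2.eq_swap⟩
      · have hv : side v = false := by
          rw [hu] at h
          exact Bool.eq_false_of_not_eq_true (Ne.symm h)
        exact ⟨Sum.inl ⟨(⟨u, hu⟩, ⟨v, hv⟩), huv⟩, rfl⟩
  have hcardD : G.edgeSet.ncard = Fintype.card D := by
    have h1 : G.edgeSet = ((univ.image edge : Finset (Sym2 V)) : Set (Sym2 V)) := by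
      ext e'
      rw [mem_coe, mem_image]
      constructor
      · intro h
        induction e' with
        | h u v =>
          obtain ⟨d, hd⟩ := edge_surj u v h
          exact ⟨d, mem_univ _, hd⟩
      · rintro ⟨d, _, rfl⟩
        exact edge_mem d
    rw [h1, Set.ncard_coe_finset, card_image_of_injective _ edge_inj, card_univ]
  have hysum : ∑ w, y w = Y.card := by
    have h1 : ∑ w, y w = ∑ v : V, (Y.filter (fun p => p.1 = v)).card :=
      Fintype.sum_equiv e _ _ (fun w => rfl)
    rw [h1]
    exact (card_eq_sum_card_fiberwise (fun _ _ => mem_univ _)).symm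
  have hdiv' : m * KK m ∣ Fintype.card X + ∑ w, y w := by
    rw [hysum]
    rw [hcardD, Fintype.card_sum, Fintype.card_coe] at hdiv
    exact hdiv
  obtain ⟨o, c, g, c1, c2, c3⟩ := labelling a b m (KK m) hK
    (fun t : JJ col m => qq par col m t.1) (qq_pos hm hpar hcol) (qq_sum hm hpar hcolm hcol)
    y (fun w => hY3 (val w)) hcut' hdiv'
  let tail : D → V := Sum.elim (fun x => val (tl a b o x)) (fun p => p.1.1)
  let head : D → V := Sum.elim (fun x => val (hd a b o x)) (fun p => p.1.2)
  let cD : D → Option (JJ col m) := Sum.elim c (fun _ => none)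
  have hedge : ∀ d, s(tail d, head d) = edge d := by
    rintro (x | p)
    · show s(val (tl a b o x), val (hd a b o x)) = s((a x).1, (b x).1)
      unfold tl hd
      by_cases h : o x = true
      · rw [if_pos h, if_pos h]; rfl
      · rw [if_neg h, if_neg h]; exact Sym2.eq_swap
    · rfl
  have sumcard : ∀ (P : D → Prop) [DecidablePred P], (univ.filter P).card =
      (univ.filter (fun x : X => P (Sum.inl x))).card +
        (univ.filter (fun p : {p // p ∈ Y} => P (Sum.inr p))).card := by
    intro P _
    rw [card_filter, card_filter, card_filter, Fintype.sum_sum_type]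
  have hinv : ∀ (w : A ⊕ B) (v : V), val w = v ↔ w = inv v := by
    intro w v
    constructor
    · rintro rfl
      exact (inv_val w).symm
    · rintro rfl
      exact val_inv v
  obtain ⟨I, hI, φ, x, lab, d1, d2, d3, d4, d5⟩ := copies hm hpar hcolm hcol tail head cD
    (fun v => g (inv v)) (by
      intro v t
      rw [sumcard]
      have e1 : (univ.filter (fun p : {p // p ∈ Y} => tail (Sum.inr p) = v ∧
          cD (Sum.inr p) = some t)) = ∅ := by
        rw [filter_eq_empty_iff]
        rintro p _ ⟨_, h⟩
        exact absurd h (by simp [cD])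
      rw [e1, card_empty, add_zero, ← c1 (inv v) t]
      congr 1
      ext x
      simp only [mem_filter, mem_univ, true_and]
      exact and_congr_left fun _ => hinv _ v) (by
      intro v
      rw [sumcard, ← c2 (inv v)]
      congr 1
      · congr 1
        ext x
        simp only [mem_filter, mem_univ, true_and]
        exact and_congr_left fun _ => hinv _ v
      · show _ = (Y.filter (fun p => p.1 = val (inv v))).card
        rw [val_inv]
        rw [← card_map (Function.Embedding.subtype _)]
        congr 1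
        ext p
        simp only [mem_map, mem_filter, mem_univ, true_and, Function.Embedding.coe_subtype]
        constructor
        · rintro ⟨p', ⟨h, _⟩, rfl⟩
          exact ⟨p'.2, h⟩
        · rintro ⟨h, h'⟩
          exact ⟨⟨p, h⟩, ⟨h', rfl⟩, rfl⟩) (by
      intro v t
      rw [sumcard]
      have e1 : (univ.filter (fun p : {p // p ∈ Y} => head (Sum.inr p) = v ∧
          cD (Sum.inr p) = some t)) = ∅ := by
        rw [filter_eq_empty_iff]
        rintro p _ ⟨_, h⟩
        exact absurd h (by simp [cD])
      rw [e1, card_empty, add_zero]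
      have e2 : (univ.filter (fun x : X => head (Sum.inl x) = v ∧ cD (Sum.inl x) = some t)) =
          (univ.filter (fun x => hd a b o x = inv v ∧ c x = some t)) := by
        ext x
        simp only [mem_filter, mem_univ, true_and]
        exact and_congr_left fun _ => hinv _ v
      rw [e2]
      exact c3 (inv v) t) (by
      intro d d' h h'
      apply edge_inj
      rw [← hedge, ← hedge, h, h']) (by
      intro d h
      have h1 := edge_mem d
      rw [← hedge, h] at h1
      exact G.irrefl h1)
  refine ⟨I, hI, fun i r => φ r i, d5, ?_, ?_⟩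
  · intro i j h1 h2
    have h3 := (d2 j h1 h2 i).2
    have h4 := edge_mem (x j i)
    rw [← hedge, h3] at h4
    exact h4
  · intro u v huv
    obtain ⟨d, hd'⟩ := edge_surj u v huv
    obtain ⟨i, hi⟩ := d4 (lab d) (d1 d).1 (d1 d).2 d rfl
    refine ⟨(i, lab d), ⟨d1 d, ?_⟩, ?_⟩
    · have h3 := (d2 (lab d) (d1 d).1 (d1 d).2 i).2
      rw [← h3, hedge, hi, hd']
    · rintro ⟨i', r'⟩ ⟨h1, h2⟩
      simp only at h1 h2
      have h3 := d2 r' h1.1 h1.2 i'
      rw [← h3.2, hedge, ← hd'] at h2
      have h4 := edge_inj h2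
      have h5 : r' = lab d := by rw [← h4, h3.1]
      subst h5
      rw [d3 (lab d) (d1 d).1 (d1 d).2 (h4.trans hi.symm)]

end

end Pool.Agent.H9.TD
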