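import Pool.Agent.H9.TD.Pairing
import Pool.Graph.R_seed8.H239R2.Cover.EdgeConn

set_option autoImplicit false

/-!
Colouring the edges with tails in `A`: exact numbers at the tails, divisibility at the heads.
-/

namespace Pool.Agent.H9.TD

open Finset

namespace Td8

/-- A finite set can be coloured with prescribed class sizes. -/
theorem exists_colouring {X J : Type} [DecidableEq X] [Fintype J] [DecidableEq J]
    (S : Finset X) (n : J → ℕ) (h : ∑ t, n t ≤ S.card) :
    ∃ f : X → Option J, ∀ t, (S.filter (fun x => f x = some t)).card = n t := by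
  classical
  obtain ⟨S', hS', hcard⟩ := Finset.exists_subset_card_eq h
  have e : {x // x ∈ S'} ≃ (Σ t : J, Fin (n t)) := by
    apply Fintype.equivOfCardEq
    rw [Fintype.card_coe, hcard, Fintype.card_sigma]
    simp
  refine ⟨fun x => if hx : x ∈ S' then some (e ⟨x, hx⟩).1 else none, fun t => ?_⟩
  let em : Fin (n t) ↪ X := ⟨fun k => (e.symm ⟨t, k⟩ : X), by
        intro k k' hk
        have h2 := e.symm.injective (Subtype.ext hk)
        simpa using h2⟩
  have hem : ∀ k, em k = (e.symm ⟨t, k⟩ : X) := fun _ => rfl
  have h1 : (S.filter (fun x => (if hx : x ∈ S' then some (e ⟨x, hx⟩).1 else none) = some t)) =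
      (univ : Finset (Fin (n t))).map em := by
    ext x
    rw [mem_filter, Finset.mem_map]
    constructor
    · rintro ⟨hxS, hx⟩
      by_cases hx' : x ∈ S'
      · rw [dif_pos hx'] at hx
        have h3 : (e ⟨x, hx'⟩).1 = t := by simpa using hx
        subst h3
        refine ⟨(e ⟨x, hx'⟩).2, mem_univ _, ?_⟩
        rw [hem]
        have h4 : (⟨(e ⟨x, hx'⟩).1, (e ⟨x, hx'⟩).2⟩ : Σ t : J, Fin (n t)) = e ⟨x, hx'⟩ := rfl
        rw [h4, Equiv.symm_apply_apply]
      · rw [dif_neg hx'] at hx
        exact absurd hx (by simp)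
    · rintro ⟨k, -, rfl⟩
      have h5 : em k ∈ S' := (e.symm ⟨t, k⟩).2
      refine ⟨hS' h5, ?_⟩
      rw [dif_pos h5]
      have h6 : (⟨em k, h5⟩ : {x // x ∈ S'}) = e.symm ⟨t, k⟩ := rfl
      rw [h6, Equiv.apply_symm_apply]
  rw [h1, Finset.card_map, Finset.card_univ, Fintype.card_fin]

end Td8

/-- The edges `X` with tails `a x` and heads `b x` are coloured with the colours `some t`,
`t : J`, and `none`. `Z t i`, `i < K * q t`, are disjoint systems of pairs of edges with common
tail, each of which connects `B`. Then there is a colouring with exactly `K * q t * g u` edges of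
colour `some t` at every tail `u`, and a number of edges of colour `some t` divisible by `K * q t`
at every head. -/
theorem one_side {A B X J : Type} [Fintype A] [DecidableEq A] [Fintype B] [DecidableEq B]
    [Fintype X] [DecidableEq X] [Fintype J] [DecidableEq J] (a : X → A) (b : X → B)
    (m K : ℕ) (hK : 0 < K) (q : J → ℕ) (hq : ∀ t, 0 < q t) (hsum : ∑ t, q t + 1 = m)
    (g y : A → ℕ) (hdeg : ∀ u, (univ.filter (fun x => a x = u)).card + y u = m * K * g u)
    (Z : (Σ t : J, Fin (K * q t)) → Finset (X × X))
    (hZ1 : ∀ i, ∀ z ∈ Z i, a z.1 = a z.2 ∧ z.1 ≠ z.2)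
    (hZ2 : ∀ i i', ∀ z ∈ Z i, ∀ z' ∈ Z i', (i, z) ≠ (i', z') →
        z.1 ≠ z'.1 ∧ z.1 ≠ z'.2 ∧ z.2 ≠ z'.1 ∧ z.2 ≠ z'.2)
    (hZ3 : ∀ i, Conn (fun z : X × X => b z.1) (fun z => b z.2) (Z i))
    (hlight : ∀ u, ∑ i, ((Z i).filter (fun z => a z.1 = u)).card + y u ≤ K * g u) :
    ∃ c : X → Option J,
      (∀ u t, (univ.filter (fun x => a x = u ∧ c x = some t)).card = K * q t * g u) ∧
      (∀ u, (univ.filter (fun x => a x = u ∧ c x = none)).card + y u = K * g u) ∧
      ∀ v t, K * q t ∣ (univ.filter (fun x => b x = v ∧ c x = some t)).card := by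
  classical
  -- the numbers of pairs
  set P : J → A → ℕ := fun t u => ∑ i : Fin (K * q t), ((Z ⟨t, i⟩).filter (fun z => a z.1 = u)).card
    with hP
  have hPsum : ∀ u, ∑ i, ((Z i).filter (fun z => a z.1 = u)).card = ∑ t, P t u := by
    intro u
    rw [Fintype.sum_sigma]
  have hlight' : ∀ u, ∑ t, P t u + y u ≤ K * g u := fun u => by rw [← hPsum]; exact hlight u
  have hPle : ∀ t u, P t u ≤ K * q t * g u := by
    intro t u
    have h1 : P t u ≤ ∑ t, P t u := Finset.single_le_sum (f := fun t => P t u)
      (fun _ _ => Nat.zero_le _) (mem_univ t)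
    have h2 := hlight' u
    have h3 : K * g u ≤ K * q t * g u := by
      have := hq t
      calc K * g u = K * 1 * g u := by ring
        _ ≤ K * q t * g u := by gcongr; omega
    omega
  -- paired edges
  set Pr : Finset X := univ.biUnion (fun i => (Z i).biUnion (fun z => {z.1, z.2})) with hPr
  have hmemPr : ∀ x, x ∈ Pr ↔ ∃ i, ∃ z ∈ Z i, x = z.1 ∨ x = z.2 := by
    intro x
    simp [hPr]
  have hPrcard : ∀ u, (Pr.filter (fun x => a x = u)).card ≤ 2 * ∑ t, P t u := by
    intro u
    have h1 : Pr.filter (fun x => a x = u) ⊆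
        univ.biUnion (fun i => ((Z i).filter (fun z => a z.1 = u)).biUnion (fun z => {z.1, z.2})) := by
      intro x hx
      rw [mem_filter, hmemPr] at hx
      obtain ⟨⟨i, z, hz, hxz⟩, hxu⟩ := hx
      simp only [mem_biUnion, mem_univ, true_and, mem_filter, mem_insert, mem_singleton]
      refine ⟨i, z, ⟨hz, ?_⟩, hxz⟩
      rcases hxz with rfl | rfl
      · exact hxu
      · rw [(hZ1 i z hz).1]; exact hxu
    refine (card_le_card h1).trans ?_
    refine card_biUnion_le.trans ?_
    rw [← hPsum, Finset.mul_sum]
    apply Finset.sum_le_sum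
    intro i _
    refine card_biUnion_le.trans ?_
    calc ∑ z ∈ (Z i).filter (fun z => a z.1 = u), ({z.1, z.2} : Finset X).card
        ≤ ∑ _z ∈ (Z i).filter (fun z => a z.1 = u), 2 := Finset.sum_le_sum fun z _ => card_le_two
      _ = 2 * ((Z i).filter (fun z => a z.1 = u)).card := by rw [sum_const, smul_eq_mul, mul_comm]
  -- free edges
  set Fr : A → Finset X := fun u => univ.filter (fun x => a x = u ∧ x ∉ Pr) with hFr
  have hFrcard : ∀ u, ∑ t, (K * q t * g u - P t u) ≤ (Fr u).card := by
    intro u
    have h1 : (Fr u).card + (Pr.filter (fun x => a x = u)).card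
        = (univ.filter (fun x => a x = u)).card := by
      rw [← Finset.card_union_of_disjoint]
      · congr 1
        ext x
        simp only [hFr, mem_union, mem_filter, mem_univ, true_and]
        tauto
      · rw [Finset.disjoint_left]
        intro x hx hx'
        simp only [hFr, mem_filter, mem_univ, true_and] at hx
        exact hx.2 (mem_filter.1 hx').1
    have h2 := hdeg u
    have h3 := hPrcard u
    have h4 := hlight' u
    have h5 : ∑ t, (K * q t * g u - P t u) + ∑ t, P t u = ∑ t, K * q t * g u := by
      rw [← Finset.sum_add_distrib]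
      exact Finset.sum_congr rfl fun t _ => Nat.sub_add_cancel (hPle t u)
    have h6 : ∑ t, K * q t * g u = K * (∑ t, q t) * g u := by
      rw [Finset.mul_sum, Finset.sum_mul]
    have h7 : m * K * g u = K * (∑ t, q t) * g u + K * g u := by
      rw [← hsum]; ring
    omega
  choose f hf using fun u => Td8.exists_colouring (Fr u) (fun t => K * q t * g u - P t u) (hFrcard u)
  set c0 : X → Option J := fun x => f (a x) x with hc0
  -- free edges of colour `some t`
  set Fc : J → Finset X := fun t => univ.filter (fun x => x ∉ Pr ∧ c0 x = some t) with hFc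
  have hFc1 : ∀ t u, ((Fc t).filter (fun x => a x = u)).card = K * q t * g u - P t u := by
    intro t u
    rw [← hf u t]
    congr 1
    ext x
    simp only [hFc, hFr, hc0, mem_filter, mem_univ, true_and]
    constructor
    · rintro ⟨⟨h1, h2⟩, rfl⟩
      exact ⟨⟨rfl, h1⟩, h2⟩
    · rintro ⟨⟨rfl, h1⟩, h2⟩
      exact ⟨⟨h1, h2⟩, rfl⟩
  -- the multigraph of the pairs of type `t`
  let E : J → Type := fun t => Σ i : Fin (K * q t), {z // z ∈ Z ⟨t, i⟩}
  have hE : ∀ t, ∃ o : E t → Bool, ∀ v,
      (H239R2.Cover.outdeg (fun e : E t => b e.2.1.1) (fun e : E t => b e.2.1.2) o v : ZMod (K * q t))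
        = - (((Fc t).filter (fun x => b x = v)).card : ZMod (K * q t)) := by
    intro t
    apply H239R2.Cover.orientation_of_packing (V := B) (E := E t) (fun e => b e.2.1.1)
      (fun e => b e.2.1.2) (K * q t) (Nat.mul_pos hK (hq t))
      (fun i => univ.filter (fun e : E t => e.1 = i))
    · intro i j hij
      rw [Finset.disjoint_left]
      intro e he he'
      rw [mem_filter] at he he'
      exact hij (he.2.symm.trans he'.2)
    · intro i X' hX1 hX2
      obtain ⟨z, hz, hzX⟩ := hZ3 ⟨t, i⟩ (X' : Set B) (by simpa using hX1) (by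
        intro h
        apply hX2
        rw [← Finset.coe_univ] at h
        exact_mod_cast h)
      refine ⟨⟨i, ⟨z, hz⟩⟩, by simp, ?_⟩
      simp only [H239R2.Cover.Leaves]
      simp only [Finset.mem_coe] at hzX
      exact hzX
    · have h1 : ∑ v, ((Fc t).filter (fun x => b x = v)).card = (Fc t).card :=
        (Finset.card_eq_sum_card_fiberwise (f := b) (s := Fc t) (t := univ)
          (fun _ _ => Finset.mem_coe.mpr (Finset.mem_univ _))).symm
      have h2 : ∑ u, ((Fc t).filter (fun x => a x = u)).card = (Fc t).card :=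
        (Finset.card_eq_sum_card_fiberwise (f := a) (s := Fc t) (t := univ)
          (fun _ _ => Finset.mem_coe.mpr (Finset.mem_univ _))).symm
      have h3 : Fintype.card (E t) = ∑ u, P t u := by
        rw [Fintype.card_sigma, hP, Finset.sum_comm]
        apply Finset.sum_congr rfl
        intro i _
        rw [Fintype.card_coe]
        exact Finset.card_eq_sum_card_fiberwise (f := fun z : X × X => a z.1) (s := Z ⟨t, i⟩)
          (t := univ) (fun _ _ => Finset.mem_coe.mpr (Finset.mem_univ _))
      have h4 : (Fc t).card + Fintype.card (E t) = K * q t * ∑ u, g u := by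
        rw [← h2, h3, ← Finset.sum_add_distrib, Finset.mul_sum]
        apply Finset.sum_congr rfl
        intro u _
        rw [hFc1]
        exact Nat.sub_add_cancel (hPle t u)
      rw [Finset.sum_neg_distrib, ← Nat.cast_sum, h1]
      have h5 := congrArg (Nat.cast : ℕ → ZMod (K * q t)) h4
      rw [Nat.cast_add, Nat.cast_mul, ZMod.natCast_self, zero_mul] at h5
      rw [neg_eq_iff_add_eq_zero]
      exact h5
  choose o ho using hE
  -- the edge of colour `some t` in a pair of type `t`
  set sel : ∀ t, E t → X := fun t e => if o t e then e.2.1.1 else e.2.1.2 with hsel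
  have hsela : ∀ t e, a (sel t e) = a e.2.1.1 := by
    intro t e
    simp only [hsel]
    split_ifs
    · rfl
    · exact ((hZ1 _ _ e.2.2).1).symm
  have hselmem : ∀ t e, sel t e = e.2.1.1 ∨ sel t e = e.2.1.2 := by
    intro t e
    simp only [hsel]
    split_ifs
    · exact Or.inl rfl
    · exact Or.inr rfl
  have huniq : ∀ t (e : E t) t' (e' : E t'), sel t e = sel t' e' →
      (⟨t, e⟩ : Σ t, E t) = ⟨t', e'⟩ := by
    intro t e t' e' h
    by_contra hne
    have h1 : ((⟨t, e.1⟩ : Σ t : J, Fin (K * q t)), e.2.1) ≠
        ((⟨t', e'.1⟩ : Σ t : J, Fin (K * q t)), e'.2.1) := by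
      intro h2
      apply hne
      obtain ⟨i, z, hz⟩ := e
      obtain ⟨i', z', hz'⟩ := e'
      simp only [Prod.mk.injEq, Sigma.mk.injEq] at h2
      obtain ⟨⟨rfl, h3⟩, rfl⟩ := h2
      rw [heq_eq_eq] at h3
      subst h3
      rfl
    obtain ⟨h2, h3, h4, h5⟩ := hZ2 _ _ e.2.1 e.2.2 e'.2.1 e'.2.2 h1
    rcases hselmem t e with h6 | h6 <;> rcases hselmem t' e' with h7 | h7 <;>
      rw [h6, h7] at h
    · exact h2 h
    · exact h3 h
    · exact h4 h
    · exact h5 h
  have hinj : ∀ t, Function.Injective (sel t) := by
    intro t e e' h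
    have h1 := huniq t e t e' h
    simpa using h1
  have hselPr : ∀ t e, sel t e ∈ Pr := by
    intro t e
    rw [hmemPr]
    exact ⟨⟨t, e.1⟩, e.2.1, e.2.2, hselmem t e⟩
  set c : X → Option J := fun x =>
    if h : ∃ t, ∃ e : E t, sel t e = x then some h.choose
    else if x ∈ Pr then none else c0 x with hc
  have hcsome : ∀ x t, c x = some t ↔ (∃ e : E t, sel t e = x) ∨ x ∈ Fc t := by
    intro x t
    constructor
    · intro h
      simp only [hc] at h
      by_cases hx : ∃ t, ∃ e : E t, sel t e = x
      · rw [dif_pos hx] at h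
        left
        have h1 := hx.choose_spec
        have h2 : hx.choose = t := by simpa using h
        rw [h2] at h1
        exact h1
      · rw [dif_neg hx] at h
        by_cases hx' : x ∈ Pr
        · rw [if_pos hx'] at h
          exact absurd h (by simp)
        · rw [if_neg hx'] at h
          right
          simp only [hFc, mem_filter, mem_univ, true_and]
          exact ⟨hx', h⟩
    · rintro (⟨e, rfl⟩ | hx)
      · have hx : ∃ t', ∃ e' : E t', sel t' e' = sel t e := ⟨t, e, rfl⟩
        simp only [hc]
        rw [dif_pos hx]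
        obtain ⟨e', he'⟩ := hx.choose_spec
        have h2 := huniq _ _ _ _ he'
        have h3 : hx.choose = t := congrArg Sigma.fst h2
        rw [h3]
      · simp only [hFc, mem_filter, mem_univ, true_and] at hx
        have hx' : ¬ ∃ t, ∃ e : E t, sel t e = x := by
          rintro ⟨t', e', rfl⟩
          exact hx.1 (hselPr t' e')
        simp only [hc]
        rw [dif_neg hx', if_neg hx.1]
        exact hx.2
  have hsplit : ∀ (p : X → Prop) [DecidablePred p] (t : J),
      (univ.filter (fun x => p x ∧ c x = some t)).card =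
        (univ.filter (fun e : E t => p (sel t e))).card + ((Fc t).filter p).card := by
    intro p _ t
    have h1 : univ.filter (fun x => p x ∧ c x = some t) =
        ((univ.filter (fun e : E t => p (sel t e))).map ⟨sel t, hinj t⟩) ∪ ((Fc t).filter p) := by
      ext x
      simp only [mem_filter, mem_univ, true_and, mem_union, Finset.mem_map,
        Function.Embedding.coeFn_mk, hcsome]
      constructor
      · rintro ⟨h2, ⟨e, rfl⟩ | h3⟩
        · exact Or.inl ⟨e, h2, rfl⟩
        · exact Or.inr ⟨h3, h2⟩
      · rintro (⟨e, h2, rfl⟩ | ⟨h3, h2⟩)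
        · exact ⟨h2, Or.inl ⟨e, rfl⟩⟩
        · exact ⟨h2, Or.inr h3⟩
    rw [h1, Finset.card_union_of_disjoint, Finset.card_map]
    rw [Finset.disjoint_left]
    intro x hx hx'
    simp only [Finset.mem_map, mem_filter, mem_univ, true_and, Function.Embedding.coeFn_mk] at hx
    obtain ⟨e, -, rfl⟩ := hx
    simp only [hFc, mem_filter, mem_univ, true_and] at hx'
    exact hx'.1.1 (hselPr t e)
  have hcount1 : ∀ u t, (univ.filter (fun x => a x = u ∧ c x = some t)).card = K * q t * g u := by
    intro u t
    rw [hsplit (fun x => a x = u) t, hFc1]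
    have h1 : (univ.filter (fun e : E t => a (sel t e) = u)).card = P t u := by
      simp only [hsela, hP]
      have h2 : (univ.filter (fun e : E t => a e.2.1.1 = u)) =
          univ.sigma (fun i : Fin (K * q t) =>
            (univ : Finset {z // z ∈ Z ⟨t, i⟩}).filter (fun z => a z.1.1 = u)) := by
        ext e
        rw [mem_filter, Finset.mem_sigma, mem_filter]
        simp
      rw [h2, Finset.card_sigma]
      apply Finset.sum_congr rfl
      intro i _
      rw [← Finset.card_map (Function.Embedding.subtype _)]
      congr 1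
      ext z
      simp only [Finset.mem_map, mem_filter, mem_univ, true_and, Function.Embedding.coe_subtype,
        Subtype.exists, exists_and_left, exists_prop, exists_eq_right_right]
      tauto
    rw [h1]
    exact Nat.add_sub_cancel' (hPle t u)
  refine ⟨c, hcount1, ?_, ?_⟩
  · intro u
    have h1 : (univ.filter (fun x => a x = u)).card =
        ∑ k : Option J, ((univ.filter (fun x => a x = u)).filter (fun x => c x = k)).card :=
      Finset.card_eq_sum_card_fiberwise (f := c) (s := univ.filter (fun x => a x = u))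
        (t := univ) (fun _ _ => Finset.mem_coe.mpr (Finset.mem_univ _))
    rw [Fintype.sum_option] at h1
    simp only [Finset.filter_filter] at h1
    have h2 : ∑ t, (univ.filter (fun x => a x = u ∧ c x = some t)).card
        = K * (∑ t, q t) * g u := by
      rw [Finset.mul_sum, Finset.sum_mul]
      exact Finset.sum_congr rfl fun t _ => hcount1 u t
    have h3 := hdeg u
    have h7 : m * K * g u = K * (∑ t, q t) * g u + K * g u := by
      rw [← hsum]; ring
    omega
  · intro v t
    rw [hsplit (fun x => b x = v) t]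
    have h1 : (univ.filter (fun e : E t => b (sel t e) = v)).card =
        H239R2.Cover.outdeg (fun e : E t => b e.2.1.1) (fun e : E t => b e.2.1.2) (o t) v := by
      unfold H239R2.Cover.outdeg H239R2.Cover.tail
      congr 1
      ext e
      simp only [mem_filter, mem_univ, true_and, hsel]
      split_ifs <;> rfl
    rw [← ZMod.natCast_eq_zero_iff, Nat.cast_add, h1, ho t v]
    simp

end Pool.Agent.H9.TD
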