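import Pool.Agent.H9.TD.PairSystems
import Pool.Agent.H9.TD.OneSide
import Pool.Graph.R_seed8.H239R2.Cover.EdgeConn

set_option autoImplicit false

/-!
Orientation and colouring of a highly edge-connected bipartite multigraph.
-/

namespace Pool.Agent.H9.TD

open Finset


/-- The tail of the edge `x`. -/
def tl {A B X : Type} (a : X → A) (b : X → B) (o : X → Bool) (x : X) : A ⊕ B :=
  if o x then Sum.inl (a x) else Sum.inr (b x)

/-- The head of the edge `x`. -/
def hd {A B X : Type} (a : X → A) (b : X → B) (o : X → Bool) (x : X) : A ⊕ B :=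
  if o x then Sum.inr (b x) else Sum.inl (a x)

namespace T9

open H239R2.Cover

lemma connects_of_span {V E : Type} [Fintype V] [DecidableEq V] [Fintype E] [DecidableEq E]
    (src dst : E → V) (r : V) (S : Finset E)
    (hS : Submodule.span ℝ ((fun e => rv (inc src dst r e)) '' (S : Set E)) = ⊤) :
    Connects src dst S := by
  classical
  intro X hX hXu
  by_contra hcon
  push Not at hcon
  -- a nonempty set without the root that no edge leaves
  obtain ⟨Y, hYne, hrY, hY⟩ : ∃ Y : Finset V, Y.Nonempty ∧ r ∉ Y ∧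
      ∀ e ∈ S, (src e ∈ Y ↔ dst e ∈ Y) := by
    by_cases hr : r ∈ X
    · refine ⟨univ \ X, ?_, by simp [hr], ?_⟩
      · rw [sdiff_nonempty]
        intro h
        exact hXu (eq_univ_of_forall fun v => h (mem_univ v))
      · intro e he
        have := hcon e he
        simp only [Leaves, not_not] at this
        simp [this]
    · refine ⟨X, hX, hr, ?_⟩
      intro e he
      have := hcon e he
      simpa only [Leaves, not_not] using this
  let φ : (Rt r → ℝ) →ₗ[ℝ] ℝ :=
    { toFun := fun x => ∑ v : Rt r, if v.1 ∈ Y then x v else 0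
      map_add' := by
        intro x y
        rw [← sum_add_distrib]
        refine sum_congr rfl fun v _ => ?_
        split_ifs <;> simp
      map_smul' := by
        intro c x
        simp only [RingHom.id_apply, smul_eq_mul, mul_sum]
        refine sum_congr rfl fun v _ => ?_
        split_ifs <;> simp }
  have hφ : ∀ v : V, ∑ u : Rt r, (if u.1 ∈ Y then (if v = u.1 then (1 : ℝ) else 0) else 0) =
      if v ∈ Y then 1 else 0 := by
    intro v
    by_cases hv : v ∈ Y
    · have hvr : v ≠ r := fun h => hrY (h ▸ hv)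
      rw [if_pos hv, sum_eq_single (⟨v, hvr⟩ : Rt r)]
      · simp [hv]
      · intro b _ hb
        by_cases hbY : b.1 ∈ Y
        · rw [if_pos hbY, if_neg]
          intro h
          exact hb (Subtype.ext h.symm)
        · rw [if_neg hbY]
      · intro h; exact absurd (mem_univ _) h
    · rw [if_neg hv]
      refine sum_eq_zero fun u _ => ?_
      by_cases hu : u.1 ∈ Y
      · rw [if_pos hu, if_neg]
        intro h
        exact hv (h ▸ hu)
      · rw [if_neg hu]
  have hk : Submodule.span ℝ ((fun e => rv (inc src dst r e)) '' (S : Set E)) ≤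
      LinearMap.ker φ := by
    rw [Submodule.span_le]
    rintro _ ⟨e, he, rfl⟩
    have he' : e ∈ S := he
    rw [SetLike.mem_coe, LinearMap.mem_ker]
    show ∑ v : Rt r, (if v.1 ∈ Y then rv (inc src dst r e) v else 0) = 0
    have h1 : ∀ v : Rt r, (if v.1 ∈ Y then rv (inc src dst r e) v else 0) =
        (if v.1 ∈ Y then (if src e = v.1 then (1 : ℝ) else 0) else 0) -
        (if v.1 ∈ Y then (if dst e = v.1 then (1 : ℝ) else 0) else 0) := by
      intro v
      by_cases h : v.1 ∈ Y
      · rw [if_pos h, if_pos h, if_pos h, incR_restrict]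
        rfl
      · rw [if_neg h, if_neg h, if_neg h, sub_zero]
    rw [sum_congr rfl (fun v _ => h1 v), sum_sub_distrib, hφ, hφ]
    have := hY e he'
    by_cases h : src e ∈ Y
    · rw [if_pos h, if_pos (this.1 h), sub_self]
    · rw [if_neg h, if_neg (fun h' => h (this.2 h')), sub_self]
  rw [hS] at hk
  obtain ⟨v, hv⟩ := hYne
  have hvr : v ≠ r := fun h => hrY (h ▸ hv)
  have h2 : φ (fun u => if v = u.1 then 1 else 0) = 0 := hk (Submodule.mem_top)
  have h3 : φ (fun u => if v = u.1 then 1 else 0) =
    ∑ u : Rt r, (if u.1 ∈ Y then (if v = u.1 then (1 : ℝ) else 0) else 0) := rfl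
  rw [h3, hφ, if_pos hv] at h2
  exact one_ne_zero h2

lemma conn_of_connects {V E : Type} [Fintype V] [DecidableEq V] [Fintype E] [DecidableEq E]
    (src dst : E → V) (S : Finset E) (h : Connects src dst S) : Conn src dst S := by
  classical
  intro X hX hXu
  obtain ⟨e, he, hl⟩ := h X.toFinset (by
    obtain ⟨v, hv⟩ := hX
    exact ⟨v, Set.mem_toFinset.2 hv⟩) (fun h => hXu (by
      ext v
      have : v ∈ X.toFinset := h ▸ mem_univ v
      exact ⟨fun _ => trivial, fun _ => Set.mem_toFinset.1 this⟩))
  refine ⟨e, he, ?_⟩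
  simpa only [Leaves, Set.mem_toFinset] using hl

/-- transfer of cardinalities to a subtype -/
lemma card_sub {X : Type} [Fintype X] (Q : X → Prop) [DecidablePred Q]
    (P : X → Prop) [DecidablePred P] (R : {x // Q x} → Prop) [DecidablePred R]
    (h : ∀ x, P x ↔ ∃ hx : Q x, R ⟨x, hx⟩) :
    (univ.filter P).card = (univ.filter R).card := by
  rw [← card_map (Function.Embedding.subtype Q)]
  congr 1
  ext x
  simp only [mem_filter, mem_univ, true_and, mem_map, Function.Embedding.subtype_apply,
    Subtype.exists, exists_and_right, exists_eq_right]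
  exact h x

/-- one side of the bipartition -/
theorem side {A B X J : Type} [Fintype A] [DecidableEq A] [Fintype B] [DecidableEq B]
    [Fintype X] [DecidableEq X] [Fintype J] [DecidableEq J] (a : X → A) (b : X → B)
    (m K : ℕ) (hK : 0 < K) (q : J → ℕ) (hq : ∀ t, 0 < q t) (hsum : ∑ t, q t + 1 = m)
    (F : (Σ t : J, Fin (K * q t)) × Fin (2 * m) × Bool → Finset X)
    (hd : ∀ p p', p ≠ p' → Disjoint (F p) (F p'))
    (hF : ∀ p, Conn (fun x => (Sum.inl (a x) : A ⊕ B)) (fun x => Sum.inr (b x)) (F p))
    (hFa : ∀ p u, ∃ x ∈ F p, a x = u)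
    (Q : X → Prop) [DecidablePred Q] (hQ : ∀ p, ∀ x ∈ F p, Q x)
    (g y : A → ℕ) (hy : ∀ u, y u + 1 ≤ m)
    (hdeg : ∀ u, (univ.filter (fun x : {x // Q x} => a x.1 = u)).card + y u = m * K * g u) :
    ∃ c : {x // Q x} → Option J,
      (∀ u t, (univ.filter (fun x : {x // Q x} => a x.1 = u ∧ c x = some t)).card =
        K * q t * g u) ∧
      (∀ u, (univ.filter (fun x : {x // Q x} => a x.1 = u ∧ c x = none)).card + y u =
        K * g u) ∧
      ∀ v t, K * q t ∣ (univ.filter (fun x : {x // Q x} => b x.1 = v ∧ c x = some t)).card := by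
  classical
  have hm : 0 < m := by omega
  obtain ⟨Z, hZ1, hZ2, hZ3, hZ4⟩ := pair_systems a b (2 * m) (by omega) F hd hF
  have hZQ : ∀ i, ∀ z ∈ Z i, Q z.1 ∧ Q z.2 := by
    intro i z hz
    obtain ⟨_, _, ⟨p, hp⟩, ⟨p', hp'⟩⟩ := hZ1 i z hz
    exact ⟨hQ _ _ hp, hQ _ _ hp'⟩
  let Z' : (Σ t : J, Fin (K * q t)) → Finset ({x // Q x} × {x // Q x}) := fun i =>
    univ.filter (fun z => (z.1.1, z.2.1) ∈ Z i)
  have hZ' : ∀ i z, z ∈ Z' i ↔ (z.1.1, z.2.1) ∈ Z i := by
    intro i z; simp [Z']
  refine one_side (fun x : {x // Q x} => a x.1) (fun x => b x.1) m K hK q hq hsum g y hdeg Z'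
    ?_ ?_ ?_ ?_
  · intro i z hz
    rw [hZ'] at hz
    obtain ⟨h1, h2, _, _⟩ := hZ1 i _ hz
    exact ⟨h1, fun h => h2 (congrArg Subtype.val h)⟩
  · intro i i' z hz z' hz' hne
    rw [hZ'] at hz hz'
    obtain ⟨h1, h2, h3, h4⟩ := hZ2 i i' _ hz _ hz' (by
      intro h
      apply hne
      rw [Prod.mk.injEq, Prod.mk.injEq] at h
      obtain ⟨h1, h2, h3⟩ := h
      rw [Prod.mk.injEq]
      exact ⟨h1, Prod.ext (Subtype.ext h2) (Subtype.ext h3)⟩)
    exact ⟨fun h => h1 (congrArg Subtype.val h), fun h => h2 (congrArg Subtype.val h),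
      fun h => h3 (congrArg Subtype.val h), fun h => h4 (congrArg Subtype.val h)⟩
  · intro i S hS hSu
    obtain ⟨z, hz, hc⟩ := hZ3 i S hS hSu
    obtain ⟨q1, q2⟩ := hZQ i z hz
    refine ⟨(⟨z.1, q1⟩, ⟨z.2, q2⟩), ?_, hc⟩
    rw [hZ']
    exact hz
  · intro u
    have hs : ∑ t, q t = m - 1 := by omega
    have hcard : Fintype.card (Σ t : J, Fin (K * q t)) = K * (m - 1) := by
      rw [Fintype.card_sigma]
      simp only [Fintype.card_fin]
      rw [← mul_sum, hs]
    -- the pairs at u
    have h1 : ∑ i, ((Z' i).filter (fun z => a z.1.1 = u)).card ≤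
        ∑ i, ((Z i).filter (fun z => a z.1 = u)).card := by
      refine sum_le_sum fun i _ => ?_
      refine card_le_card_of_injOn (fun z => (z.1.1, z.2.1)) ?_ ?_
      · intro z hz
        rw [mem_coe, mem_filter, hZ'] at hz
        rw [mem_coe, mem_filter]
        exact hz
      · intro z _ z' _ h
        rw [Prod.mk.injEq] at h
        exact Prod.ext (Subtype.ext h.1) (Subtype.ext h.2)
    have h2 := hZ4 u
    rw [hcard] at h2
    -- many edges of the systems at `u`
    have h3 : K * (m - 1) * (2 * m * 2) ≤
        ((univ.biUnion F).filter (fun x => a x = u)).card := by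
      have e1 : Fintype.card ((Σ t : J, Fin (K * q t)) × Fin (2 * m) × Bool) =
          K * (m - 1) * (2 * m * 2) := by
        rw [Fintype.card_prod, Fintype.card_prod, hcard, Fintype.card_fin, Fintype.card_bool]
      rw [← e1, ← card_univ]
      choose e he1 he2 using hFa
      refine card_le_card_of_injOn (fun p => e p u) ?_ ?_
      · intro p _
        rw [mem_coe, mem_filter, mem_biUnion]
        exact ⟨⟨p, mem_univ _, he1 p u⟩, he2 p u⟩
      · intro p _ p' _ h
        by_contra hne
        have h' : e p u = e p' u := h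
        exact (disjoint_left.1 (hd p p' hne)) (he1 p u) (h' ▸ he1 p' u)
    have h4 : ((univ.biUnion F).filter (fun x => a x = u)).card ≤
        (univ.filter (fun x : {x // Q x} => a x.1 = u)).card := by
      rw [← card_map (Function.Embedding.subtype Q)]
      apply card_le_card
      intro x hx
      rw [mem_filter, mem_biUnion] at hx
      obtain ⟨⟨p, _, hp⟩, hx⟩ := hx
      rw [mem_map]
      exact ⟨⟨x, hQ p x hp⟩, by simp [hx], rfl⟩
    have h5 := hdeg u
    have h6 := hy u
    have h7 : y u ≤ K * (m - 1) := by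
      calc y u ≤ m - 1 := by omega
        _ ≤ K * (m - 1) := Nat.le_mul_of_pos_left _ hK
    set P := ∑ i, ((Z i).filter (fun z => a z.1 = u)).card
    set ρ := ((univ.biUnion F).filter (fun x => a x = u)).card
    set D := (univ.filter (fun x : {x // Q x} => a x.1 = u)).card
    set s := K * (m - 1)
    have h8 : P + y u ≤ K * g u := by
      apply Nat.le_of_mul_le_mul_left _ hm
      rw [← mul_assoc, ← h5]
      have h9 : m * y u ≤ m * s := Nat.mul_le_mul_left m h7
      have h10 : s * (2 * m * 2) = 4 * (m * s) := by ring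
      have h11 : 2 * (2 * m) * P = 4 * (m * P) := by ring
      have h12 : 2 * (2 * m) * s = 4 * (m * s) := by ring
      rw [h10] at h3
      rw [h11, h12] at h2
      rw [mul_add]
      omega
    calc ∑ i, ((Z' i).filter (fun z => a z.1.1 = u)).card + y u ≤ P + y u := by omega
      _ ≤ _ := h8

end T9

open T9 H239R2.Cover in
/-- Orientation `o` and colouring `c` of a highly edge-connected bipartite multigraph, `y v`
further edges with tail `v` and colour `none` being given. -/
theorem labelling {A B X J : Type} [Fintype A] [DecidableEq A] [Fintype B] [DecidableEq B]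
    [Fintype X] [DecidableEq X] [Fintype J] [DecidableEq J] (a : X → A) (b : X → B)
    (m K : ℕ) (hK : 0 < K) (q : J → ℕ) (hq : ∀ t, 0 < q t) (hsum : ∑ t, q t + 1 = m)
    (y : A ⊕ B → ℕ) (hy : ∀ v, y v + 1 ≤ m)
    (hcut : ∀ W : Finset (A ⊕ B), W.Nonempty → W ≠ univ →
      16 * m ^ 2 * K ≤ (univ.filter (fun x : X => ¬ (Sum.inl (a x) ∈ W ↔ Sum.inr (b x) ∈ W))).card)
    (hdiv : m * K ∣ Fintype.card X + ∑ v, y v) :
    ∃ (o : X → Bool) (c : X → Option J) (g : A ⊕ B → ℕ),
      (∀ v t, (univ.filter (fun x => tl a b o x = v ∧ c x = some t)).card = K * q t * g v) ∧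
      (∀ v, (univ.filter (fun x => tl a b o x = v ∧ c x = none)).card + y v = K * g v) ∧
      ∀ v t, K * q t ∣ (univ.filter (fun x => hd a b o x = v ∧ c x = some t)).card := by
  classical
  have hm : 0 < m := by omega
  have hmK : 0 < m * K := Nat.mul_pos hm hK
  rcases isEmpty_or_nonempty X with hX | ⟨⟨x₀⟩⟩
  · -- no edges
    have h1 : Fintype.card (A ⊕ B) ≤ 1 := by
      by_contra hlt
      push Not at hlt
      obtain ⟨v⟩ : Nonempty (A ⊕ B) := Fintype.card_pos_iff.1 (by omega)
      have h2 := hcut {v} (singleton_nonempty v) (by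
        intro h
        have := congrArg Finset.card h
        rw [card_singleton, card_univ] at this
        omega)
      have h3 : (univ.filter (fun x : X => ¬ (Sum.inl (a x) ∈ ({v} : Finset (A ⊕ B)) ↔
          Sum.inr (b x) ∈ ({v} : Finset (A ⊕ B))))).card = 0 := by
        rw [card_eq_zero, filter_eq_empty_iff]
        intro x; exact (hX.false x).elim
      rw [h3] at h2
      have : 0 < 16 * m ^ 2 * K := by positivity
      omega
    have hy0 : ∀ v, y v = 0 := by
      intro v
      have h2 : Subsingleton (A ⊕ B) := Fintype.card_le_one_iff_subsingleton.1 h1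
      have h3 : ∑ w, y w = y v := by
        rw [Fintype.sum_eq_single v]
        intro w hw
        exact absurd (Subsingleton.elim w v) hw
      rw [h3, Fintype.card_eq_zero, zero_add] at hdiv
      have h4 : y v < m * K := by
        have := hy v
        calc y v < m := by omega
          _ ≤ m * K := Nat.le_mul_of_pos_right _ hK
      exact Nat.eq_zero_of_dvd_of_lt hdiv h4
    refine ⟨fun _ => true, fun _ => none, fun _ => 0, ?_, ?_, ?_⟩
    · intro v t
      rw [mul_zero, card_eq_zero, filter_eq_empty_iff]
      intro x; exact (hX.false x).elim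
    · intro v
      rw [mul_zero, hy0, add_zero, card_eq_zero, filter_eq_empty_iff]
      intro x; exact (hX.false x).elim
    · intro v t
      have : (univ.filter (fun x : X => hd a b (fun _ => true) x = v ∧
          (none : Option J) = some t)) = ∅ := by
        rw [filter_eq_empty_iff]
        intro x; exact (hX.false x).elim
      rw [this]; simp
  -- the packing
  let src : X → A ⊕ B := fun x => Sum.inl (a x)
  let dst : X → A ⊕ B := fun x => Sum.inr (b x)
  let ι := Σ t : J, Fin (K * q t)
  let r : A ⊕ B := Sum.inl (a x₀)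
  let KK := (ι × Fin (2 * m) × Bool) ⊕ ((ι × Fin (2 * m) × Bool) ⊕ Fin (m * K))
  have hs : ∑ t, q t = m - 1 := by omega
  have hcardι : Fintype.card ι = K * (m - 1) := by
    rw [Fintype.card_sigma]
    simp only [Fintype.card_fin]
    rw [← mul_sum, hs]
  have hKK : 2 * Fintype.card KK ≤ 16 * m ^ 2 * K := by
    have e1 : Fintype.card KK = K * (m - 1) * (2 * m * 2) + (K * (m - 1) * (2 * m * 2) + m * K) := by
      rw [Fintype.card_sum, Fintype.card_sum, Fintype.card_prod, Fintype.card_prod, hcardι,
        Fintype.card_fin, Fintype.card_bool, Fintype.card_fin]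
    rw [e1]
    obtain ⟨n, rfl⟩ : ∃ n, m = n + 1 := ⟨m - 1, by omega⟩
    rw [Nat.add_sub_cancel]
    nlinarith [Nat.zero_le (K * n), Nat.zero_le K]
  have hcon : ∀ W : Finset (A ⊕ B), W.Nonempty → W ≠ univ →
      2 * Fintype.card KK ≤ (univ.filter (Leaves src dst W)).card := by
    intro W h1 h2
    refine hKK.trans ((hcut W h1 h2).trans (le_of_eq ?_))
    rfl
  have huniv : Pool.Agent.Helper879.ECD.sp ℝ (fun e => rv (inc src dst r e))
      (univ : Finset X) = ⊤ := by
    apply span_of_connects
    intro W h1 h2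
    have h3 := hcut W h1 h2
    have h4 : 0 < 16 * m ^ 2 * K := by positivity
    obtain ⟨e, he⟩ := Finset.card_pos.mp (h4.trans_le h3)
    exact ⟨e, Finset.mem_univ _, (Finset.mem_filter.mp he).2⟩
  obtain ⟨I, hdis, hI⟩ := Pool.Agent.H126R2.CDC.packK (F := ℝ) (K := KK)
    (x := fun e => rv (inc src dst r e)) (by
      intro R
      rw [huniv, finrank_top, Module.finrank_fintype_fun_eq_card]
      convert rank_cond src dst r (Fintype.card KK) hcon
        (Pool.Agent.Helper879.ECD.sp ℝ (fun e => rv (inc src dst r e)) R))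
  have hC : ∀ k, Connects src dst (I k) := by
    intro k
    have := hI k
    rw [huniv] at this
    exact connects_of_span src dst r (I k) this
  let FA : ι × Fin (2 * m) × Bool → Finset X := fun p => I (Sum.inl p)
  let FB : ι × Fin (2 * m) × Bool → Finset X := fun p => I (Sum.inr (Sum.inl p))
  let RA : Finset X := univ.biUnion FA
  let RB : Finset X := univ.biUnion FB
  have hRA : ∀ x, x ∈ RA ↔ ∃ p, x ∈ FA p := by intro x; simp [RA]
  have hRB : ∀ x, x ∈ RB ↔ ∃ p, x ∈ FB p := by intro x; simp [RB]
  have hRAB : Disjoint RA RB := by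
    rw [disjoint_left]
    intro x h1 h2
    obtain ⟨p, hp⟩ := (hRA x).1 h1
    obtain ⟨p', hp'⟩ := (hRB x).1 h2
    exact (disjoint_left.1 (hdis (Sum.inl p) (Sum.inr (Sum.inl p')) (by simp))) hp hp'
  let Qr : X → Prop := fun x => x ∉ RA ∧ x ∉ RB
  let I' : Fin (m * K) → Finset {x // Qr x} := fun j =>
    univ.filter (fun x => x.1 ∈ I (Sum.inr (Sum.inr j)))
  have hI' : ∀ j x, x ∈ I' j ↔ x.1 ∈ I (Sum.inr (Sum.inr j)) := by
    intro j x; simp [I']
  have hQI : ∀ j, ∀ x ∈ I (Sum.inr (Sum.inr j)), Qr x := by
    intro j x hx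
    constructor
    · intro h
      obtain ⟨p, hp⟩ := (hRA x).1 h
      exact (disjoint_left.1 (hdis (Sum.inl p) (Sum.inr (Sum.inr j)) (by simp))) hp hx
    · intro h
      obtain ⟨p, hp⟩ := (hRB x).1 h
      exact (disjoint_left.1 (hdis (Sum.inr (Sum.inl p)) (Sum.inr (Sum.inr j))
        (fun h => Sum.inl_ne_inr (Sum.inr_injective h)))) hp hx
  let α : A ⊕ B → ℕ := fun v => (RA.filter (fun x => src x = v)).card
  let β : A ⊕ B → ℕ := fun v => (RB.filter (fun x => dst x = v)).card
  let θ : A ⊕ B → ZMod (m * K) := fun v => -(((y v + α v + β v : ℕ)) : ZMod (m * K))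
  have hcardX : Fintype.card X = RA.card + RB.card + Fintype.card {x // Qr x} := by
    rw [Fintype.card_subtype, ← card_union_of_disjoint hRAB, ← card_union_of_disjoint, ← card_univ]
    · congr 1
      ext x
      simp only [mem_univ, mem_union, mem_filter, true_and, Qr, true_iff]
      tauto
    · rw [disjoint_left]
      intro x h1 h2
      rw [mem_filter] at h2
      rw [mem_union] at h1
      rcases h1 with h1 | h1
      · exact h2.2.1 h1
      · exact h2.2.2 h1
  have hα : ∑ v, α v = RA.card :=
    (card_eq_sum_card_fiberwise (f := src) (t := univ) (fun _ _ => mem_coe.2 (mem_univ _))).symm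
  have hβ : ∑ v, β v = RB.card :=
    (card_eq_sum_card_fiberwise (f := dst) (t := univ) (fun _ _ => mem_coe.2 (mem_univ _))).symm
  have hθ : ∑ v, θ v = (Fintype.card {x // Qr x} : ZMod (m * K)) := by
    have h1 : ((Fintype.card X + ∑ v, y v : ℕ) : ZMod (m * K)) = 0 :=
      (ZMod.natCast_eq_zero_iff _ _).2 hdiv
    rw [hcardX] at h1
    simp only [θ]
    rw [sum_neg_distrib, ← Nat.cast_sum, sum_add_distrib, sum_add_distrib, hα, hβ]
    push_cast at h1 ⊢
    linear_combination -h1
  obtain ⟨o', ho'⟩ := orientation_of_packing (fun x : {x // Qr x} => src x.1)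
    (fun x => dst x.1) (m * K) hmK I' (by
      intro i j hij
      rw [disjoint_left]
      intro x h1 h2
      rw [hI'] at h1 h2
      exact (disjoint_left.1 (hdis (Sum.inr (Sum.inr i)) (Sum.inr (Sum.inr j))
        (fun h => hij (Sum.inr_injective (Sum.inr_injective h))))) h1 h2) (by
      intro j W h1 h2
      obtain ⟨e, he, hl⟩ := hC (Sum.inr (Sum.inr j)) W h1 h2
      exact ⟨⟨e, hQI j e he⟩, (hI' _ _).2 he, hl⟩) θ hθ
  let o : X → Bool := fun x => if h1 : x ∈ RA then true else if h2 : x ∈ RB then false else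
    o' ⟨x, h1, h2⟩
  have hoA : ∀ x ∈ RA, o x = true := by
    intro x hx; simp only [o]; rw [dif_pos hx]
  have hoB : ∀ x ∈ RB, o x = false := by
    intro x hx
    have : x ∉ RA := fun h => (disjoint_left.1 hRAB) h hx
    simp only [o]; rw [dif_neg this, dif_pos hx]
  have hoR : ∀ x (h : Qr x), o x = o' ⟨x, h⟩ := by
    intro x h
    simp only [o]; rw [dif_neg h.1, dif_neg h.2]
  let D : A ⊕ B → ℕ := fun v => (univ.filter (fun x => tl a b o x = v)).card
  have hD : ∀ v, D v = α v + β v + outdeg (fun x : {x // Qr x} => src x.1)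
      (fun x => dst x.1) o' v := by
    intro v
    have e1 : outdeg (fun x : {x // Qr x} => src x.1) (fun x => dst x.1) o' v =
        (univ.filter (fun x => Qr x ∧ tl a b o x = v)).card := by
      symm
      apply card_sub
      intro x
      constructor
      · rintro ⟨h1, h2⟩
        refine ⟨h1, ?_⟩
        simp only [tail, tl] at h2 ⊢
        rw [← hoR x h1]
        exact h2
      · rintro ⟨h1, h2⟩
        refine ⟨h1, ?_⟩
        simp only [tail, tl] at h2 ⊢
        rw [← hoR x h1] at h2
        exact h2
    have e2 : α v = (univ.filter (fun x => x ∈ RA ∧ tl a b o x = v)).card := by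
      simp only [α]
      congr 1
      ext x
      simp only [mem_filter, mem_univ, true_and]
      constructor
      · rintro ⟨h1, h2⟩
        refine ⟨h1, ?_⟩
        rw [tl, hoA x h1]; exact h2
      · rintro ⟨h1, h2⟩
        refine ⟨h1, ?_⟩
        rw [tl, hoA x h1] at h2; exact h2
    have e3 : β v = (univ.filter (fun x => x ∈ RB ∧ tl a b o x = v)).card := by
      simp only [β]
      congr 1
      ext x
      simp only [mem_filter, mem_univ, true_and]
      constructor
      · rintro ⟨h1, h2⟩
        refine ⟨h1, ?_⟩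
        rw [tl, hoB x h1]; exact h2
      · rintro ⟨h1, h2⟩
        refine ⟨h1, ?_⟩
        rw [tl, hoB x h1] at h2; exact h2
    rw [e1, e2, e3, ← card_union_of_disjoint, ← card_union_of_disjoint]
    · simp only [D]
      congr 1
      ext x
      simp only [mem_union, mem_filter, mem_univ, true_and, Qr]
      tauto
    · rw [disjoint_left]
      intro x h1 h2
      simp only [mem_union, mem_filter, mem_univ, true_and, Qr] at h1 h2
      tauto
    · rw [disjoint_left]
      intro x h1 h2
      simp only [mem_filter, mem_univ, true_and] at h1 h2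
      exact (disjoint_left.1 hRAB) h1.1 h2.1
  have hdvd : ∀ v, m * K ∣ D v + y v := by
    intro v
    rw [← ZMod.natCast_eq_zero_iff, hD]
    have := ho' v
    simp only [θ] at this
    push_cast at this ⊢
    rw [this]
    ring
  choose g hg using hdvd
  -- one edge of every system at every vertex
  have hne : ∀ k (v : A ⊕ B), ∃ x ∈ I k, src x = v ∨ dst x = v := by
    intro k v
    obtain ⟨x, hx, hl⟩ := hC k {v} (singleton_nonempty v) (by
      intro h
      have h1 : (Sum.inl (a x₀) : A ⊕ B) ∈ ({v} : Finset (A ⊕ B)) := h ▸ mem_univ _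
      have h2 : (Sum.inr (b x₀) : A ⊕ B) ∈ ({v} : Finset (A ⊕ B)) := h ▸ mem_univ _
      rw [mem_singleton] at h1 h2
      rw [← h2] at h1
      exact absurd h1 (by simp))
    refine ⟨x, hx, ?_⟩
    simp only [Leaves, mem_singleton] at hl
    tauto
  obtain ⟨cA, hA1, hA2, hA3⟩ := side a b m K hK q hq hsum FA
    (fun p p' h => hdis _ _ (fun h' => h (Sum.inl_injective h')))
    (fun p => conn_of_connects _ _ _ (hC _)) (by
      intro p u
      obtain ⟨x, hx, h | h⟩ := hne (Sum.inl p) (Sum.inl u)
      · exact ⟨x, hx, Sum.inl_injective h⟩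
      · exact absurd h (by simp [dst])) (fun x => o x = true)
    (fun p x hx => hoA x ((hRA x).2 ⟨p, hx⟩)) (fun u => g (Sum.inl u)) (fun u => y (Sum.inl u))
    (fun u => hy _) (by
      intro u
      rw [← hg (Sum.inl u)]
      congr 1
      symm
      apply card_sub
      intro x
      simp only [tl]
      cases hx : o x <;> simp)
  obtain ⟨cB, hB1, hB2, hB3⟩ := side b a m K hK q hq hsum FB
    (fun p p' h => hdis _ _ (fun h' => h (Sum.inl_injective (Sum.inr_injective h'))))
    (fun p => by
      have h1 := conn_of_connects _ _ _ (hC (Sum.inr (Sum.inl p)))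
      intro W hW hWu
      obtain ⟨e, he, hl⟩ := h1 (Sum.swap ⁻¹' W) (by
        obtain ⟨w, hw⟩ := hW
        exact ⟨w.swap, by simpa using hw⟩) (by
        intro h
        apply hWu
        ext w
        constructor
        · intro _; trivial
        · intro _
          have : w.swap ∈ Sum.swap ⁻¹' W := by rw [h]; trivial
          simpa using this)
      refine ⟨e, he, ?_⟩
      simp only [Set.mem_preimage, src, dst, Sum.swap_inl, Sum.swap_inr] at hl
      tauto) (by
      intro p u
      obtain ⟨x, hx, h | h⟩ := hne (Sum.inr (Sum.inl p)) (Sum.inr u)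
      · exact absurd h (by simp [src])
      · exact ⟨x, hx, Sum.inr_injective h⟩) (fun x => o x = false)
    (fun p x hx => hoB x ((hRB x).2 ⟨p, hx⟩)) (fun u => g (Sum.inr u)) (fun u => y (Sum.inr u))
    (fun u => hy _) (by
      intro u
      rw [← hg (Sum.inr u)]
      congr 1
      symm
      apply card_sub
      intro x
      simp only [tl]
      cases hx : o x <;> simp)
  let c : X → Option J := fun x => if h : o x = true then cA ⟨x, h⟩ else
    cB ⟨x, by simpa using h⟩
  have hcA : ∀ x (h : o x = true), c x = cA ⟨x, h⟩ := by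
    intro x h; simp only [c]; rw [dif_pos h]
  have hcB : ∀ x (h : o x = false), c x = cB ⟨x, h⟩ := by
    intro x h; simp only [c]; rw [dif_neg (by simp [h])]
  have key : ∀ (s : Option J),
      (∀ u, (univ.filter (fun x => tl a b o x = Sum.inl u ∧ c x = s)).card =
        (univ.filter (fun x : {x // o x = true} => a x.1 = u ∧ cA x = s)).card) ∧
      (∀ u, (univ.filter (fun x => tl a b o x = Sum.inr u ∧ c x = s)).card =
        (univ.filter (fun x : {x // o x = false} => b x.1 = u ∧ cB x = s)).card) ∧
      (∀ u, (univ.filter (fun x => hd a b o x = Sum.inr u ∧ c x = s)).card =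
        (univ.filter (fun x : {x // o x = true} => b x.1 = u ∧ cA x = s)).card) ∧
      (∀ u, (univ.filter (fun x => hd a b o x = Sum.inl u ∧ c x = s)).card =
        (univ.filter (fun x : {x // o x = false} => a x.1 = u ∧ cB x = s)).card) := by
    intro s
    refine ⟨?_, ?_, ?_, ?_⟩
    · intro u
      apply card_sub
      intro x
      by_cases hx : o x = true
      · rw [hcA x hx, tl, if_pos hx]
        simp [hx]
      · rw [tl, if_neg hx]
        simp [hx]
    · intro u
      apply card_sub
      intro x
      by_cases hx : o x = true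
      · rw [tl, if_pos hx]
        simp [hx]
      · have hx' : o x = false := by simpa using hx
        rw [hcB x hx', tl, if_neg hx]
        simp [hx']
    · intro u
      apply card_sub
      intro x
      by_cases hx : o x = true
      · rw [hcA x hx, hd, if_pos hx]
        simp [hx]
      · rw [hd, if_neg hx]
        simp [hx]
    · intro u
      apply card_sub
      intro x
      by_cases hx : o x = true
      · rw [hd, if_pos hx]
        simp [hx]
      · have hx' : o x = false := by simpa using hx
        rw [hcB x hx', hd, if_neg hx]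
        simp [hx']
  refine ⟨o, c, g, ?_, ?_, ?_⟩
  · rintro (u | u) t
    · rw [(key (some t)).1 u]; exact hA1 u t
    · rw [(key (some t)).2.1 u]; exact hB1 u t
  · rintro (u | u)
    · rw [(key none).1 u]; exact hA2 u
    · rw [(key none).2.1 u]; exact hB2 u
  · rintro (u | u) t
    · rw [(key (some t)).2.2.2 u]; exact hB3 u t
    · rw [(key (some t)).2.2.1 u]; exact hA3 u t

end Pool.Agent.H9.TD
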