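import Mathlib
import Pool.Graph.R_pool_sql_team_5be1d20b.H8.MatroidUnion
import Pool.Graph.R_seed8.H239R2.Cover.EdgeConn

set_option autoImplicit false

/-!
A light spanning connected edge set (matroid intersection of the graphic matroid with a partition
matroid).
-/

namespace Pool.Agent.H9.TD.T6

open Finset

namespace T6

/-- The rank of a finite family of vectors. -/
noncomputable def vrk {α M : Type} [AddCommGroup M] [Module ℝ M] (x : α → M) (A : Finset α) : ℕ :=
  Module.finrank ℝ (Submodule.span ℝ (x '' (A : Set α)))

lemma vrk_rank {α M : Type} [DecidableEq α] [AddCommGroup M] [Module ℝ M]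
    [FiniteDimensional ℝ M] (x : α → M) : Pool.Agent.H8.RankFn (vrk x) where
  mono := fun A B h => Submodule.finrank_mono (Submodule.span_mono (Set.image_mono h))
  step := fun A y => by
    unfold vrk
    rw [coe_insert, Set.image_insert_eq, Submodule.span_insert]
    refine (Submodule.finrank_add_le_finrank_add_finrank _ _).trans ?_
    have := finrank_span_finset_le_card (R := ℝ) ({x y} : Finset M)
    rw [coe_singleton, card_singleton] at this
    have h2 : Module.finrank ℝ (Submodule.span ℝ ({x y} : Set M)) ≤ 1 := this
    omega
  submod := fun A B => by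
    unfold vrk
    rw [coe_union, Set.image_union, Submodule.span_union]
    have h1 := Submodule.finrank_sup_add_finrank_inf_eq (Submodule.span ℝ (x '' (A : Set α)))
      (Submodule.span ℝ (x '' (B : Set α)))
    have h2 : Module.finrank ℝ (Submodule.span ℝ (x '' ((A ∩ B : Finset α) : Set α))) ≤
        Module.finrank ℝ (Submodule.span ℝ (x '' (A : Set α)) ⊓
          Submodule.span ℝ (x '' (B : Set α)) : Submodule ℝ M) := by
      refine Submodule.finrank_mono (le_inf ?_ ?_)
      · exact Submodule.span_mono (Set.image_mono (by simp))
      · exact Submodule.span_mono (Set.image_mono (by simp))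
    omega

lemma dual_rank {α : Type} [DecidableEq α] (E : Finset α) (f : Finset α → ℕ)
    (hf : Pool.Agent.H8.RankFn f) :
    Pool.Agent.H8.RankFn (fun A : Finset α => (A ∩ E).card + f (E \ A) - f E) := by
  have key : ∀ A : Finset α, f E ≤ (A ∩ E).card + f (E \ A) := by
    intro A
    have h1 := hf.add (E \ A) (A ∩ E)
    have h2 : (E \ A) ∪ (A ∩ E) = E := by
      ext x; simp only [mem_union, mem_sdiff, mem_inter]; tauto
    rw [h2] at h1
    omega
  refine ⟨?_, ?_, ?_⟩
  · intro A B hAB
    have h1 := hf.add (E \ B) ((B ∩ E) \ (A ∩ E))
    have h2 : (E \ B) ∪ ((B ∩ E) \ (A ∩ E)) = E \ A := by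
      ext x; simp only [mem_union, mem_sdiff, mem_inter]
      have := @hAB x
      tauto
    rw [h2] at h1
    have h3 : ((B ∩ E) \ (A ∩ E)).card = (B ∩ E).card - (A ∩ E).card :=
      card_sdiff_of_subset (inter_subset_inter_right hAB)
    have h4 : (A ∩ E).card ≤ (B ∩ E).card := card_le_card (inter_subset_inter_right hAB)
    have := key A
    have := key B
    show (A ∩ E).card + f (E \ A) - f E ≤ (B ∩ E).card + f (E \ B) - f E
    omega
  · intro A x
    show (insert x A ∩ E).card + f (E \ insert x A) - f E ≤ (A ∩ E).card + f (E \ A) - f E + 1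
    have h1 : f (E \ insert x A) ≤ f (E \ A) := hf.mono _ _ (sdiff_subset_sdiff le_rfl (subset_insert _ _))
    have h2 : (insert x A ∩ E).card ≤ (A ∩ E).card + 1 := by
      have : insert x A ∩ E ⊆ insert x (A ∩ E) := by
        intro y; simp only [mem_inter, mem_insert]; tauto
      exact (card_le_card this).trans (card_insert_le _ _)
    have := key A
    omega
  · intro A B
    show ((A ∪ B) ∩ E).card + f (E \ (A ∪ B)) - f E + ((A ∩ B ∩ E).card + f (E \ (A ∩ B)) - f E) ≤
      (A ∩ E).card + f (E \ A) - f E + ((B ∩ E).card + f (E \ B) - f E)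
    have h1 := hf.submod (E \ A) (E \ B)
    have h2 : (E \ A) ∪ (E \ B) = E \ (A ∩ B) := by
      ext x; simp only [mem_union, mem_sdiff, mem_inter]; tauto
    have h3 : (E \ A) ∩ (E \ B) = E \ (A ∪ B) := by
      ext x; simp only [mem_union, mem_sdiff, mem_inter]; tauto
    rw [h2, h3] at h1
    have h4 := card_union_add_card_inter (A ∩ E) (B ∩ E)
    have h5 : (A ∩ E) ∪ (B ∩ E) = (A ∪ B) ∩ E := by
      ext x; simp only [mem_union, mem_inter]; tauto
    have h6 : (A ∩ E) ∩ (B ∩ E) = A ∩ B ∩ E := by
      ext x; simp only [mem_inter]; tauto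
    rw [h5, h6] at h4
    have := key A
    have := key B
    have := key (A ∪ B)
    have := key (A ∩ B)
    omega

/-- Rank function of a partition matroid with capacities. -/
def prk {α ι : Type} [DecidableEq α] [DecidableEq ι] (c : α → ι) (R : Finset ι) (r : ι → ℕ)
    (A : Finset α) : ℕ := ∑ i ∈ R, min (r i) (A.filter (fun x => c x = i)).card

lemma prk_rank {α ι : Type} [DecidableEq α] [DecidableEq ι] (c : α → ι) (R : Finset ι)
    (r : ι → ℕ) : Pool.Agent.H8.RankFn (fun A : Finset α => prk c R r A) where
  mono := fun _ _ h => sum_le_sum fun i _ =>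
    min_le_min le_rfl (card_le_card (filter_subset_filter _ h))
  step := fun A x => by
    show prk c R r (insert x A) ≤ prk c R r A + 1
    unfold prk
    have h1 : ∀ i ∈ R, min (r i) ((insert x A).filter (fun y => c y = i)).card ≤
        min (r i) (A.filter (fun y => c y = i)).card + (if c x = i then 1 else 0) := by
      intro i _
      rw [filter_insert]
      split_ifs with h
      · have := card_insert_le x (A.filter (fun y => c y = i))
        omega
      · omega
    refine (sum_le_sum h1).trans ?_
    rw [sum_add_distrib]
    gcongr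
    rw [sum_ite_eq]
    split_ifs <;> omega
  submod := fun A B => by
    show prk c R r (A ∪ B) + prk c R r (A ∩ B) ≤ prk c R r A + prk c R r B
    unfold prk
    rw [← sum_add_distrib, ← sum_add_distrib]
    refine sum_le_sum fun i _ => ?_
    rw [filter_union]
    have e : (A ∩ B).filter (fun x => c x = i) =
        A.filter (fun x => c x = i) ∩ B.filter (fun x => c x = i) := by
      ext; simp only [mem_filter, mem_inter]; tauto
    rw [e]
    have h1 := card_union_add_card_inter (A.filter (fun x => c x = i)) (B.filter (fun x => c x = i))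
    have h2 : (A.filter (fun x => c x = i) ∩ B.filter (fun x => c x = i)).card ≤
      (A.filter (fun x => c x = i)).card := card_le_card inter_subset_left
    have h3 : (A.filter (fun x => c x = i) ∩ B.filter (fun x => c x = i)).card ≤
      (B.filter (fun x => c x = i)).card := card_le_card inter_subset_right
    omega

open Pool.Agent.H239R2.Cover in
lemma connects_of_span {V E : Type} [Fintype V] [DecidableEq V] [Fintype E] [DecidableEq E]
    (src dst : E → V) (r : V) (S : Finset E)
    (hS : Submodule.span ℝ ((fun e => rv (inc src dst r e)) '' (S : Set E)) = ⊤) :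
    Connects src dst S := by
  classical
  intro X hX hXu
  by_contra hcon
  push Not at hcon
  -- a nonempty set without the root that no edge leaves
  obtain ⟨Y, hYne, hrY, hY⟩ : ∃ Y : Finset V, Y.Nonempty ∧ r ∉ Y ∧
      ∀ e ∈ S, (src e ∈ Y ↔ dst e ∈ Y) := by
    by_cases hr : r ∈ X
    · refine ⟨univ \ X, ?_, by simp [hr], ?_⟩
      · rw [sdiff_nonempty]
        intro h
        exact hXu (eq_univ_of_forall fun v => h (mem_univ v))
      · intro e he
        have := hcon e he
        simp only [Leaves, not_not] at this
        simp [this]
    · refine ⟨X, hX, hr, ?_⟩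
      intro e he
      have := hcon e he
      simpa only [Leaves, not_not] using this
  let φ : (Rt r → ℝ) →ₗ[ℝ] ℝ :=
    { toFun := fun x => ∑ v : Rt r, if v.1 ∈ Y then x v else 0
      map_add' := by
        intro x y
        rw [← sum_add_distrib]
        refine sum_congr rfl fun v _ => ?_
        split_ifs <;> simp
      map_smul' := by
        intro c x
        simp only [RingHom.id_apply, smul_eq_mul, mul_sum]
        refine sum_congr rfl fun v _ => ?_
        split_ifs <;> simp }
  have hφ : ∀ v : V, ∑ u : Rt r, (if u.1 ∈ Y then (if v = u.1 then (1 : ℝ) else 0) else 0) =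
      if v ∈ Y then 1 else 0 := by
    intro v
    by_cases hv : v ∈ Y
    · have hvr : v ≠ r := fun h => hrY (h ▸ hv)
      rw [if_pos hv, sum_eq_single (⟨v, hvr⟩ : Rt r)]
      · simp [hv]
      · intro b _ hb
        by_cases hbY : b.1 ∈ Y
        · rw [if_pos hbY, if_neg]
          intro h
          exact hb (Subtype.ext h.symm)
        · rw [if_neg hbY]
      · intro h; exact absurd (mem_univ _) h
    · rw [if_neg hv]
      refine sum_eq_zero fun u _ => ?_
      by_cases hu : u.1 ∈ Y
      · rw [if_pos hu, if_neg]
        intro h
        exact hv (h ▸ hu)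
      · rw [if_neg hu]
  have hk : Submodule.span ℝ ((fun e => rv (inc src dst r e)) '' (S : Set E)) ≤
      LinearMap.ker φ := by
    rw [Submodule.span_le]
    rintro _ ⟨e, he, rfl⟩
    have he' : e ∈ S := he
    rw [SetLike.mem_coe, LinearMap.mem_ker]
    show ∑ v : Rt r, (if v.1 ∈ Y then rv (inc src dst r e) v else 0) = 0
    have h1 : ∀ v : Rt r, (if v.1 ∈ Y then rv (inc src dst r e) v else 0) =
        (if v.1 ∈ Y then (if src e = v.1 then (1 : ℝ) else 0) else 0) -
        (if v.1 ∈ Y then (if dst e = v.1 then (1 : ℝ) else 0) else 0) := by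
      intro v
      by_cases h : v.1 ∈ Y
      · rw [if_pos h, if_pos h, if_pos h, incR_restrict]
        rfl
      · rw [if_neg h, if_neg h, if_neg h, sub_zero]
    rw [sum_congr rfl (fun v _ => h1 v), sum_sub_distrib, hφ, hφ]
    have := hY e he'
    by_cases h : src e ∈ Y
    · rw [if_pos h, if_pos (this.1 h), sub_self]
    · rw [if_neg h, if_neg (fun h' => h (this.2 h')), sub_self]
  rw [hS] at hk
  obtain ⟨v, hv⟩ := hYne
  have hvr : v ≠ r := fun h => hrY (h ▸ hv)
  have h2 : φ (fun u => if v = u.1 then 1 else 0) = 0 := hk (Submodule.mem_top)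
  have h3 : φ (fun u => if v = u.1 then 1 else 0) =
    ∑ u : Rt r, (if u.1 ∈ Y then (if v = u.1 then (1 : ℝ) else 0) else 0) := rfl
  rw [h3, hφ, if_pos hv] at h2
  exact one_ne_zero h2

end T6

open T6 in
/-- `M` disjoint connected spanning edge sets of a coloured multigraph contain in their union a
connected spanning edge set that uses at most `⌈|E_u| / M⌉` edges of every colour `u`. -/
theorem light {V E A : Type} [Fintype V] [DecidableEq V] [Fintype E] [DecidableEq E]
    [DecidableEq A] (src dst : E → V) (col : E → A) (M : ℕ) (hM : 0 < M)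
    (I : Fin M → Finset E) (hd : ∀ i j, i ≠ j → Disjoint (I i) (I j))
    (hI : ∀ j, H239R2.Cover.Connects src dst (I j)) :
    ∃ S : Finset E, H239R2.Cover.Connects src dst S ∧
      ∀ u, M * (S.filter (fun e => col e = u)).card ≤
        (univ.filter (fun e => col e = u)).card + M := by
  classical
  rcases isEmpty_or_nonempty V with hV | ⟨⟨r⟩⟩
  · refine ⟨∅, ?_, ?_⟩
    · rintro X ⟨v, _⟩
      exact (hV.false v).elim
    · intro u; simp
  set x : E → (H239R2.Cover.Rt r → ℝ) := fun e => H239R2.Cover.rv (H239R2.Cover.inc src dst r e)
    with hx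
  have hspan : ∀ j, Submodule.span ℝ (x '' (I j : Set E)) = ⊤ := fun j =>
    H239R2.Cover.span_of_connects src dst r (I j) (hI j)
  have hfull : ∀ j, vrk x (I j) = vrk x univ := by
    intro j
    refine le_antisymm ((vrk_rank x).mono _ _ (subset_univ _)) ?_
    unfold vrk
    rw [hspan j]
    exact Submodule.finrank_mono le_top
  set cc : A → ℕ := fun u => ((univ.filter (fun e => col e = u)).card + (M - 1)) / M with hcc
  set R : Finset A := univ.image col with hR
  have hc1 : ∀ u, (univ.filter (fun e => col e = u)).card ≤ M * cc u := by
    intro u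
    have := Nat.div_add_mod ((univ.filter (fun e => col e = u)).card + (M - 1)) M
    have h2 := Nat.mod_lt ((univ.filter (fun e => col e = u)).card + (M - 1)) hM
    simp only [hcc]
    omega
  have hc2 : ∀ u, M * cc u ≤ (univ.filter (fun e => col e = u)).card + M := by
    intro u
    have := Nat.mul_div_le ((univ.filter (fun e => col e = u)).card + (M - 1)) M
    simp only [hcc]
    omega
  obtain ⟨J, _, hfJ, hgJ⟩ := Pool.Agent.H8.union_lemma (univ : Finset E).card univ rfl
    (fun A : Finset E => (A ∩ univ).card + vrk x (univ \ A) - vrk x univ)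
    (fun A => prk col R cc A)
    (dual_rank univ _ (vrk_rank x)) (prk_rank _ _ _) (by
      intro B _
      have e0 : prk col R cc ∅ = 0 := by simp [prk]
      simp only [empty_inter, card_empty, sdiff_empty, zero_add, Nat.sub_self, e0, add_zero,
        inter_univ]
      have key : vrk x univ ≤ vrk x (univ \ B) + prk col R cc B := by
        refine Nat.le_of_mul_le_mul_left ?_ hM
        have h1 : ∀ i, vrk x univ ≤ vrk x (univ \ B) + (I i ∩ B).card := by
          intro i
          rw [← hfull i]
          have h2 := (vrk_rank x).add (univ \ B) (I i ∩ B)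
          refine le_trans ((vrk_rank x).mono _ _ ?_) h2
          intro e he
          simp only [mem_union, mem_sdiff, mem_univ, true_and, mem_inter]
          tauto
        have h2 : M * vrk x univ ≤ M * vrk x (univ \ B) + ∑ i : Fin M, (I i ∩ B).card := by
          have := sum_le_sum (fun (i : Fin M) (_ : i ∈ univ) => h1 i)
          rw [sum_const, sum_add_distrib, sum_const, card_univ, Fintype.card_fin, smul_eq_mul,
            smul_eq_mul] at this
          exact this
        have h3 : ∑ i : Fin M, (I i ∩ B).card ≤ B.card := by
          rw [← card_biUnion]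
          · refine card_le_card ?_
            intro e he
            simp only [mem_biUnion, mem_univ, true_and, mem_inter] at he
            obtain ⟨i, _, h⟩ := he
            exact h
          · intro i _ j _ hij
            exact (hd i j hij).mono inter_subset_left inter_subset_left
        have h4 : B.card ≤ M * prk col R cc B := by
          unfold prk
          rw [card_eq_sum_card_fiberwise (f := col) (t := R)
            (fun e _ => by simp [hR]), mul_sum]
          refine sum_le_sum fun u _ => ?_
          have h5 : (B.filter (fun e => col e = u)).card ≤ (univ.filter (fun e => col e = u)).card :=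
            card_le_card (filter_subset_filter _ (subset_univ _))
          have h6 := hc1 u
          rcases le_total (cc u) (B.filter (fun e => col e = u)).card with h | h
          · rw [min_eq_left h]; omega
          · rw [min_eq_right h]
            exact Nat.le_mul_of_pos_left _ hM
        rw [mul_add]
        omega
      omega)
  have hrk : vrk x (univ \ J) = vrk x univ := by
    have m1 : vrk x (univ \ J) ≤ vrk x univ := (vrk_rank x).mono _ _ (subset_univ _)
    rcases J.eq_empty_or_nonempty with h | h
    · rw [h, sdiff_empty]
    · have := h.card_pos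
      simp only [inter_univ, card_empty, sdiff_empty, zero_add,
        Nat.sub_self] at hfJ
      omega
  have hg : prk col R cc (univ \ J) = (univ \ J).card := by
    have e0 : prk col R cc ∅ = 0 := by simp [prk]
    simpa [e0] using hgJ
  set S := univ \ J with hS
  refine ⟨S, ?_, ?_⟩
  · refine connects_of_span src dst r S ?_
    have h1 : Submodule.span ℝ (x '' ((univ : Finset E) : Set E)) = ⊤ := by
      rw [eq_top_iff, ← hspan ⟨0, hM⟩]
      exact Submodule.span_mono (Set.image_mono (by simp))
    refine Submodule.eq_top_of_finrank_eq ?_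
    have h2 : vrk x S = Module.finrank ℝ (⊤ : Submodule ℝ (H239R2.Cover.Rt r → ℝ)) := by
      rw [hrk]
      unfold vrk
      rw [h1]
    rw [finrank_top] at h2
    exact h2
  · have c1 : S.card = ∑ u ∈ R, (S.filter (fun e => col e = u)).card :=
      card_eq_sum_card_fiberwise (fun e _ => by simp [hR])
    have h2 : ∑ u ∈ R, min (cc u) (S.filter (fun e => col e = u)).card =
        ∑ u ∈ R, (S.filter (fun e => col e = u)).card := by
      rw [← c1]; exact hg
    have h3 := (sum_eq_sum_iff_of_le (fun e _ => min_le_right _ _)).1 h2
    intro u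
    by_cases hu : u ∈ R
    · have h4 := h3 u hu
      have h5 : (S.filter (fun e => col e = u)).card ≤ cc u := by omega
      exact (Nat.mul_le_mul_left M h5).trans (hc2 u)
    · have : S.filter (fun e => col e = u) = ∅ := by
        rw [filter_eq_empty_iff]
        intro e _ h
        exact hu (by rw [hR, mem_image]; exact ⟨e, mem_univ _, h⟩)
      rw [this]; simp

end Pool.Agent.H9.TD.T6
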