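import Mathlib

set_option autoImplicit false

/-!
Trees: an enumeration with parents, embedding into graphs of large minimum degree, orientations
of degenerate graphs, maximum cuts.
-/

namespace Pool.Agent.H9.TD.T4

open Finset

theorem closer {W : Type} (T : SimpleGraph W) (hT : T.Connected) (r a : W) (ha : a ≠ r) :
    ∃ v, T.Adj a v ∧ T.dist r v < T.dist r a := by
  obtain ⟨p, hp⟩ := hT.exists_walk_length_eq_dist a r
  cases p with
  | nil => exact absurd rfl ha
  | cons h q =>
    rename_i v
    refine ⟨v, h, ?_⟩
    rw [SimpleGraph.Walk.length_cons] at hp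
    have h3 : T.dist v r ≤ q.length := SimpleGraph.dist_le q
    rw [SimpleGraph.dist_comm] at hp
    rw [SimpleGraph.dist_comm] at h3
    omega

theorem tree_enum {W : Type} [Fintype W] (T : SimpleGraph W) (hT : T.IsTree) (m : ℕ)
    (hm : T.edgeSet.ncard = m) :
    ∃ (w : Fin (m + 1) ≃ W) (par : ℕ → ℕ), (∀ j, 1 ≤ j → j ≤ m → par j < j) ∧
      ∀ i j : Fin (m + 1), T.Adj (w i) (w j) ↔
        (1 ≤ (j : ℕ) ∧ par j = i) ∨ (1 ≤ (i : ℕ) ∧ par i = j) := by
  classical
  have hcard : Fintype.card W = m + 1 := by
    have h1 := hT.card_edgeFinset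
    rw [← h1, ← hm, ← SimpleGraph.coe_edgeFinset T, Set.ncard_coe_finset]
  have hne : Nonempty W := hT.connected.nonempty
  obtain ⟨r⟩ := hne
  let e0 : Fin (m + 1) ≃ W := (Fintype.equivFinOfCardEq hcard).symm
  let f : Fin (m + 1) → ℕ := fun i => T.dist r (e0 i)
  let w : Fin (m + 1) ≃ W := (Tuple.sort f).trans e0
  have hmono : ∀ i j : Fin (m + 1), i ≤ j → T.dist r (w i) ≤ T.dist r (w j) := by
    intro i j hij
    exact Tuple.monotone_sort f hij
  have hw0 : w 0 = r := by
    have h1 := hmono 0 (w.symm r) (Fin.zero_le _)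
    rw [w.apply_symm_apply, SimpleGraph.dist_self] at h1
    have h2 : T.dist r (w 0) = 0 := by omega
    exact ((hT.connected.dist_eq_zero_iff).1 h2).symm
  -- parents
  have hpar : ∀ j : Fin (m + 1), j ≠ 0 → ∃ i : Fin (m + 1), i < j ∧ T.Adj (w j) (w i) := by
    intro j hj
    have hjr : w j ≠ r := by
      intro h
      apply hj
      rw [← hw0] at h
      exact w.injective h
    obtain ⟨v, hv1, hv2⟩ := closer T hT.connected r (w j) hjr
    refine ⟨w.symm v, ?_, by rw [w.apply_symm_apply]; exact hv1⟩
    by_contra hlt
    have h2 := hmono j (w.symm v) (not_lt.1 hlt)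
    rw [w.apply_symm_apply] at h2
    omega
  choose! P hP1 hP2 using hpar
  let par : ℕ → ℕ := fun j => if h : j < m + 1 then (P ⟨j, h⟩ : ℕ) else 0
  have hparE : ∀ j : Fin (m + 1), par j = P j := by
    intro j
    simp only [par]
    rw [dif_pos j.2]
  have hne0 : ∀ j : Fin (m + 1), 1 ≤ (j : ℕ) ↔ j ≠ 0 := by
    intro j
    rw [Ne, Fin.ext_iff, Fin.val_zero]
    omega
  refine ⟨w, par, ?_, ?_⟩
  · intro j h1 h2
    have h3 := hparE ⟨j, by omega⟩
    have h4 := hP1 ⟨j, by omega⟩ ((hne0 _).1 h1)
    rw [Fin.lt_def] at h4
    simp only at h3 h4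
    rw [h3]
    exact h4
  · -- the parent edges are all edges
    let φ : {j : Fin (m + 1) // j ≠ 0} → T.edgeSet := fun j =>
      ⟨s(w j.1, w (P j.1)), (SimpleGraph.mem_edgeSet T).2 (hP2 j.1 j.2)⟩
    have hφ : Function.Injective φ := by
      intro j k hjk
      have h1 : s(w j.1, w (P j.1)) = s(w k.1, w (P k.1)) := congrArg Subtype.val hjk
      rw [Sym2.eq_iff] at h1
      rcases h1 with ⟨h1, _⟩ | ⟨h1, h2⟩
      · exact Subtype.ext (w.injective h1)
      · have h3 := w.injective h1
        have h4 := w.injective h2
        have h5 := hP1 j.1 j.2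
        have h6 := hP1 k.1 k.2
        rw [← h3] at h6
        rw [h4] at h5
        exact absurd (h5.trans h6) (lt_irrefl _)
    have hφs : Function.Surjective φ := by
      have h1 : Fintype.card {j : Fin (m + 1) // j ≠ 0} = Fintype.card T.edgeSet := by
        rw [Fintype.card_subtype_compl, Fintype.card_subtype_eq, Fintype.card_fin]
        have h2 := hT.card_edgeFinset
        rw [hcard, SimpleGraph.edgeFinset_card] at h2
        omega
      exact ((Fintype.bijective_iff_injective_and_card φ).2 ⟨hφ, h1⟩).2
    intro i j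
    constructor
    · intro h
      obtain ⟨k, hk⟩ := hφs ⟨s(w i, w j), (SimpleGraph.mem_edgeSet T).2 h⟩
      have h1 : s(w k.1, w (P k.1)) = s(w i, w j) := congrArg Subtype.val hk
      rw [Sym2.eq_iff] at h1
      rcases h1 with ⟨h1, h2⟩ | ⟨h1, h2⟩
      · right
        have h3 := w.injective h1
        have h4 := w.injective h2
        rw [← h3, ← h4]
        exact ⟨(hne0 _).2 k.2, by rw [hparE]⟩
      · left
        have h3 := w.injective h1
        have h4 := w.injective h2
        rw [← h3, ← h4]
        exact ⟨(hne0 _).2 k.2, by rw [hparE]⟩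
    · rintro (⟨h1, h2⟩ | ⟨h1, h2⟩)
      · rw [hparE] at h2
        have h3 := hP2 j ((hne0 _).1 h1)
        rw [Fin.ext h2] at h3
        exact h3.symm
      · rw [hparE] at h2
        have h3 := hP2 i ((hne0 _).1 h1)
        rw [Fin.ext h2] at h3
        exact h3

/-- A tree with `m` edges is found in every nonempty vertex set inside which all degrees are at
least `m`. -/
theorem embed {V : Type} [Fintype V] [DecidableEq V] (F : SimpleGraph V) [DecidableRel F.Adj]
    (m : ℕ) (par : ℕ → ℕ) (hpar : ∀ j, 1 ≤ j → j ≤ m → par j < j) (S : Finset V)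
    (hS : S.Nonempty) (hdeg : ∀ v ∈ S, m ≤ (S.filter (fun w => F.Adj v w)).card) :
    ∃ f : ℕ → V, (∀ i ≤ m, ∀ j ≤ m, f i = f j → i = j) ∧
      ∀ j, 1 ≤ j → j ≤ m → F.Adj (f j) (f (par j)) := by
  have main : ∀ k ≤ m, ∃ f : ℕ → V, (∀ i ≤ k, f i ∈ S) ∧
      (∀ i ≤ k, ∀ j ≤ k, f i = f j → i = j) ∧
      ∀ j, 1 ≤ j → j ≤ k → F.Adj (f j) (f (par j)) := by
    intro k
    induction k with
    | zero =>
      intro _
      obtain ⟨v, hv⟩ := hS
      exact ⟨fun _ => v, fun _ _ => hv, fun i hi j hj _ => by omega, fun j h1 h2 => by omega⟩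
    | succ k ih =>
      intro hk
      obtain ⟨f, hf1, hf2, hf3⟩ := ih (by omega)
      have hp := hpar (k + 1) (by omega) hk
      set u := f (par (k + 1)) with hu
      have huS : u ∈ S := hf1 _ (by omega)
      have hd := hdeg u huS
      have hcard : (((range (k + 1)).image f).erase u).card < (S.filter (fun w => F.Adj u w)).card := by
        have h1 : ((range (k + 1)).image f).card ≤ k + 1 := by
          have := Finset.card_image_le (s := range (k + 1)) (f := f)
          rwa [Finset.card_range] at this
        have h2 : u ∈ (range (k + 1)).image f :=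
          Finset.mem_image.2 ⟨par (k + 1), Finset.mem_range.2 (by omega), rfl⟩
        rw [Finset.card_erase_of_mem h2]
        have h3 : 0 < ((range (k + 1)).image f).card := Finset.card_pos.2 ⟨u, h2⟩
        omega
      obtain ⟨x, hx1, hx2⟩ := Finset.exists_mem_notMem_of_card_lt_card hcard
      rw [Finset.mem_filter] at hx1
      have hxu : x ≠ u := fun h => F.irrefl (h ▸ hx1.2)
      have hxf : ∀ i ≤ k, f i ≠ x := by
        intro i hi h
        apply hx2
        rw [Finset.mem_erase]
        exact ⟨hxu, Finset.mem_image.2 ⟨i, Finset.mem_range.2 (by omega), h⟩⟩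
      have hup : ∀ i ≤ k, Function.update f (k + 1) x i = f i := by
        intro i hi
        exact Function.update_of_ne (by omega) _ _
      have hup' : Function.update f (k + 1) x (k + 1) = x := Function.update_self _ _ _
      refine ⟨Function.update f (k + 1) x, ?_, ?_, ?_⟩
      · intro i hi
        rcases Nat.lt_or_ge i (k + 1) with h | h
        · rw [hup i (by omega)]; exact hf1 i (by omega)
        · have : i = k + 1 := by omega
          rw [this, hup']; exact hx1.1
      · intro i hi j hj hij
        rcases Nat.lt_or_ge i (k + 1) with h | h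
        · rcases Nat.lt_or_ge j (k + 1) with h' | h'
          · rw [hup i (by omega), hup j (by omega)] at hij
            exact hf2 i (by omega) j (by omega) hij
          · have hj' : j = k + 1 := by omega
            rw [hup i (by omega), hj', hup'] at hij
            exact absurd hij (hxf i (by omega))
        · have hi' : i = k + 1 := by omega
          rcases Nat.lt_or_ge j (k + 1) with h' | h'
          · rw [hup j (by omega), hi', hup'] at hij
            exact absurd hij.symm (hxf j (by omega))
          · omega
      · intro j h1 h2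
        have hpj := hpar j h1 (by omega)
        rcases Nat.lt_or_ge j (k + 1) with h | h
        · rw [hup j (by omega), hup (par j) (by omega)]
          exact hf3 j h1 (by omega)
        · have hj' : j = k + 1 := by omega
          rw [hj', hup', hup (par (k + 1)) (by omega), ← hu]
          exact hx1.2.symm
  obtain ⟨f, _, h2, h3⟩ := main m le_rfl
  exact ⟨f, h2, h3⟩

/-- Degenerate graphs have orientations with small outdegrees. -/
theorem orient {V : Type} [Fintype V] [DecidableEq V] (F : SimpleGraph V) [DecidableRel F.Adj]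
    (m : ℕ) (hfree : ∀ S : Finset V, S.Nonempty → ∃ v ∈ S, (S.filter (fun w => F.Adj v w)).card < m) :
    ∃ Y : Finset (V × V), (∀ u v, F.Adj u v ↔ ((u, v) ∈ Y ∨ (v, u) ∈ Y)) ∧
      (∀ u v, (u, v) ∈ Y → (v, u) ∉ Y) ∧
      ∀ u, (Y.filter (fun p => p.1 = u)).card + 1 ≤ m := by
  have main : ∀ (n : ℕ) (S : Finset V), S.card = n → ∃ Y : Finset (V × V),
      (∀ p ∈ Y, p.1 ∈ S ∧ p.2 ∈ S) ∧
      (∀ u ∈ S, ∀ v ∈ S, F.Adj u v ↔ ((u, v) ∈ Y ∨ (v, u) ∈ Y)) ∧
      (∀ u v, (u, v) ∈ Y → (v, u) ∉ Y) ∧
      ∀ u ∈ S, (Y.filter (fun p => p.1 = u)).card + 1 ≤ m := by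
    intro n
    induction n with
    | zero =>
      intro S hS
      rw [Finset.card_eq_zero] at hS
      subst hS
      refine ⟨∅, ?_, ?_, ?_, ?_⟩
      · intro p hp; simp at hp
      · intro u hu; simp at hu
      · intro u v h; simp at h
      · intro u hu; simp at hu
    | succ n ih =>
      intro S hS
      obtain ⟨v, hv, hvm⟩ := hfree S (Finset.card_pos.1 (by omega))
      obtain ⟨Y, hY1, hY2, hY3, hY4⟩ := ih (S.erase v) (by rw [Finset.card_erase_of_mem hv]; omega)
      have hvY : ∀ u, (v, u) ∉ Y := fun u h => by
        have := (hY1 _ h).1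
        simp at this
      have hYv : ∀ u, (u, v) ∉ Y := fun u h => by
        have := (hY1 _ h).2
        simp at this
      let Z : Finset (V × V) := (S.filter (fun w => F.Adj v w)).image (fun w => (v, w))
      have hZ : ∀ p, p ∈ Z ↔ p.1 = v ∧ p.2 ∈ S ∧ F.Adj v p.2 := by
        intro p
        simp only [Z, Finset.mem_image, Finset.mem_filter]
        constructor
        · rintro ⟨w, ⟨h1, h2⟩, rfl⟩
          exact ⟨rfl, h1, h2⟩
        · rintro ⟨h1, h2, h3⟩
          exact ⟨p.2, ⟨h2, h3⟩, by rw [← h1]⟩
      refine ⟨Y ∪ Z, ?_, ?_, ?_, ?_⟩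
      · intro p hp
        rcases Finset.mem_union.1 hp with h | h
        · have := hY1 p h
          exact ⟨Finset.mem_of_mem_erase this.1, Finset.mem_of_mem_erase this.2⟩
        · rw [hZ] at h
          exact ⟨h.1 ▸ hv, h.2.1⟩
      · intro a ha b hb
        simp only [Finset.mem_union, hZ]
        by_cases hav : a = v
        · subst hav
          by_cases hbv : b = a
          · subst hbv
            constructor
            · intro h; exact absurd h (F.irrefl)
            · rintro ((h | h) | (h | h))
              · exact absurd h (hvY _)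
              · exact h.2.2
              · exact absurd h (hvY _)
              · exact h.2.2
          · constructor
            · intro h; exact Or.inl (Or.inr ⟨rfl, hb, h⟩)
            · rintro ((h | h) | (h | h))
              · exact absurd h (hvY _)
              · exact h.2.2
              · exact absurd h (hYv _)
              · exact absurd h.1 hbv
        · by_cases hbv : b = v
          · subst hbv
            constructor
            · intro h; exact Or.inr (Or.inr ⟨rfl, ha, h.symm⟩)
            · rintro ((h | h) | (h | h))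
              · exact absurd h (hYv _)
              · exact absurd h.1 hav
              · exact absurd h (hvY _)
              · exact h.2.2.symm
          · rw [hY2 a (Finset.mem_erase.2 ⟨hav, ha⟩) b (Finset.mem_erase.2 ⟨hbv, hb⟩)]
            constructor
            · rintro (h | h)
              · exact Or.inl (Or.inl h)
              · exact Or.inr (Or.inl h)
            · rintro ((h | h) | (h | h))
              · exact Or.inl h
              · exact absurd h.1 hav
              · exact Or.inr h
              · exact absurd h.1 hbv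
      · intro a b hab hba
        rw [Finset.mem_union, hZ] at hab hba
        rcases hab with h | h
        · rcases hba with h' | h'
          · exact hY3 _ _ h h'
          · have h2 : b = v := h'.1
            rw [h2] at h
            exact hYv _ h
        · have h1 : a = v := h.1
          rcases hba with h' | h'
          · rw [h1] at h'
            exact hYv _ h'
          · have h2 : b = v := h'.1
            have h3 : F.Adj v b := h.2.2
            rw [h2] at h3
            exact F.irrefl h3
      · intro u hu
        rw [Finset.filter_union]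
        by_cases huv : u = v
        · subst huv
          have h1 : Y.filter (fun p => p.1 = u) = ∅ := by
            rw [Finset.filter_eq_empty_iff]
            intro p hp h
            have := (hY1 p hp).1
            rw [h] at this
            simp at this
          rw [h1, Finset.empty_union]
          have h2 : (Z.filter (fun p => p.1 = u)).card ≤ (S.filter (fun w => F.Adj u w)).card :=
            (Finset.card_filter_le _ _).trans Finset.card_image_le
          omega
        · have h1 : Z.filter (fun p => p.1 = u) = ∅ := by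
            rw [Finset.filter_eq_empty_iff]
            intro p hp h
            rw [hZ] at hp
            exact huv (h ▸ hp.1)
          rw [h1, Finset.union_empty]
          exact hY4 u (Finset.mem_erase.2 ⟨huv, hu⟩)
  obtain ⟨Y, _, h2, h3, h4⟩ := main _ univ rfl
  exact ⟨Y, fun u v => h2 u (Finset.mem_univ _) v (Finset.mem_univ _), h3,
    fun u => h4 u (Finset.mem_univ _)⟩

/-- Maximum cut: at least half of the edges leaving any vertex set cross the cut. -/
theorem maxcut {V : Type} [Fintype V] [DecidableEq V] (G : SimpleGraph V) [DecidableRel G.Adj] :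
    ∃ side : V → Bool, ∀ U : Finset V,
      (univ.filter (fun p : V × V => G.Adj p.1 p.2 ∧ p.1 ∈ U ∧ p.2 ∉ U)).card ≤
        2 * (univ.filter (fun p : V × V => G.Adj p.1 p.2 ∧ p.1 ∈ U ∧ p.2 ∉ U ∧
          side p.1 ≠ side p.2)).card := by
  let x : (V → Bool) → V × V → ℤ := fun s p => if G.Adj p.1 p.2 ∧ s p.1 ≠ s p.2 then 1 else 0
  obtain ⟨side, hside⟩ := Finite.exists_max (fun s : V → Bool => ∑ p, x s p)
  refine ⟨side, fun U => ?_⟩
  let s' : V → Bool := fun v => if v ∈ U then !(side v) else side v
  let y : V × V → ℤ := fun p =>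
    if G.Adj p.1 p.2 ∧ p.1 ∈ U ∧ p.2 ∉ U then (if side p.1 ≠ side p.2 then 1 else -1) else 0
  have h1 : ∀ p : V × V, x side p - x s' p = y p + y p.swap := by
    intro p
    obtain ⟨a, b⟩ := p
    simp only [x, y, s', Prod.swap_prod_mk]
    by_cases hab : G.Adj a b
    · have hba := hab.symm
      by_cases ha : a ∈ U <;> by_cases hb : b ∈ U <;>
        cases hsa : side a <;> cases hsb : side b <;> simp [hab, hba, ha, hb]
    · have hba : ¬ G.Adj b a := fun h => hab h.symm
      simp [hab, hba]
  have h2 : ∑ p : V × V, y p.swap = ∑ p, y p := Equiv.sum_comp (Equiv.prodComm V V) y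
  have h3 : 0 ≤ ∑ p, y p := by
    have h4 := hside s'
    have h5 : ∑ p, (x side p - x s' p) = ∑ p, y p + ∑ p, y p := by
      rw [Finset.sum_congr rfl (fun p _ => h1 p), Finset.sum_add_distrib, h2]
    rw [Finset.sum_sub_distrib] at h5
    have h6 : ∑ p, x s' p ≤ ∑ p, x side p := h4
    omega
  have h7 : ∑ p, y p = 2 * ((univ.filter (fun p : V × V => G.Adj p.1 p.2 ∧ p.1 ∈ U ∧ p.2 ∉ U ∧
          side p.1 ≠ side p.2)).card : ℤ) -
      ((univ.filter (fun p : V × V => G.Adj p.1 p.2 ∧ p.1 ∈ U ∧ p.2 ∉ U)).card : ℤ) := by
    rw [Finset.card_filter, Finset.card_filter]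
    push_cast
    rw [Finset.mul_sum, ← Finset.sum_sub_distrib]
    refine Finset.sum_congr rfl (fun p _ => ?_)
    simp only [y]
    by_cases h : G.Adj p.1 p.2 ∧ p.1 ∈ U ∧ p.2 ∉ U
    · rw [if_pos h, if_pos h]
      by_cases h' : side p.1 ≠ side p.2
      · rw [if_pos h', if_pos ⟨h.1, h.2.1, h.2.2, h'⟩]; norm_num
      · rw [if_neg h', if_neg (fun h'' => h' h''.2.2.2)]; norm_num
    · rw [if_neg h, if_neg h, if_neg (fun h'' => h ⟨h''.1, h''.2.1, h''.2.2.1⟩)]
      norm_num
  rw [h7] at h3
  omega

end Pool.Agent.H9.TD.T4
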