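import Pool.Agent.H9.TD.Defs
import Pool.Agent.H9.TD.TreeLem

set_option autoImplicit false

/-!
Decompositions of graphs into copies of a tree given by parents: basic operations, and the
reduction to an almost bipartite situation.
-/

namespace Pool.Agent.H9.TD

open Finset T4


/-! ### auxiliary lemmas -/

namespace X10

variable {V : Type}

/-- ordered pairs across `U` -/
def cs (G : SimpleGraph V) (U : Finset V) : Set (V × V) := {p | G.Adj p.1 p.2 ∧ p.1 ∈ U ∧ p.2 ∉ U}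

/-- the copy as a graph -/
def cp (par : ℕ → ℕ) (m : ℕ) (f : ℕ → V) : SimpleGraph V :=
  SimpleGraph.fromEdgeSet {e | ∃ j, (1 ≤ j ∧ j ≤ m) ∧ s(f j, f (par j)) = e}

theorem cp_le {par : ℕ → ℕ} {m : ℕ} {f : ℕ → V} {F : SimpleGraph V}
    (h : ∀ j, 1 ≤ j → j ≤ m → F.Adj (f j) (f (par j))) : cp par m f ≤ F := by
  intro u v huv
  unfold cp at huv
  rw [SimpleGraph.fromEdgeSet_adj] at huv
  obtain ⟨⟨j, hj, hjuv⟩, _⟩ := huv
  have h1 := h j hj.1 hj.2
  rw [← SimpleGraph.mem_edgeSet] at h1 ⊢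
  rwa [hjuv] at h1

theorem cp_adj {par : ℕ → ℕ} {m : ℕ} {f : ℕ → V}
    (hpar : ∀ j, 1 ≤ j → j ≤ m → par j < j)
    (hinj : ∀ i ≤ m, ∀ j ≤ m, f i = f j → i = j) (j : ℕ) (h1 : 1 ≤ j) (h2 : j ≤ m) :
    (cp par m f).Adj (f j) (f (par j)) := by
  unfold cp
  rw [SimpleGraph.fromEdgeSet_adj]
  refine ⟨⟨j, ⟨h1, h2⟩, rfl⟩, fun h => ?_⟩
  have h3 := hpar j h1 h2
  have h4 := hinj j h2 (par j) (by omega) h
  omega

theorem cp_dec {par : ℕ → ℕ} {m : ℕ} {f : ℕ → V}
    (hpar : ∀ j, 1 ≤ j → j ≤ m → par j < j)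
    (hinj : ∀ i ≤ m, ∀ j ≤ m, f i = f j → i = j) : TDec par m (cp par m f) := by
  refine ⟨Unit, inferInstance, fun _ => f, fun _ => hinj, fun _ j h1 h2 =>
    cp_adj hpar hinj j h1 h2, fun u v huv => ?_⟩
  unfold cp at huv
  rw [SimpleGraph.fromEdgeSet_adj] at huv
  obtain ⟨⟨j, hj, hjuv⟩, _⟩ := huv
  refine ⟨((), j), ⟨hj, hjuv⟩, ?_⟩
  rintro ⟨_, j'⟩ ⟨hj', hjuv'⟩
  simp only at hj' hjuv'
  have hpj := hpar j hj.1 hj.2
  have hpj' := hpar j' hj'.1 hj'.2
  rw [← hjuv, Sym2.eq_iff] at hjuv'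
  rcases hjuv' with ⟨h1, _⟩ | ⟨h1, h2⟩
  · rw [hinj j' hj'.2 j hj.2 h1]
  · have h3 := hinj j' hj'.2 (par j) (by omega) h1
    have h4 := hinj (par j') (by omega) j hj.2 h2
    omega

theorem card_edges {par : ℕ → ℕ} {m : ℕ} {G : SimpleGraph V} (h : TDec par m G) :
    m ∣ G.edgeSet.ncard := by
  classical
  obtain ⟨ι, _, f, hinj, hadj, huniq⟩ := h
  have h1 : G.edgeSet = (((univ : Finset ι) ×ˢ Finset.Icc 1 m).image
      (fun p => s(f p.1 p.2, f p.1 (par p.2))) : Finset (Sym2 V)) := by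
    ext e
    induction e using Sym2.ind with
    | _ u v =>
      rw [SimpleGraph.mem_edgeSet, Finset.mem_coe, Finset.mem_image]
      constructor
      · intro huv
        obtain ⟨p, ⟨hp1, hp2⟩, _⟩ := huniq u v huv
        exact ⟨p, by rw [Finset.mem_product]; exact ⟨Finset.mem_univ _, Finset.mem_Icc.2 hp1⟩, hp2⟩
      · rintro ⟨p, hp, hpuv⟩
        rw [Finset.mem_product, Finset.mem_Icc] at hp
        have h2 := hadj p.1 p.2 hp.2.1 hp.2.2
        rw [← SimpleGraph.mem_edgeSet] at h2 ⊢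
        rwa [hpuv] at h2
  rw [h1, Set.ncard_coe_finset, Finset.card_image_of_injOn, Finset.card_product, Nat.card_Icc]
  · simp
  · intro p hp p' hp' hpp'
    rw [Finset.mem_coe, Finset.mem_product, Finset.mem_Icc] at hp hp'
    have h2 := hadj p.1 p.2 hp.2.1 hp.2.2
    exact (huniq _ _ h2).unique ⟨hp.2, rfl⟩ ⟨hp'.2, hpp'.symm⟩

theorem card_cp {par : ℕ → ℕ} {m : ℕ} {f : ℕ → V}
    (hpar : ∀ j, 1 ≤ j → j ≤ m → par j < j)
    (hinj : ∀ i ≤ m, ∀ j ≤ m, f i = f j → i = j) : (cp par m f).edgeSet.ncard = m := by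
  classical
  have h1 : (cp par m f).edgeSet = ((Finset.Icc 1 m).image
      (fun j => s(f j, f (par j))) : Finset (Sym2 V)) := by
    ext e
    induction e using Sym2.ind with
    | _ u v =>
      rw [SimpleGraph.mem_edgeSet, Finset.mem_coe, Finset.mem_image]
      constructor
      · intro huv
        unfold cp at huv
        rw [SimpleGraph.fromEdgeSet_adj] at huv
        obtain ⟨⟨j, hj, hjuv⟩, _⟩ := huv
        exact ⟨j, Finset.mem_Icc.2 hj, hjuv⟩
      · rintro ⟨j, hj, hjuv⟩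
        rw [Finset.mem_Icc] at hj
        have h2 := cp_adj hpar hinj j hj.1 hj.2
        rw [← SimpleGraph.mem_edgeSet] at h2 ⊢
        rwa [hjuv] at h2
  rw [h1, Set.ncard_coe_finset, Finset.card_image_of_injOn, Nat.card_Icc]
  · simp
  · intro j hj j' hj' hjj
    rw [Finset.mem_coe, Finset.mem_Icc] at hj hj'
    have hpj := hpar j hj.1 hj.2
    have hpj' := hpar j' hj'.1 hj'.2
    simp only [Sym2.eq_iff] at hjj
    rcases hjj with ⟨h1, _⟩ | ⟨h1, h2⟩
    · exact hinj j hj.2 j' hj'.2 h1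
    · have h3 := hinj j hj.2 (par j') (by omega) h1
      have h4 := hinj (par j) (by omega) j' hj'.2 h2
      omega

variable [Fintype V]

theorem cs_finite (G : SimpleGraph V) (U : Finset V) : (cs G U).Finite := Set.toFinite _

theorem cs_le_edges (G : SimpleGraph V) (U : Finset V) : (cs G U).ncard ≤ G.edgeSet.ncard := by
  classical
  refine Set.ncard_le_ncard_of_injOn (fun p => s(p.1, p.2)) ?_ ?_ (Set.toFinite _)
  · rintro p hp
    exact hp.1
  · rintro ⟨u, v⟩ hp ⟨u', v'⟩ hp' h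
    simp only [Sym2.eq_iff] at h
    rcases h with ⟨h1, h2⟩ | ⟨h1, h2⟩
    · rw [h1, h2]
    · exfalso
      apply hp'.2.2
      change v' ∈ U
      rw [← h1]
      exact hp.2.1

theorem edges_sup {G H : SimpleGraph V} (hd : Disjoint G H) :
    (G ⊔ H).edgeSet.ncard = G.edgeSet.ncard + H.edgeSet.ncard := by
  classical
  rw [SimpleGraph.edgeSet_sup, Set.ncard_union_eq (SimpleGraph.disjoint_edgeSet.2 hd)
    (Set.toFinite _) (Set.toFinite _)]

theorem cs_sdiff (G H : SimpleGraph V) (U : Finset V) :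
    (cs G U).ncard ≤ (cs (G \ H) U).ncard + H.edgeSet.ncard := by
  classical
  have h1 : cs G U ⊆ cs (G \ H) U ∪ cs H U := by
    rintro p ⟨hp1, hp2⟩
    by_cases h : H.Adj p.1 p.2
    · exact Or.inr ⟨h, hp2⟩
    · exact Or.inl ⟨by rw [SimpleGraph.sdiff_adj]; exact ⟨hp1, h⟩, hp2⟩
  calc (cs G U).ncard ≤ (cs (G \ H) U ∪ cs H U).ncard := Set.ncard_le_ncard h1 (Set.toFinite _)
    _ ≤ (cs (G \ H) U).ncard + (cs H U).ncard := Set.ncard_union_le _ _
    _ ≤ _ := Nat.add_le_add_left (cs_le_edges H U) _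

theorem deg_eq [DecidableEq V] (G : SimpleGraph V) [DecidableRel G.Adj] (v : V) :
    ((univ : Finset V).filter (fun w => G.Adj v w)).card = (cs G {v}).ncard := by
  classical
  have h : cs G {v} = (((univ : Finset V).filter (fun w => G.Adj v w)).image (fun w => (v, w)) :
      Finset (V × V)) := by
    ext ⟨u, w⟩
    simp only [cs, Finset.mem_singleton, Finset.coe_image, Finset.coe_filter, Finset.mem_univ,
      true_and, Set.mem_image, Prod.mk.injEq]
    constructor
    · rintro ⟨h1, h2, h3⟩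
      simp only at h1 h2 h3
      subst h2
      exact ⟨w, h1, rfl, rfl⟩
    · rintro ⟨w', h1, h2, h3⟩
      subst h2 h3
      exact ⟨h1, rfl, fun h => G.ne_of_adj h1 h.symm⟩
  rw [h, Set.ncard_coe_finset, Finset.card_image_of_injective]
  intro a b hab
  simpa using hab

theorem peel [DecidableEq V] [Nontrivial V] (G : SimpleGraph V)
    (m K C : ℕ) (par : ℕ → ℕ) (hpar : ∀ j, 1 ≤ j → j ≤ m → par j < j)
    (hcut : ∀ U : Finset V, U.Nonempty → U ≠ univ → C + K * m ≤ (cs G U).ncard)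
    (hbot : TDec par m (⊥ : SimpleGraph V))
    (hsup : ∀ G H : SimpleGraph V, TDec par m G → TDec par m H → Disjoint G H →
      TDec par m (G ⊔ H)) (r : ℕ) (hr : r ≤ K) :
    ∃ H : SimpleGraph V, H ≤ G ∧ TDec par m H ∧ H.edgeSet.ncard = r * m := by
  classical
  induction r with
  | zero => exact ⟨⊥, bot_le, hbot, by simp⟩
  | succ r ih =>
    obtain ⟨H, hHG, hH, hcard⟩ := ih (by omega)
    have hdeg : ∀ v ∈ (univ : Finset V),
        m ≤ ((univ : Finset V).filter (fun w => (G \ H).Adj v w)).card := by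
      intro v _
      rw [deg_eq]
      have h1 : ({v} : Finset V) ≠ univ := by
        intro h
        obtain ⟨w, hw⟩ := exists_ne v
        have h2 : w ∈ ({v} : Finset V) := by rw [h]; exact Finset.mem_univ w
        exact hw (Finset.mem_singleton.1 h2)
      have h2 := hcut {v} (Finset.singleton_nonempty v) h1
      have h3 := cs_sdiff G H {v}
      rw [hcard] at h3
      have h4 : (r + 1) * m ≤ K * m := Nat.mul_le_mul_right m hr
      have h5 : (r + 1) * m = r * m + m := by ring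
      omega
    obtain ⟨f, hinj, hadj⟩ := embed (G \ H) m par hpar univ Finset.univ_nonempty hdeg
    have hle : cp par m f ≤ G \ H := cp_le hadj
    have hdisj : Disjoint H (cp par m f) := by
      exact (disjoint_sdiff_self_right).mono_right hle
    refine ⟨H ⊔ cp par m f, sup_le hHG (hle.trans sdiff_le), hsup _ _ hH (cp_dec hpar hinj) hdisj, ?_⟩
    rw [edges_sup hdisj, hcard, card_cp hpar hinj]
    ring

end X10

theorem TDec.bot {V : Type} (par : ℕ → ℕ) (m : ℕ) : TDec par m (⊥ : SimpleGraph V) :=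
  ⟨Empty, inferInstance, fun i => i.elim, fun i => i.elim, fun i => i.elim, fun _ _ h => h.elim⟩

theorem TDec.sup {V : Type} {par : ℕ → ℕ} {m : ℕ} {G H : SimpleGraph V} (hG : TDec par m G)
    (hH : TDec par m H) (hd : Disjoint G H) : TDec par m (G ⊔ H) := by
  obtain ⟨ι, _, f, hinj, hadj, huniq⟩ := hG
  obtain ⟨κ, _, g, hinj', hadj', huniq'⟩ := hH
  have hno : ∀ u v, G.Adj u v → H.Adj u v → False := by
    intro u v h1 h2
    have h3 : (G ⊓ H).Adj u v := ⟨h1, h2⟩
    rw [hd.eq_bot] at h3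
    exact h3
  refine ⟨ι ⊕ κ, inferInstance, Sum.elim f g, ?_, ?_, ?_⟩
  · rintro (i | i)
    · exact hinj i
    · exact hinj' i
  · rintro (i | i) j h1 h2
    · exact Or.inl (hadj i j h1 h2)
    · exact Or.inr (hadj' i j h1 h2)
  · rintro u v (huv | huv)
    · obtain ⟨p, ⟨hp1, hp2⟩, hp3⟩ := huniq u v huv
      refine ⟨(Sum.inl p.1, p.2), ⟨hp1, hp2⟩, ?_⟩
      rintro ⟨i | i, j⟩ ⟨h1, h2⟩
      · have h3 := hp3 (i, j) ⟨h1, h2⟩
        rw [← h3]
      · exfalso
        have h3 := hadj' i j h1.1 h1.2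
        rw [← SimpleGraph.mem_edgeSet] at h3
        have h4 : s(g i j, g i (par j)) = s(u, v) := h2
        rw [h4] at h3
        exact hno u v huv h3
    · obtain ⟨p, ⟨hp1, hp2⟩, hp3⟩ := huniq' u v huv
      refine ⟨(Sum.inr p.1, p.2), ⟨hp1, hp2⟩, ?_⟩
      rintro ⟨i | i, j⟩ ⟨h1, h2⟩
      · exfalso
        have h3 := hadj i j h1.1 h1.2
        rw [← SimpleGraph.mem_edgeSet] at h3
        have h4 : s(f i j, f i (par j)) = s(u, v) := h2
        rw [h4] at h3
        exact hno u v h3 huv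
      · have h3 := hp3 (i, j) ⟨h1, h2⟩
        rw [← h3]

/-- The graph is the union of a decomposed graph `G1` and of a graph `G2` with number of edges
divisible by `m * K`, whose edges between the two sides have large cuts and whose other edges
are oriented with small outdegrees. -/
theorem reduction {V : Type} [Fintype V] [DecidableEq V] (G : SimpleGraph V)
    (m K C : ℕ) (hm : 1 ≤ m) (hK : 0 < K) (par : ℕ → ℕ) (hpar : ∀ j, 1 ≤ j → j ≤ m → par j < j)
    (hcut : ∀ U : Finset V, U.Nonempty → U ≠ univ →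
      2 * (C + K * m) ≤ {p : V × V | G.Adj p.1 p.2 ∧ p.1 ∈ U ∧ p.2 ∉ U}.ncard)
    (hdiv : m ∣ G.edgeSet.ncard) :
    ∃ (side : V → Bool) (G1 G2 : SimpleGraph V) (Y : Finset (V × V)),
      G1 ⊔ G2 = G ∧ Disjoint G1 G2 ∧ TDec par m G1 ∧ m * K ∣ G2.edgeSet.ncard ∧
      (∀ u v, G2.Adj u v ∧ side u = side v ↔ ((u, v) ∈ Y ∨ (v, u) ∈ Y)) ∧
      (∀ u v, (u, v) ∈ Y → (v, u) ∉ Y) ∧
      (∀ u, (Y.filter (fun p => p.1 = u)).card + 1 ≤ m) ∧
      ∀ U : Finset V, U.Nonempty → U ≠ univ →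
        C ≤ {p : V × V | G2.Adj p.1 p.2 ∧ p.1 ∈ U ∧ p.2 ∉ U ∧ side p.1 ≠ side p.2}.ncard := by
  classical
  obtain ⟨side, hside⟩ := maxcut G
  let Gc : SimpleGraph V :=
    { Adj := fun u v => G.Adj u v ∧ side u ≠ side v
      symm := ⟨fun u v h => ⟨h.1.symm, h.2.symm⟩⟩
      loopless := ⟨fun u h => G.loopless.irrefl u h.1⟩ }
  let Gi : SimpleGraph V :=
    { Adj := fun u v => G.Adj u v ∧ side u = side v
      symm := ⟨fun u v h => ⟨h.1.symm, h.2.symm⟩⟩
      loopless := ⟨fun u h => G.loopless.irrefl u h.1⟩ }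
  have hci : Disjoint Gc Gi := by
    rw [disjoint_iff]
    ext u v
    constructor
    · rintro ⟨h1, h2⟩
      exact h1.2 h2.2
    · intro h; exact h.elim
  have hGci : Gc ⊔ Gi = G := by
    ext u v
    constructor
    · rintro (h | h)
      · exact h.1
      · exact h.1
    · intro h
      by_cases h1 : side u = side v
      · exact Or.inr ⟨h, h1⟩
      · exact Or.inl ⟨h, h1⟩
  -- cuts of the bipartite part
  have hcutc : ∀ U : Finset V, U.Nonempty → U ≠ univ → C + K * m ≤ (X10.cs Gc U).ncard := by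
    intro U hU hU'
    have h1 := hcut U hU hU'
    have h2 := hside U
    have h3 : {p : V × V | G.Adj p.1 p.2 ∧ p.1 ∈ U ∧ p.2 ∉ U}.ncard =
        (univ.filter (fun p : V × V => G.Adj p.1 p.2 ∧ p.1 ∈ U ∧ p.2 ∉ U)).card := by
      rw [← Set.ncard_coe_finset]
      congr 1
      ext p
      simp
    have h4 : (X10.cs Gc U).ncard = (univ.filter (fun p : V × V => G.Adj p.1 p.2 ∧ p.1 ∈ U ∧
        p.2 ∉ U ∧ side p.1 ≠ side p.2)).card := by
      rw [← Set.ncard_coe_finset]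
      congr 1
      ext p
      simp only [Finset.coe_filter, Finset.mem_univ, true_and]
      constructor
      · rintro ⟨⟨ha, hb⟩, hc, hd⟩
        exact ⟨ha, hc, hd, hb⟩
      · rintro ⟨ha, hc, hd, hb⟩
        exact ⟨⟨ha, hb⟩, hc, hd⟩
    omega
  -- the maximal decomposed part of the inner graph
  have hfin : {H : SimpleGraph V | H ≤ Gi ∧ TDec par m H}.Finite := Set.toFinite _
  obtain ⟨G1a, hG1a, hmax⟩ := Set.exists_max_image {H : SimpleGraph V | H ≤ Gi ∧ TDec par m H}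
    (fun H => H.edgeSet.ncard) hfin ⟨⊥, bot_le, TDec.bot par m⟩
  obtain ⟨hG1a1, hG1a2⟩ : G1a ≤ Gi ∧ TDec par m G1a := hG1a
  set Fi : SimpleGraph V := Gi \ G1a with hFi
  have hfree : ∀ S : Finset V, S.Nonempty → ∃ v ∈ S, (S.filter (fun w => Fi.Adj v w)).card < m := by
    intro S hS
    by_contra hcon
    push Not at hcon
    obtain ⟨f, hinj, hadj⟩ := embed Fi m par hpar S hS hcon
    have hle : X10.cp par m f ≤ Fi := X10.cp_le hadj
    have hdisj : Disjoint G1a (X10.cp par m f) := (disjoint_sdiff_self_right).mono_right hle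
    have h1 := hmax (G1a ⊔ X10.cp par m f)
      ⟨sup_le hG1a1 (hle.trans sdiff_le), hG1a2.sup (X10.cp_dec hpar hinj) hdisj⟩
    rw [X10.edges_sup hdisj, X10.card_cp hpar hinj] at h1
    omega
  obtain ⟨Y, hY1, hY2, hY3⟩ := orient Fi m hfree
  have hGiF : G1a ⊔ Fi = Gi := sup_sdiff_cancel_right hG1a1
  have hdF : Disjoint G1a Fi := disjoint_sdiff_self_right
  -- the number of edges
  have he1 : G.edgeSet.ncard = Gc.edgeSet.ncard + (G1a.edgeSet.ncard + Fi.edgeSet.ncard) := by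
    rw [← X10.edges_sup hdF, hGiF, ← X10.edges_sup hci, hGci]
  have he2 : m ∣ Gc.edgeSet.ncard + Fi.edgeSet.ncard := by
    have h1 := X10.card_edges hG1a2
    rw [he1] at hdiv
    have h2 : Gc.edgeSet.ncard + (G1a.edgeSet.ncard + Fi.edgeSet.ncard) =
      (Gc.edgeSet.ncard + Fi.edgeSet.ncard) + G1a.edgeSet.ncard := by ring
    rw [h2] at hdiv
    exact (Nat.dvd_add_left h1).1 hdiv
  obtain ⟨q, hq⟩ := he2
  -- peeling
  obtain ⟨H, hHc, hHT, hHe⟩ : ∃ H : SimpleGraph V, H ≤ Gc ∧ TDec par m H ∧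
      H.edgeSet.ncard = (q % K) * m := by
    rcases subsingleton_or_nontrivial V with hV | hV
    · have h0 : ∀ F : SimpleGraph V, F.edgeSet.ncard = 0 := by
        intro F
        have : F = ⊥ := by
          ext u v
          constructor
          · intro h
            exact absurd (Subsingleton.elim u v) (F.ne_of_adj h)
          · intro h; exact h.elim
        rw [this]
        simp
      rw [h0, h0] at hq
      have hq0 : q = 0 := by
        rcases Nat.mul_eq_zero.1 hq.symm with h | h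
        · omega
        · exact h
      exact ⟨⊥, bot_le, TDec.bot par m, by rw [hq0, Nat.zero_mod, zero_mul]; exact h0 _⟩
    · exact X10.peel Gc m K C par hpar hcutc (TDec.bot par m) (fun _ _ a b c => a.sup b c) _
        (Nat.mod_lt q hK).le
  have hdH : Disjoint H (Gc \ H) := disjoint_sdiff_self_right
  have hGcH : H ⊔ (Gc \ H) = Gc := sup_sdiff_cancel_right hHc
  have hd1 : Disjoint G1a H := (hci.symm.mono_left hG1a1).mono_right hHc
  have hd2 : Disjoint (Gc \ H) Fi := (hci.mono_left sdiff_le).mono_right sdiff_le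
  have he3 : (Gc \ H).edgeSet.ncard + (q % K) * m = Gc.edgeSet.ncard := by
    rw [← hHe, add_comm, ← X10.edges_sup hdH, hGcH]
  refine ⟨side, G1a ⊔ H, (Gc \ H) ⊔ Fi, Y, ?_, ?_, hG1a2.sup hHT hd1, ?_, ?_, hY2, hY3, ?_⟩
  · calc G1a ⊔ H ⊔ (Gc \ H ⊔ Fi) = (H ⊔ Gc \ H) ⊔ (G1a ⊔ Fi) := by ac_rfl
      _ = G := by rw [hGcH, hGiF, hGci]
  · rw [disjoint_sup_left, disjoint_sup_right, disjoint_sup_right]
    exact ⟨⟨(hci.symm.mono_left hG1a1).mono_right sdiff_le, hdF⟩,
      ⟨hdH, (hci.mono_left hHc).mono_right sdiff_le⟩⟩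
  · rw [X10.edges_sup hd2]
    have h1 : (Gc \ H).edgeSet.ncard + Fi.edgeSet.ncard + (q % K) * m = m * q := by
      rw [← hq, ← he3]; ring
    have h2 : m * q = m * K * (q / K) + (q % K) * m := by
      conv_lhs => rw [← Nat.div_add_mod q K]
      ring
    exact ⟨q / K, by omega⟩
  · intro u v
    rw [← hY1 u v]
    constructor
    · rintro ⟨h1 | h1, h2⟩
      · exact absurd h2 (h1.1).2
      · exact h1
    · intro h
      exact ⟨Or.inr h, h.1.2⟩
  · intro U hU hU'
    have h1 := hcutc U hU hU'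
    have h2 := X10.cs_sdiff Gc H U
    have h3 : (X10.cs (Gc \ H) U).ncard ≤ {p : V × V | ((Gc \ H) ⊔ Fi).Adj p.1 p.2 ∧ p.1 ∈ U ∧
        p.2 ∉ U ∧ side p.1 ≠ side p.2}.ncard := by
      refine Set.ncard_le_ncard ?_ (Set.toFinite _)
      rintro p ⟨hp1, hp2, hp3⟩
      exact ⟨Or.inl hp1, hp2, hp3, hp1.1.2⟩
    rw [hHe] at h2
    have h4 : (q % K) * m ≤ K * m := Nat.mul_le_mul_right m (Nat.mod_lt q hK).le
    omega

end Pool.Agent.H9.TD
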