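import Pool.Agent.H9.TD.Defs

set_option autoImplicit false

/-!
From copies of a tree given by parents to subgraphs; cuts of highly edge-connected graphs.
-/

namespace Pool.Agent.H9.TD

open Finset

/-- The subgraph of `G` formed by one copy of the tree. -/
def copySub {V : Type} (par : ℕ → ℕ) (m : ℕ) (hpar : ∀ j, 1 ≤ j → j ≤ m → par j < j)
    (G : SimpleGraph V) (g : ℕ → V)
    (hg : ∀ j, 1 ≤ j → j ≤ m → G.Adj (g j) (g (par j))) : G.Subgraph where
  verts := {v | ∃ r, r ≤ m ∧ g r = v}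
  Adj u v := ∃ j, 1 ≤ j ∧ j ≤ m ∧ s(g j, g (par j)) = s(u, v)
  adj_sub := by
    rintro u v ⟨j, h1, h2, h3⟩
    have h := hg j h1 h2
    rcases Sym2.eq_iff.mp h3 with ⟨rfl, rfl⟩ | ⟨rfl, rfl⟩
    · exact h
    · exact h.symm
  edge_vert := by
    rintro u v ⟨j, h1, h2, h3⟩
    have h := hpar j h1 h2
    rcases Sym2.eq_iff.mp h3 with ⟨rfl, rfl⟩ | ⟨rfl, rfl⟩
    · exact ⟨j, h2, rfl⟩
    · exact ⟨par j, by omega, rfl⟩
  symm := by
    constructor
    rintro u v ⟨j, h1, h2, h3⟩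
    exact ⟨j, h1, h2, h3.trans Sym2.eq_swap⟩

theorem subgraphs_of_TDec {W V : Type} [Fintype W] (T : SimpleGraph W) (m : ℕ)
    (w : Fin (m + 1) ≃ W) (par : ℕ → ℕ) (hpar : ∀ j, 1 ≤ j → j ≤ m → par j < j)
    (hadj : ∀ i j : Fin (m + 1), T.Adj (w i) (w j) ↔
        (1 ≤ (j : ℕ) ∧ par j = i) ∨ (1 ≤ (i : ℕ) ∧ par i = j))
    (G : SimpleGraph V) (h : TDec par m G) :
    ∃ (k : ℕ) (H : Fin k → G.Subgraph),
      (∀ i, Nonempty (T ≃g (H i).coe)) ∧ ∀ e ∈ G.edgeSet, ∃! i, e ∈ (H i).edgeSet := by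
  obtain ⟨ι, hι, f, hinj, hf, huniq⟩ := h
  let e := Fintype.equivFin ι
  refine ⟨Fintype.card ι, fun i => copySub par m hpar G (f (e.symm i)) (hf (e.symm i)), ?_, ?_⟩
  · intro i
    let g := f (e.symm i)
    have hginj : ∀ r ≤ m, ∀ r' ≤ m, g r = g r' → r = r' := hinj (e.symm i)
    let S := copySub par m hpar G (f (e.symm i)) (hf (e.symm i))
    let φ : W → S.verts := fun x => ⟨g (w.symm x : Fin (m + 1)), (w.symm x : Fin (m + 1)), by omega, rfl⟩
    have hφ : Function.Bijective φ := by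
      constructor
      · intro x y hxy
        have h1 : g (w.symm x : Fin (m + 1)) = g (w.symm y : Fin (m + 1)) := congrArg Subtype.val hxy
        have h2 := hginj _ (by omega) _ (by omega) h1
        exact w.symm.injective (Fin.ext h2)
      · rintro ⟨v, r, hr, rfl⟩
        refine ⟨w ⟨r, by omega⟩, Subtype.ext ?_⟩
        show g _ = g r
        rw [Equiv.symm_apply_apply]
    refine ⟨⟨Equiv.ofBijective φ hφ, ?_⟩⟩
    intro x y
    obtain ⟨a, rfl⟩ := w.surjective x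
    obtain ⟨b, rfl⟩ := w.surjective y
    rw [hadj]
    have hval : ∀ c : Fin (m + 1), ((Equiv.ofBijective φ hφ (w c) : S.verts) : V) = g c := by
      intro c
      show g _ = g c
      rw [Equiv.symm_apply_apply]
    rw [SimpleGraph.Subgraph.coe_adj]
    show S.Adj ((Equiv.ofBijective φ hφ (w a) : S.verts) : V) ((Equiv.ofBijective φ hφ (w b) : S.verts) : V) ↔ _
    rw [hval, hval]
    constructor
    · rintro ⟨j, h1, h2, h3⟩
      have hp := hpar j h1 h2
      rcases Sym2.eq_iff.mp h3 with ⟨h4, h5⟩ | ⟨h4, h5⟩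
      · have h6 := hginj _ h2 _ (by omega) h4
        have h7 := hginj _ (by omega) _ (by omega) h5
        right
        rw [← h6, ← h7]
        exact ⟨h1, rfl⟩
      · have h6 := hginj _ h2 _ (by omega) h4
        have h7 := hginj _ (by omega) _ (by omega) h5
        left
        rw [← h6, ← h7]
        exact ⟨h1, rfl⟩
    · rintro (⟨h1, h2⟩ | ⟨h1, h2⟩)
      · refine ⟨b, h1, by omega, ?_⟩
        rw [Sym2.eq_iff]
        right
        exact ⟨rfl, by show g (par b) = g a; rw [h2]⟩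
      · refine ⟨a, h1, by omega, ?_⟩
        rw [Sym2.eq_iff]
        left
        exact ⟨rfl, by show g (par a) = g b; rw [h2]⟩
  · intro x hx
    induction x using Sym2.ind with
    | _ u v =>
      obtain ⟨⟨i, j⟩, ⟨⟨hj1, hj2⟩, hj3⟩, hu⟩ := huniq u v hx
      refine ⟨e i, ?_, ?_⟩
      · show (copySub par m hpar G (f (e.symm (e i))) (hf (e.symm (e i)))).Adj u v
        refine ⟨j, hj1, hj2, ?_⟩
        rw [Equiv.symm_apply_apply]
        exact hj3
      · rintro i' ⟨j', h1, h2, h3⟩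
        have := hu (e.symm i', j') ⟨⟨h1, h2⟩, h3⟩
        have h4 : e.symm i' = i := congrArg Prod.fst this
        rw [← h4, Equiv.apply_symm_apply]

/-- Cuts of a graph that stays connected after the deletion of fewer than `k` edges. -/
theorem cut_of_connected {V : Type} [Fintype V] (G : SimpleGraph V) (k : ℕ)
    (h : ∀ s : Set (Sym2 V), s.ncard < k → (G.deleteEdges s).Connected)
    (U : Finset V) (hU : U.Nonempty) (hU' : ∃ v, v ∉ U) :
    k ≤ {p : V × V | G.Adj p.1 p.2 ∧ p.1 ∈ U ∧ p.2 ∉ U}.ncard := by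
  classical
  by_contra hlt
  push Not at hlt
  let P := {p : V × V | G.Adj p.1 p.2 ∧ p.1 ∈ U ∧ p.2 ∉ U}
  have hs : ((fun p : V × V => s(p.1, p.2)) '' P).ncard < k :=
    lt_of_le_of_lt (Set.ncard_image_le (Set.toFinite P)) hlt
  have hc := h _ hs
  obtain ⟨u, hu⟩ := hU
  obtain ⟨v, hv⟩ := hU'
  obtain ⟨p⟩ := hc.preconnected u v
  obtain ⟨d, _, hd1, hd2⟩ := p.exists_boundary_dart (U : Set V) hu hv
  have hadj := d.adj
  rw [SimpleGraph.deleteEdges_adj] at hadj
  exact hadj.2 ⟨(d.fst, d.snd), ⟨hadj.1, hd1, hd2⟩, rfl⟩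

end Pool.Agent.H9.TD
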