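import Pool.Agent.H9.TD.Glue
import Pool.Agent.H9.TD.Reduction
import Pool.Agent.H9.TD.Subgraphs

set_option autoImplicit false

/-!
Polynomial edge-connectivity suffices for decompositions into copies of a tree.
-/

namespace Pool.Agent.H9.TD

open Finset T4

/-- Graphs with large cuts are decomposed into copies of the tree. -/
theorem dec_of_cuts {V : Type} [Fintype V] [DecidableEq V] (G : SimpleGraph V) (m : ℕ)
    (hm : 1 ≤ m) (par : ℕ → ℕ) (hpar : ∀ j, 1 ≤ j → j ≤ m → par j < j)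
    (hcut : ∀ U : Finset V, U.Nonempty → U ≠ univ →
      1000000000000 * m ^ 12 ≤ {p : V × V | G.Adj p.1 p.2 ∧ p.1 ∈ U ∧ p.2 ∉ U}.ncard)
    (hdiv : m ∣ G.edgeSet.ncard) : TDec par m G := by
  have hK : 0 < KK m := KK_pos hm
  have hbound : 2 * (16 * m ^ 2 * KK m + KK m * m) ≤ 1000000000000 * m ^ 12 := by
    unfold KK BB
    have h1 : 2 * (16 * m ^ 2 * (120 * (200000000 * m ^ 8) * m ^ 2) +
        120 * (200000000 * m ^ 8) * m ^ 2 * m) =
        768000000000 * m ^ 12 + 48000000000 * m ^ 11 := by ring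
    rw [h1]
    have h2 : m ^ 11 ≤ m ^ 12 := Nat.pow_le_pow_right hm (by norm_num)
    omega
  obtain ⟨side, G1, G2, Y, h1, h2, h3, h4, h5, h6, h7, h8⟩ := reduction G m (KK m)
    (16 * m ^ 2 * KK m) hm hK par hpar (fun U hU hU' => hbound.trans (hcut U hU hU')) hdiv
  rw [← h1]
  exact h3.sup (dec_of_almost_bipartite m hm par hpar side G2 Y h4 h5 h6 h7 h8) h2

end Pool.Agent.H9.TD
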