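import Mathlib
import Pool.Graph.R_pool_sql_team_5be1d20b.H8.MatroidUnion
import Pool.Graph.R_seed8.H150R2.Konig

set_option autoImplicit false

/-!
Many disjoint conflict-free perfect matchings.
-/

namespace Pool.Agent.H9.TD.T1

open Finset

namespace T1

/-- rank function of a partition matroid -/
def prk {α ι : Type} [DecidableEq α] [DecidableEq ι] (c : α → ι) (R : Finset ι) (r : ℕ)
    (A : Finset α) : ℕ := ∑ i ∈ R, min r (A.filter (fun x => c x = i)).card

lemma prk_empty {α ι : Type} [DecidableEq α] [DecidableEq ι] (c : α → ι) (R : Finset ι) (r : ℕ) :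
    prk c R r (∅ : Finset α) = 0 := by
  simp [prk]

lemma prk_mono {α ι : Type} [DecidableEq α] [DecidableEq ι] (c : α → ι) (R : Finset ι) (r : ℕ)
    {A B : Finset α} (h : A ⊆ B) : prk c R r A ≤ prk c R r B := by
  unfold prk
  refine sum_le_sum fun i _ => ?_
  exact min_le_min le_rfl (card_le_card (filter_subset_filter _ h))

lemma prk_step {α ι : Type} [DecidableEq α] [DecidableEq ι] (c : α → ι) (R : Finset ι) (r : ℕ)
    (A : Finset α) (x : α) : prk c R r (insert x A) ≤ prk c R r A + 1 := by
  unfold prk
  have h1 : ∀ i ∈ R, min r ((insert x A).filter (fun y => c y = i)).card ≤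
      min r (A.filter (fun y => c y = i)).card + (if c x = i then 1 else 0) := by
    intro i _
    rw [filter_insert]
    split_ifs with h
    · have := card_insert_le x (A.filter (fun y => c y = i))
      omega
    · omega
  refine (sum_le_sum h1).trans ?_
  rw [sum_add_distrib]
  gcongr
  rw [sum_ite_eq]
  split_ifs <;> omega

lemma prk_submod {α ι : Type} [DecidableEq α] [DecidableEq ι] (c : α → ι) (R : Finset ι) (r : ℕ)
    (A B : Finset α) :
    prk c R r (A ∪ B) + prk c R r (A ∩ B) ≤ prk c R r A + prk c R r B := by
  unfold prk
  rw [← sum_add_distrib, ← sum_add_distrib]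
  refine sum_le_sum fun i _ => ?_
  rw [filter_union]
  have e : (A ∩ B).filter (fun x => c x = i) =
      A.filter (fun x => c x = i) ∩ B.filter (fun x => c x = i) := by
    ext; simp only [mem_filter, mem_inter]; tauto
  rw [e]
  have h1 := card_union_add_card_inter (A.filter (fun x => c x = i)) (B.filter (fun x => c x = i))
  have h2 : (A.filter (fun x => c x = i) ∩ B.filter (fun x => c x = i)).card ≤
    (A.filter (fun x => c x = i)).card := card_le_card inter_subset_left
  have h3 : (A.filter (fun x => c x = i) ∩ B.filter (fun x => c x = i)).card ≤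
    (B.filter (fun x => c x = i)).card := card_le_card inter_subset_right
  omega

lemma prk_rank {α ι : Type} [DecidableEq α] [DecidableEq ι] (c : α → ι) (R : Finset ι) (r : ℕ) :
    Pool.Agent.H8.RankFn (fun A : Finset α => prk c R r A) where
  mono := fun _ _ h => prk_mono c R r h
  step := fun A x => prk_step c R r A x
  submod := fun A B => prk_submod c R r A B

/-- dual rank function -/
lemma dual_rank {α : Type} [DecidableEq α] (E : Finset α) (f : Finset α → ℕ)
    (hf : Pool.Agent.H8.RankFn f) :
    Pool.Agent.H8.RankFn (fun A : Finset α => (A ∩ E).card + f (E \ A) - f E) := by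
  have key : ∀ A : Finset α, f E ≤ (A ∩ E).card + f (E \ A) := by
    intro A
    have h1 := hf.add (E \ A) (A ∩ E)
    have h2 : (E \ A) ∪ (A ∩ E) = E := by
      ext x; simp only [mem_union, mem_sdiff, mem_inter]; tauto
    rw [h2] at h1
    omega
  refine ⟨?_, ?_, ?_⟩
  · intro A B hAB
    have h1 := hf.add (E \ B) ((B ∩ E) \ (A ∩ E))
    have h2 : (E \ B) ∪ ((B ∩ E) \ (A ∩ E)) = E \ A := by
      ext x; simp only [mem_union, mem_sdiff, mem_inter]
      have := @hAB x
      tauto
    rw [h2] at h1
    have h3 : ((B ∩ E) \ (A ∩ E)).card = (B ∩ E).card - (A ∩ E).card :=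
      card_sdiff_of_subset (inter_subset_inter_right hAB)
    have h4 : (A ∩ E).card ≤ (B ∩ E).card := card_le_card (inter_subset_inter_right hAB)
    have := key A
    have := key B
    show (A ∩ E).card + f (E \ A) - f E ≤ (B ∩ E).card + f (E \ B) - f E
    omega
  · intro A x
    show (insert x A ∩ E).card + f (E \ insert x A) - f E ≤ (A ∩ E).card + f (E \ A) - f E + 1
    have h1 : f (E \ insert x A) ≤ f (E \ A) := hf.mono _ _ (sdiff_subset_sdiff le_rfl (subset_insert _ _))
    have h2 : (insert x A ∩ E).card ≤ (A ∩ E).card + 1 := by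
      have : insert x A ∩ E ⊆ insert x (A ∩ E) := by
        intro y; simp only [mem_inter, mem_insert]; tauto
      exact (card_le_card this).trans (card_insert_le _ _)
    have := key A
    omega
  · intro A B
    show ((A ∪ B) ∩ E).card + f (E \ (A ∪ B)) - f E + ((A ∩ B ∩ E).card + f (E \ (A ∩ B)) - f E) ≤
      (A ∩ E).card + f (E \ A) - f E + ((B ∩ E).card + f (E \ B) - f E)
    have h1 := hf.submod (E \ A) (E \ B)
    have h2 : (E \ A) ∪ (E \ B) = E \ (A ∩ B) := by
      ext x; simp only [mem_union, mem_sdiff, mem_inter]; tauto
    have h3 : (E \ A) ∩ (E \ B) = E \ (A ∪ B) := by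
      ext x; simp only [mem_union, mem_sdiff, mem_inter]; tauto
    rw [h2, h3] at h1
    have h4 := card_union_add_card_inter (A ∩ E) (B ∩ E)
    have h5 : (A ∩ E) ∪ (B ∩ E) = (A ∪ B) ∩ E := by
      ext x; simp only [mem_union, mem_inter]; tauto
    have h6 : (A ∩ E) ∩ (B ∩ E) = A ∩ B ∩ E := by
      ext x; simp only [mem_inter]; tauto
    rw [h5, h6] at h4
    have := key A
    have := key B
    have := key (A ∪ B)
    have := key (A ∩ B)
    omega

lemma arith (K d a b c u v w : ℕ) (hu : K = a + u) (hv : K = b + v) (hw : K = 2 * d + w)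
    (hd : 3 * d ≤ K) (e6 : a * b ≤ c + d * a) (e7 : a * b ≤ c + d * b) :
    w * K ≤ w * u + w * v + c := by
  by_cases hc : K ≤ u + v
  · nlinarith
  push Not at hc
  rcases le_total v u with h | h
  · by_cases h' : v ≤ K - u - v
    · obtain ⟨z, hz⟩ := Nat.exists_eq_add_of_le (show u + 2 * v ≤ K by omega)
      zify at *
      have : (w * K : ℤ) - w * u - w * v ≤ a * b - d * a := by
        have ea : (a : ℤ) = K - u := by linarith
        have eb : (b : ℤ) = K - v := by linarith
        have ew : (w : ℤ) = K - 2 * d := by linarith
        have eK : (K : ℤ) = u + 2 * v + z := hz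
        rw [ea, eb, ew]
        have h0 : 0 ≤ (u : ℤ) * v := by positivity
        have h1 : 0 ≤ (d : ℤ) * z := by positivity
        have : (K - u : ℤ) * (K - v) - d * (K - u) - ((K - 2 * d) * K - (K - 2 * d) * u - (K - 2 * d) * v)
          = u * v + d * (K - u - 2 * v) := by ring
        have h2 : (d : ℤ) * (K - u - 2 * v) = d * z := by rw [eK]; ring
        linarith
      linarith
    · have hdu : d < u := by omega
      zify at *
      have : (w * K : ℤ) - w * u - w * v ≤ a * b - d * a := by
        have ea : (a : ℤ) = K - u := by linarith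
        have eb : (b : ℤ) = K - v := by linarith
        have ew : (w : ℤ) = K - 2 * d := by linarith
        rw [ea, eb, ew]
        have h0 : 0 ≤ ((u : ℤ) - d) * v := mul_nonneg (by linarith) (by positivity)
        have h1 : 0 ≤ (d : ℤ) * (K - u - v) := mul_nonneg (by positivity) (by linarith)
        have : (K - u : ℤ) * (K - v) - d * (K - u) - ((K - 2 * d) * K - (K - 2 * d) * u - (K - 2 * d) * v)
          = (u - d) * v + d * (K - u - v) := by ring
        linarith
      linarith
  · by_cases h' : u ≤ K - u - v
    · obtain ⟨z, hz⟩ := Nat.exists_eq_add_of_le (show v + 2 * u ≤ K by omega)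
      zify at *
      have : (w * K : ℤ) - w * u - w * v ≤ a * b - d * b := by
        have ea : (a : ℤ) = K - u := by linarith
        have eb : (b : ℤ) = K - v := by linarith
        have ew : (w : ℤ) = K - 2 * d := by linarith
        have eK : (K : ℤ) = v + 2 * u + z := hz
        rw [ea, eb, ew]
        have h0 : 0 ≤ (u : ℤ) * v := by positivity
        have h1 : 0 ≤ (d : ℤ) * z := by positivity
        have : (K - u : ℤ) * (K - v) - d * (K - v) - ((K - 2 * d) * K - (K - 2 * d) * u - (K - 2 * d) * v)
          = u * v + d * (K - v - 2 * u) := by ring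
        have h2 : (d : ℤ) * (K - v - 2 * u) = d * z := by rw [eK]; ring
        linarith
      linarith
    · have hdu : d < v := by omega
      zify at *
      have : (w * K : ℤ) - w * u - w * v ≤ a * b - d * b := by
        have ea : (a : ℤ) = K - u := by linarith
        have eb : (b : ℤ) = K - v := by linarith
        have ew : (w : ℤ) = K - 2 * d := by linarith
        rw [ea, eb, ew]
        have h0 : 0 ≤ ((v : ℤ) - d) * u := mul_nonneg (by linarith) (by positivity)
        have h1 : 0 ≤ (d : ℤ) * (K - u - v) := mul_nonneg (by positivity) (by linarith)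
        have : (K - u : ℤ) * (K - v) - d * (K - v) - ((K - 2 * d) * K - (K - 2 * d) * u - (K - 2 * d) * v)
          = (v - d) * u + d * (K - u - v) := by ring
        linarith
      linarith

/-- regular spanning subgraph -/
theorem regular {I D : Type} [DecidableEq I] [DecidableEq D]
    (P : Finset I) (Q : Finset D) (K d : ℕ) (hP : P.card = K) (hQ : Q.card = K)
    (conf : I → D → Prop) [∀ i e, Decidable (conf i e)]
    (h1 : ∀ i ∈ P, (Q.filter (fun e => conf i e)).card ≤ d)
    (h2 : ∀ e ∈ Q, (P.filter (fun i => conf i e)).card ≤ d) (hd : 3 * d ≤ K) :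
    ∃ S : Finset (I × D), S ⊆ P ×ˢ Q ∧ (∀ x ∈ S, ¬ conf x.1 x.2) ∧
      (∀ i ∈ P, (S.filter (fun x => x.1 = i)).card = K - 2 * d) ∧
      (∀ e ∈ Q, (S.filter (fun x => x.2 = e)).card = K - 2 * d) := by
  classical
  set E : Finset (I × D) := (P ×ˢ Q).filter (fun x => ¬ conf x.1 x.2) with hE
  set r := K - 2 * d with hr
  -- row degrees of `E`
  have hrow : ∀ i ∈ P, r ≤ (E.filter (fun x => x.1 = i)).card := by
    intro i hi
    have e1 : (E.filter (fun x => x.1 = i)) =
        (Q.filter (fun e => ¬ conf i e)).image (fun e => (i, e)) := by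
      ext ⟨a, b⟩
      simp only [hE, mem_filter, mem_product, mem_image, Prod.mk.injEq]
      constructor
      · rintro ⟨⟨⟨_, h2⟩, h3⟩, rfl⟩
        exact ⟨b, ⟨h2, h3⟩, rfl, rfl⟩
      · rintro ⟨b', ⟨h2, h3⟩, rfl, rfl⟩
        exact ⟨⟨⟨hi, h2⟩, h3⟩, rfl⟩
    rw [e1, card_image_of_injective _ (fun a b h => by simpa using h)]
    have := card_filter_add_card_filter_not (s := Q) (fun e => conf i e)
    have := h1 i hi
    omega
  have hrk : prk Prod.fst P r E = r * K := by
    unfold prk
    rw [sum_congr rfl (fun i hi => min_eq_left (hrow i hi)), sum_const, hP, smul_eq_mul, mul_comm]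
  obtain ⟨J, hJE, hfJ, hgJ⟩ := Pool.Agent.H8.union_lemma E.card E rfl
    (fun A : Finset (I × D) => (A ∩ E).card + prk Prod.fst P r (E \ A) - prk Prod.fst P r E)
    (fun A => prk Prod.snd Q r A)
    (dual_rank E _ (prk_rank _ _ _)) (prk_rank _ _ _) (by
      intro A hA
      simp only [empty_inter, card_empty, sdiff_empty, zero_add, Nat.sub_self, prk_empty, add_zero,
        inter_eq_left.2 hA]
      have key : r * K ≤ prk Prod.fst P r (E \ A) + prk Prod.snd Q r A := by
        set S := P.filter (fun i => ((E \ A).filter (fun x => x.1 = i)).card < r) with hS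
        set T := Q.filter (fun e => (A.filter (fun x => x.2 = e)).card < r) with hT
        have hSK : S.card ≤ K := hP ▸ card_filter_le _ _
        have hTK : T.card ≤ K := hQ ▸ card_filter_le _ _
        have e1 : prk Prod.fst P r (E \ A) =
            r * (K - S.card) + ∑ i ∈ S, ((E \ A).filter (fun x => x.1 = i)).card := by
          unfold prk
          rw [← sum_filter_add_sum_filter_not P
            (fun i => ((E \ A).filter (fun x => x.1 = i)).card < r), add_comm]
          congr 1
          · rw [sum_congr rfl (g := fun _ => r) (fun i hi => by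
              rw [mem_filter, not_lt] at hi
              exact min_eq_left hi.2), sum_const, smul_eq_mul, mul_comm]
            congr 1
            have := card_filter_add_card_filter_not (s := P)
              (fun i => ((E \ A).filter (fun x => x.1 = i)).card < r)
            rw [← hS] at this
            omega
          · refine sum_congr rfl fun i hi => ?_
            rw [mem_filter] at hi
            exact min_eq_right hi.2.le
        have e2 : prk Prod.snd Q r A =
            r * (K - T.card) + ∑ e ∈ T, (A.filter (fun x => x.2 = e)).card := by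
          unfold prk
          rw [← sum_filter_add_sum_filter_not Q
            (fun e => (A.filter (fun x => x.2 = e)).card < r), add_comm]
          congr 1
          · rw [sum_congr rfl (g := fun _ => r) (fun i hi => by
              rw [mem_filter, not_lt] at hi
              exact min_eq_left hi.2), sum_const, smul_eq_mul, mul_comm]
            congr 1
            have := card_filter_add_card_filter_not (s := Q)
              (fun e => (A.filter (fun x => x.2 = e)).card < r)
            rw [← hT] at this
            omega
          · refine sum_congr rfl fun i hi => ?_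
            rw [mem_filter] at hi
            exact min_eq_right hi.2.le
        -- edges between `S` and `T`
        set C := E.filter (fun x => x.1 ∈ S ∧ x.2 ∈ T) with hC
        have e3 : (C \ A).card ≤ ∑ i ∈ S, ((E \ A).filter (fun x => x.1 = i)).card := by
          rw [← card_biUnion]
          · refine card_le_card ?_
            intro x hx
            simp only [hC, mem_sdiff, mem_filter] at hx
            simp only [mem_biUnion, mem_filter, mem_sdiff]
            exact ⟨x.1, hx.1.2.1, ⟨hx.1.1, hx.2⟩, rfl⟩
          · intro i _ j _ hij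
            rw [Function.onFun, disjoint_left]
            intro x hx hx'
            simp only [mem_filter] at hx hx'
            exact hij (hx.2.symm.trans hx'.2)
        have e4 : (C ∩ A).card ≤ ∑ e ∈ T, (A.filter (fun x => x.2 = e)).card := by
          rw [← card_biUnion]
          · refine card_le_card ?_
            intro x hx
            simp only [hC, mem_inter, mem_filter] at hx
            simp only [mem_biUnion, mem_filter]
            exact ⟨x.2, hx.1.2.2, hx.2, rfl⟩
          · intro i _ j _ hij
            rw [Function.onFun, disjoint_left]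
            intro x hx hx'
            simp only [mem_filter] at hx hx'
            exact hij (hx.2.symm.trans hx'.2)
        have e5 : (C \ A).card + (C ∩ A).card = C.card := by
          rw [add_comm]; exact card_inter_add_card_sdiff C A
        -- lower bounds for `C`
        have e6 : S.card * T.card ≤ C.card + d * S.card := by
          have : C.card + ∑ i ∈ S, (T.filter (fun e => conf i e)).card = S.card * T.card := by
            have f1 : C.card = ∑ i ∈ S, (T.filter (fun e => ¬ conf i e)).card := by
              rw [card_eq_sum_card_fiberwise (f := Prod.fst) (t := S)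
                (fun x hx => by
                  simp only [hC, coe_filter, Set.mem_ofPred_eq] at hx
                  exact hx.2.1)]
              refine sum_congr rfl fun i hi => ?_
              rw [← card_image_of_injective (s := T.filter (fun e => ¬ conf i e))
                (f := fun e => (i, e)) (fun a b h => by simpa using h)]
              congr 1
              ext ⟨a, b⟩
              simp only [hC, hE, mem_filter, mem_product, mem_image, Prod.mk.injEq]
              constructor
              · rintro ⟨⟨⟨⟨_, _⟩, h3⟩, _, h5⟩, rfl⟩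
                exact ⟨b, ⟨h5, h3⟩, rfl, rfl⟩
              · rintro ⟨b', ⟨h2, h3⟩, rfl, rfl⟩
                exact ⟨⟨⟨⟨(mem_filter.1 hi).1, (mem_filter.1 h2).1⟩, h3⟩, hi, h2⟩, rfl⟩
            rw [f1, ← sum_add_distrib, sum_congr rfl (g := fun _ => T.card) (fun i _ => by
              rw [add_comm]; exact card_filter_add_card_filter_not _), sum_const, smul_eq_mul]
          have f2 : ∑ i ∈ S, (T.filter (fun e => conf i e)).card ≤ d * S.card := by
            rw [mul_comm, ← smul_eq_mul, ← sum_const]
            refine sum_le_sum fun i hi => ?_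
            exact (card_le_card (filter_subset_filter _ (filter_subset _ _))).trans
              (h1 i (mem_filter.1 hi).1)
          omega
        have e7 : S.card * T.card ≤ C.card + d * T.card := by
          have : C.card + ∑ e ∈ T, (S.filter (fun i => conf i e)).card = S.card * T.card := by
            have f1 : C.card = ∑ e ∈ T, (S.filter (fun i => ¬ conf i e)).card := by
              rw [card_eq_sum_card_fiberwise (f := Prod.snd) (t := T)
                (fun x hx => by
                  simp only [hC, coe_filter, Set.mem_ofPred_eq] at hx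
                  exact hx.2.2)]
              refine sum_congr rfl fun e he => ?_
              rw [← card_image_of_injective (s := S.filter (fun i => ¬ conf i e))
                (f := fun i => (i, e)) (fun a b h => by simpa using h)]
              congr 1
              ext ⟨a, b⟩
              simp only [hC, hE, mem_filter, mem_product, mem_image, Prod.mk.injEq]
              constructor
              · rintro ⟨⟨⟨⟨_, _⟩, h3⟩, h4, _⟩, rfl⟩
                exact ⟨a, ⟨h4, h3⟩, rfl, rfl⟩
              · rintro ⟨b', ⟨h2, h3⟩, rfl, rfl⟩
                exact ⟨⟨⟨⟨(mem_filter.1 h2).1, (mem_filter.1 he).1⟩, h3⟩, h2, he⟩, rfl⟩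
            rw [f1, ← sum_add_distrib, sum_congr rfl (g := fun _ => S.card) (fun i _ => by
              rw [add_comm]; exact card_filter_add_card_filter_not _), sum_const, smul_eq_mul,
              mul_comm]
          have f2 : ∑ e ∈ T, (S.filter (fun i => conf i e)).card ≤ d * T.card := by
            rw [mul_comm, ← smul_eq_mul, ← sum_const]
            refine sum_le_sum fun e he => ?_
            exact (card_le_card (filter_subset_filter _ (filter_subset _ _))).trans
              (h2 e (mem_filter.1 he).1)
          omega
        rw [e1, e2]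
        have main : r * K ≤ r * (K - S.card) + r * (K - T.card) + C.card := by
          generalize S.card = a at *
          generalize T.card = b at *
          generalize C.card = c at *
          obtain ⟨u, hu⟩ := Nat.exists_eq_add_of_le hSK
          obtain ⟨v, hv⟩ := Nat.exists_eq_add_of_le hTK
          obtain ⟨w, hw⟩ := Nat.exists_eq_add_of_le (show 2 * d ≤ K by omega)
          have a1 : K - a = u := by omega
          have a2 : K - b = v := by omega
          have a3 : r = w := by omega
          rw [a1, a2, a3]
          exact arith K d a b c u v w hu hv hw hd e6 e7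
        omega
      omega)
  have hfJ' : prk Prod.fst P r (E \ J) = r * K := by
    have m1 : prk Prod.fst P r (E \ J) ≤ prk Prod.fst P r E := prk_mono _ _ _ sdiff_subset
    rcases J.eq_empty_or_nonempty with h | h
    · rw [h, sdiff_empty, hrk]
    · have := h.card_pos
      simp only [inter_eq_left.2 hJE, empty_inter, card_empty, sdiff_empty, zero_add,
        Nat.sub_self] at hfJ
      omega
  have hgJ' : prk Prod.snd Q r (E \ J) = (E \ J).card := by
    simpa [prk_empty] using hgJ
  set S := E \ J with hS
  have hSE : S ⊆ E := sdiff_subset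
  have hSPQ : S ⊆ P ×ˢ Q := hSE.trans (filter_subset _ _)
  have c1 : S.card = ∑ i ∈ P, (S.filter (fun x => x.1 = i)).card :=
    card_eq_sum_card_fiberwise (fun x hx => (mem_product.1 (hSPQ hx)).1)
  have c2 : S.card = ∑ e ∈ Q, (S.filter (fun x => x.2 = e)).card :=
    card_eq_sum_card_fiberwise (fun x hx => (mem_product.1 (hSPQ hx)).2)
  have d2 : ∀ e ∈ Q, (S.filter (fun x => x.2 = e)).card ≤ r := by
    have : ∑ e ∈ Q, min r (S.filter (fun x => x.2 = e)).card =
        ∑ e ∈ Q, (S.filter (fun x => x.2 = e)).card := by
      rw [← c2]; exact hgJ'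
    have h3 := (sum_eq_sum_iff_of_le (fun e _ => min_le_right _ _)).1 this
    intro e he
    have := h3 e he
    omega
  have d1 : ∀ i ∈ P, r ≤ (S.filter (fun x => x.1 = i)).card := by
    have : ∑ i ∈ P, min r (S.filter (fun x => x.1 = i)).card = ∑ i ∈ P, r := by
      rw [sum_const, hP, smul_eq_mul, mul_comm]; exact hfJ'
    have h3 := (sum_eq_sum_iff_of_le (fun e _ => min_le_left _ _)).1 this
    intro e he
    have := h3 e he
    omega
  have t1 : S.card ≤ r * K := by
    rw [c2, mul_comm, ← hQ, ← smul_eq_mul, ← sum_const]
    exact sum_le_sum d2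
  have t2 : r * K ≤ S.card := by
    rw [c1, mul_comm, ← hP, ← smul_eq_mul, ← sum_const]
    exact sum_le_sum d1
  refine ⟨S, hSPQ, fun x hx => (mem_filter.1 (hSE hx)).2, ?_, ?_⟩
  · have : ∑ i ∈ P, r = ∑ i ∈ P, (S.filter (fun x => x.1 = i)).card := by
      rw [← c1, sum_const, hP, smul_eq_mul, mul_comm]; omega
    intro i hi
    exact ((sum_eq_sum_iff_of_le d1).1 this i hi).symm
  · have : ∑ e ∈ Q, (S.filter (fun x => x.2 = e)).card = ∑ e ∈ Q, r := by
      rw [← c2, sum_const, hQ, smul_eq_mul, mul_comm]; omega
    intro e he
    exact ((sum_eq_sum_iff_of_le d2).1 this e he)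

end T1

open T1 in
theorem matchings {I D : Type} [Fintype I] [Fintype D] [DecidableEq I] [DecidableEq D]
    (P : Finset I) (Q : Finset D) (K d : ℕ) (hP : P.card = K) (hQ : Q.card = K)
    (conf : I → D → Prop) [∀ i e, Decidable (conf i e)]
    (h1 : ∀ i ∈ P, (Q.filter (fun e => conf i e)).card ≤ d)
    (h2 : ∀ e ∈ Q, (P.filter (fun i => conf i e)).card ≤ d) (hd : 3 * d ≤ K) :
    ∃ N : Fin (K - 2 * d) → I → D,
      (∀ c, ∀ i ∈ P, N c i ∈ Q ∧ ¬ conf i (N c i)) ∧
      (∀ c, Set.InjOn (N c) P) ∧
      (∀ c c', c ≠ c' → ∀ i ∈ P, N c i ≠ N c' i) := by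
  classical
  obtain ⟨S, hSPQ, hSc, hr, hc⟩ := regular P Q K d hP hQ conf h1 h2 hd
  let p : Fin K ≃ P := (Finset.equivFinOfCardEq hP).symm
  let q : Fin K ≃ Q := (Finset.equivFinOfCardEq hQ).symm
  have hrow : ∀ v : Fin K, ∑ w : Fin K, (if ((p v : I), (q w : D)) ∈ S then 1 else 0) =
      K - 2 * d := by
    intro v
    rw [← hr (p v) (p v).2, ← card_filter]
    refine card_bij (fun w _ => ((p v : I), (q w : D))) ?_ ?_ ?_
    · intro w hw
      simp only [mem_filter, mem_univ, true_and] at hw ⊢
      exact ⟨hw, trivial⟩
    · intro w _ w' _ h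
      have := (Prod.mk.inj h).2
      exact q.injective (Subtype.ext this)
    · rintro ⟨a, b⟩ hx
      simp only [mem_filter] at hx
      obtain ⟨hx, rfl⟩ := hx
      have hb := (mem_product.1 (hSPQ hx)).2
      refine ⟨q.symm ⟨b, hb⟩, ?_, ?_⟩
      · simp only [mem_filter, mem_univ, true_and, Equiv.apply_symm_apply]; exact hx
      · simp
  have hcol : ∀ w : Fin K, ∑ v : Fin K, (if ((p v : I), (q w : D)) ∈ S then 1 else 0) =
      K - 2 * d := by
    intro w
    rw [← hc (q w) (q w).2, ← card_filter]
    refine card_bij (fun v _ => ((p v : I), (q w : D))) ?_ ?_ ?_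
    · intro v hv
      simp only [mem_filter, mem_univ, true_and] at hv ⊢
      exact ⟨hv, trivial⟩
    · intro v _ v' _ h
      have := (Prod.mk.inj h).1
      exact p.injective (Subtype.ext this)
    · rintro ⟨a, b⟩ hx
      simp only [mem_filter] at hx
      obtain ⟨hx, rfl⟩ := hx
      have ha := (mem_product.1 (hSPQ hx)).1
      refine ⟨p.symm ⟨a, ha⟩, ?_, ?_⟩
      · simp only [mem_filter, mem_univ, true_and, Equiv.apply_symm_apply]; exact hx
      · simp
  obtain ⟨σ, hσ⟩ := H150R2.ZSF.koenig (K - 2 * d)
    (fun v w : Fin K => if ((p v : I), (q w : D)) ∈ S then 1 else 0) hrow hcol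
  by_cases hK : K = 0
  · subst hK
    refine ⟨fun c => absurd c.2 (by simp), fun c => absurd c.2 (by simp),
      fun c => absurd c.2 (by simp), fun c => absurd c.2 (by simp)⟩
  let v0 : Fin K := ⟨0, Nat.pos_of_ne_zero hK⟩
  have hmem : ∀ (c : Fin (K - 2 * d)) (v : Fin K), ((p v : I), (q (σ c v) : D)) ∈ S := by
    intro c v
    by_contra h
    have h3 := hσ v (σ c v)
    simp only [if_neg h] at h3
    have h4 := (Finset.sum_eq_zero_iff.1 h3.symm) c (mem_univ _)
    simp at h4
  have hne : ∀ (c c' : Fin (K - 2 * d)), c ≠ c' → ∀ v : Fin K, σ c v ≠ σ c' v := by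
    intro c c' hcc v h
    have h3 := hσ v (σ c v)
    simp only [if_pos (hmem c v)] at h3
    have h4 := (Finset.sum_le_sum_of_subset
      (subset_univ ({c, c'} : Finset (Fin (K - 2 * d))))).trans h3.symm.le
    rw [sum_pair hcc, if_pos rfl, if_pos h.symm] at h4
    omega
  refine ⟨fun c i => if h : i ∈ P then (q (σ c (p.symm ⟨i, h⟩)) : D) else (q v0 : D), ?_, ?_, ?_⟩
  · intro c i hi
    simp only [dif_pos hi]
    refine ⟨(q _).2, ?_⟩
    have := hSc _ (hmem c (p.symm ⟨i, hi⟩))
    simpa using this
  · intro c i hi j hj h
    have hi' : i ∈ P := hi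
    have hj' : j ∈ P := hj
    simp only [dif_pos hi', dif_pos hj'] at h
    have := p.symm.injective ((σ c).injective (q.injective (Subtype.ext h)))
    simpa using this
  · intro c c' hcc i hi h
    simp only [dif_pos hi] at h
    exact hne c c' hcc _ (q.injective (Subtype.ext h))

end Pool.Agent.H9.TD.T1
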