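import Pool.Agent.H9.TD.Pairing
import Pool.Agent.H9.TD.Light
import Pool.Graph.R_pool_sql_team_5be1d20b.H8.MatroidUnion
import Pool.Graph.R_seed8.H239R2.Cover.EdgeConn

set_option autoImplicit false

/-!
Light systems of pairs of edges at the vertices of `A` that connect the vertices of `B`.
-/

namespace Pool.Agent.H9.TD

open Finset T6


/-- `F (i, j, k)` are disjoint connected spanning edge sets of a bipartite multigraph. For every
`i` there is a system `Z i` of pairs of edges with a common end in `A` that connects `B`; all the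
pairs are disjoint, and every vertex of `A` is in few pairs. -/
theorem pair_systems {A B X ι : Type} [Fintype A] [DecidableEq A] [Fintype B] [DecidableEq B]
    [Fintype X] [DecidableEq X] [Fintype ι] [DecidableEq ι] (a : X → A) (b : X → B)
    (M : ℕ) (hM : 0 < M) (F : ι × Fin M × Bool → Finset X)
    (hd : ∀ p q, p ≠ q → Disjoint (F p) (F q))
    (hF : ∀ p, Conn (fun x => (Sum.inl (a x) : A ⊕ B)) (fun x => Sum.inr (b x)) (F p)) :
    ∃ Z : ι → Finset (X × X),
      (∀ i, ∀ z ∈ Z i, a z.1 = a z.2 ∧ z.1 ≠ z.2 ∧ (∃ p, z.1 ∈ F (i, p)) ∧ ∃ p, z.2 ∈ F (i, p)) ∧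
      (∀ i i', ∀ z ∈ Z i, ∀ z' ∈ Z i', (i, z) ≠ (i', z') →
        z.1 ≠ z'.1 ∧ z.1 ≠ z'.2 ∧ z.2 ≠ z'.1 ∧ z.2 ≠ z'.2) ∧
      (∀ i, Conn (fun z : X × X => b z.1) (fun z => b z.2) (Z i)) ∧
      ∀ u, 2 * M * ∑ i, ((Z i).filter (fun z => a z.1 = u)).card ≤
        ((univ.biUnion F).filter (fun x => a x = u)).card + 2 * M * Fintype.card ι := by
  classical
  -- disjoint connected even edge sets
  have hE : ∀ i : ι, ∀ j : Fin M, ∃ E : Finset X, E ⊆ F (i, j, false) ∪ F (i, j, true) ∧
      F (i, j, false) ⊆ E ∧ ∀ v, Even (dg (fun x => (Sum.inl (a x) : A ⊕ B))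
        (fun x => Sum.inr (b x)) E v) := by
    intro i j
    obtain ⟨J, hJ, hev⟩ := exists_even (fun x => (Sum.inl (a x) : A ⊕ B))
      (fun x => Sum.inr (b x)) (F (i, j, false)) (F (i, j, true))
      (hd _ _ (by simp)) (hF _)
    exact ⟨F (i, j, false) ∪ J, union_subset_union_right hJ, subset_union_left, hev⟩
  choose E hE1 hE2 hE3 using hE
  have hEc : ∀ i j, Conn (fun x => (Sum.inl (a x) : A ⊕ B)) (fun x => Sum.inr (b x)) (E i j) := by
    intro i j Y h1 h2
    obtain ⟨e, he, h⟩ := hF (i, j, false) Y h1 h2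
    exact ⟨e, hE2 i j he, h⟩
  have hEd : ∀ i j i' j', (i, j) ≠ (i', j') → Disjoint (E i j) (E i' j') := by
    intro i j i' j' hne
    have hk : ∀ k k' : Bool, Disjoint (F (i, j, k)) (F (i', j', k')) := by
      intro k k'
      refine hd _ _ ?_
      intro h
      apply hne
      simp only [Prod.mk.injEq] at h ⊢
      exact ⟨h.1, h.2.1⟩
    refine Disjoint.mono (hE1 i j) (hE1 i' j') ?_
    simp only [disjoint_union_left, disjoint_union_right]
    exact ⟨⟨hk _ _, hk _ _⟩, hk _ _, hk _ _⟩
  have hP : ∀ i : ι, ∀ j : Fin M, ∃ Z : Finset (X × X),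
      (∀ z ∈ Z, z.1 ∈ E i j ∧ z.2 ∈ E i j ∧ a z.1 = a z.2 ∧ z.1 ≠ z.2) ∧
      (∀ z ∈ Z, ∀ z' ∈ Z, z ≠ z' → z.1 ≠ z'.1 ∧ z.1 ≠ z'.2 ∧ z.2 ≠ z'.1 ∧ z.2 ≠ z'.2) ∧
      Conn (fun z : X × X => b z.1) (fun z => b z.2) Z := by
    intro i j
    refine exists_pairing a b (E i j) ?_ ?_ (hEc i j)
    · intro u
      have := hE3 i j (Sum.inl u)
      simpa [dg] using this
    · intro v
      have := hE3 i j (Sum.inr v)
      simpa [dg] using this
  choose W hW1 hW2 hW3 using hP
  -- all pairs are disjoint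
  have hWd : ∀ i j, ∀ z ∈ W i j, ∀ i' j', ∀ z' ∈ W i' j', (i, z) ≠ (i', z') →
      z.1 ≠ z'.1 ∧ z.1 ≠ z'.2 ∧ z.2 ≠ z'.1 ∧ z.2 ≠ z'.2 := by
    intro i j z hz i' j' z' hz' hne
    by_cases h : (i, j) = (i', j')
    · simp only [Prod.mk.injEq] at h
      obtain ⟨rfl, rfl⟩ := h
      refine hW2 i j z hz z' hz' ?_
      rintro rfl
      exact hne rfl
    · have hdis := Finset.disjoint_left.mp (hEd i j i' j' h)
      obtain ⟨h1, h2, -, -⟩ := hW1 i j z hz
      obtain ⟨h1', h2', -, -⟩ := hW1 i' j' z' hz'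
      refine ⟨?_, ?_, ?_, ?_⟩ <;> intro heq
      · exact hdis h1 (heq ▸ h1')
      · exact hdis h1 (heq ▸ h2')
      · exact hdis h2 (heq ▸ h1')
      · exact hdis h2 (heq ▸ h2')
  have hEF : ∀ i j x, x ∈ E i j → ∃ p, x ∈ F (i, p) := by
    intro i j x hx
    rcases mem_union.mp (hE1 i j hx) with h | h
    · exact ⟨_, h⟩
    · exact ⟨_, h⟩
  -- the light systems
  have hS : ∀ i : ι, ∃ Z : Finset (X × X), (∀ z ∈ Z, ∃ j, z ∈ W i j) ∧
      Conn (fun z : X × X => b z.1) (fun z => b z.2) Z ∧
      ∀ u, M * (Z.filter (fun z => a z.1 = u)).card ≤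
        (univ.filter (fun z : X × X => (∃ j, z ∈ W i j) ∧ a z.1 = u)).card + M := by
    intro i
    let Y := {z : X × X // ∃ j, z ∈ W i j}
    let I : Fin M → Finset Y := fun j => univ.filter (fun z => z.1 ∈ W i j)
    obtain ⟨S, hS1, hS2⟩ := light (V := B) (E := Y) (A := A) (fun z => b z.1.1)
      (fun z => b z.1.2) (fun z => a z.1.1) M hM I
      (by
        intro j j' hne
        rw [Finset.disjoint_left]
        intro z hz hz'
        have h1 : z.1 ∈ W i j := (mem_filter.mp hz).2
        have h2 : z.1 ∈ W i j' := (mem_filter.mp hz').2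
        exact Finset.disjoint_left.mp (hEd i j i j' (by simpa using hne))
          (hW1 i j _ h1).1 (hW1 i j' _ h2).1)
      (by
        intro j X' h1 h2
        obtain ⟨z, hz, h⟩ := hW3 i j (X' : Set B) (by simpa using h1)
          (by
            intro h
            apply h2
            rw [← Finset.coe_inj, h, Finset.coe_univ])
        refine ⟨⟨z, j, hz⟩, ?_, ?_⟩
        · simp [I, hz]
        · simpa [H239R2.Cover.Leaves] using h)
    refine ⟨S.image Subtype.val, ?_, ?_, ?_⟩
    · intro z hz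
      obtain ⟨y, _, rfl⟩ := mem_image.mp hz
      exact y.2
    · intro X' h1 h2
      obtain ⟨z, hz, h⟩ := hS1 (univ.filter (fun v => v ∈ X'))
        (by
          obtain ⟨v, hv⟩ := h1
          exact ⟨v, by simpa using hv⟩)
        (by
          intro h
          apply h2
          ext v
          have : v ∈ univ.filter (fun v => v ∈ X') := by rw [h]; exact mem_univ _
          simpa using this)
      refine ⟨z.1, mem_image_of_mem _ hz, ?_⟩
      simpa [H239R2.Cover.Leaves] using h
    · intro u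
      have e1 : ((S.image Subtype.val).filter (fun z => a z.1 = u)).card =
          (S.filter (fun z => a z.1.1 = u)).card := by
        rw [Finset.filter_image, Finset.card_image_of_injective _ Subtype.val_injective]
      have e2 : (univ.filter (fun z : Y => a z.1.1 = u)).card =
          (univ.filter (fun z : X × X => (∃ j, z ∈ W i j) ∧ a z.1 = u)).card := by
        rw [← Finset.card_image_of_injective (univ.filter (fun z : Y => a z.1.1 = u))
          Subtype.val_injective]
        congr 1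
        ext z
        simp only [mem_image, mem_filter, mem_univ, true_and]
        constructor
        · rintro ⟨y, hy, rfl⟩
          exact ⟨y.2, hy⟩
        · rintro ⟨h1, h2⟩
          exact ⟨⟨z, h1⟩, h2, rfl⟩
      have := hS2 u
      rw [e2] at this
      rw [e1]
      exact this
  choose Z hZ1 hZ2 hZ3 using hS
  refine ⟨Z, ?_, ?_, hZ2, ?_⟩
  · intro i z hz
    obtain ⟨j, hj⟩ := hZ1 i z hz
    obtain ⟨h1, h2, h3, h4⟩ := hW1 i j z hj
    exact ⟨h3, h4, hEF i j _ h1, hEF i j _ h2⟩
  · intro i i' z hz z' hz' hne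
    obtain ⟨j, hj⟩ := hZ1 i z hz
    obtain ⟨j', hj'⟩ := hZ1 i' z' hz'
    exact hWd i j z hj i' j' z' hj' hne
  · intro u
    have hcount : ∑ i, 2 * (univ.filter (fun z : X × X => (∃ j, z ∈ W i j) ∧ a z.1 = u)).card ≤
        ((univ.biUnion F).filter (fun x => a x = u)).card := by
      rw [← Finset.mul_sum]
      let T : Finset (Σ _ : ι, X × X) := univ.sigma
        (fun i => univ.filter (fun z : X × X => (∃ j, z ∈ W i j) ∧ a z.1 = u))
      have hT : T.card = ∑ i, (univ.filter
          (fun z : X × X => (∃ j, z ∈ W i j) ∧ a z.1 = u)).card := Finset.card_sigma _ _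
      have hT2 : ((univ : Finset Bool) ×ˢ T).card = 2 * T.card := by
        rw [Finset.card_product]; simp
      rw [← hT, ← hT2]
      refine Finset.card_le_card_of_injOn (fun q => if q.1 then q.2.2.1 else q.2.2.2) ?_ ?_
      · rintro ⟨k, i, z⟩ hq
        simp only [coe_product, Set.mem_prod, mem_coe, T, mem_sigma, mem_filter, mem_univ,
          true_and] at hq
        obtain ⟨⟨j, hj⟩, hu⟩ := hq
        obtain ⟨h1, h2, h3, h4⟩ := hW1 i j z hj
        simp only [mem_coe, mem_filter, mem_biUnion, mem_univ, true_and]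
        cases k
        · obtain ⟨p, hp⟩ := hEF i j _ h2
          exact ⟨⟨_, by simpa using hp⟩, by simpa [← h3] using hu⟩
        · obtain ⟨p, hp⟩ := hEF i j _ h1
          exact ⟨⟨_, by simpa using hp⟩, by simpa using hu⟩
      · rintro ⟨k, i, z⟩ hq ⟨k', i', z'⟩ hq' heq
        simp only [coe_product, Set.mem_prod, mem_coe, T, mem_sigma, mem_filter, mem_univ,
          true_and] at hq hq'
        obtain ⟨⟨j, hj⟩, hu⟩ := hq
        obtain ⟨⟨j', hj'⟩, hu'⟩ := hq'
        by_cases hne : (i, z) = (i', z')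
        · simp only [Prod.mk.injEq] at hne
          obtain ⟨rfl, rfl⟩ := hne
          have h4 := (hW1 i j z hj).2.2.2
          cases k <;> cases k'
          · rfl
          · exact absurd (show z.2 = z.1 from heq) (Ne.symm h4)
          · exact absurd (show z.1 = z.2 from heq) h4
          · rfl
        · obtain ⟨g1, g2, g3, g4⟩ := hWd i j z hj i' j' z' hj' hne
          cases k <;> cases k'
          · exact absurd (show z.2 = z'.2 from heq) g4
          · exact absurd (show z.2 = z'.1 from heq) g3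
          · exact absurd (show z.1 = z'.2 from heq) g2
          · exact absurd (show z.1 = z'.1 from heq) g1
    have h5 : ∀ i, 2 * M * ((Z i).filter (fun z => a z.1 = u)).card ≤
        2 * (univ.filter (fun z : X × X => (∃ j, z ∈ W i j) ∧ a z.1 = u)).card + 2 * M := by
      intro i
      have := hZ3 i u
      calc 2 * M * ((Z i).filter (fun z => a z.1 = u)).card
          = 2 * (M * ((Z i).filter (fun z => a z.1 = u)).card) := by ring
        _ ≤ 2 * ((univ.filter (fun z : X × X => (∃ j, z ∈ W i j) ∧ a z.1 = u)).card + M) :=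
            Nat.mul_le_mul_left _ this
        _ = _ := by ring
    calc 2 * M * ∑ i, ((Z i).filter (fun z => a z.1 = u)).card
        = ∑ i, 2 * M * ((Z i).filter (fun z => a z.1 = u)).card := Finset.mul_sum _ _ _
      _ ≤ ∑ i, (2 * (univ.filter (fun z : X × X => (∃ j, z ∈ W i j) ∧ a z.1 = u)).card
            + 2 * M) := Finset.sum_le_sum (fun i _ => h5 i)
      _ = ∑ i, 2 * (univ.filter (fun z : X × X => (∃ j, z ∈ W i j) ∧ a z.1 = u)).card
            + 2 * M * Fintype.card ι := by
          rw [Finset.sum_add_distrib, Finset.sum_const, Finset.card_univ, smul_eq_mul,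
            mul_comm (Fintype.card ι)]
      _ ≤ _ := Nat.add_le_add_right hcount _

end Pool.Agent.H9.TD
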