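import Mathlib

set_option autoImplicit false

/-!
`T`-joins and pairings of the edges of an even connected bipartite multigraph.
-/

namespace Pool.Agent.H9.TD

open Finset

/-- The edge set `I` of the multigraph `(src, dst)` connects all vertices. -/
def Conn {V E : Type} (src dst : E → V) (I : Finset E) : Prop :=
  ∀ X : Set V, X.Nonempty → X ≠ Set.univ → ∃ e ∈ I, ¬ (src e ∈ X ↔ dst e ∈ X)

/-- The degree of `v` in the edge set `I`. -/
def dg {V E : Type} [DecidableEq V] (src dst : E → V) (I : Finset E) (v : V) : ℕ :=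
  (I.filter (fun e => src e = v)).card + (I.filter (fun e => dst e = v)).card

/-- The boundary of an edge modulo two. -/
def bd {V E : Type} [DecidableEq V] (src dst : E → V) (e : E) : V → ZMod 2 :=
  fun v => (if src e = v then 1 else 0) + (if dst e = v then 1 else 0)

theorem dg_cast {V E : Type} [DecidableEq V] (src dst : E → V) (I : Finset E) (v : V) :
    ((dg src dst I v : ℕ) : ZMod 2) = ∑ e ∈ I, bd src dst e v := by
  simp only [dg, bd, Nat.cast_add, Finset.sum_add_distrib, Finset.card_filter, Nat.cast_sum]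
  simp

theorem functional {V : Type} [Fintype V] [DecidableEq V] (φ : (V → ZMod 2) →ₗ[ZMod 2] ZMod 2)
    (f : V → ZMod 2) : φ f = ∑ v, f v * φ (Pi.single v 1) := by
  conv_lhs => rw [← Finset.univ_sum_single f]
  rw [map_sum]
  refine Finset.sum_congr rfl fun v _ => ?_
  have : (Pi.single v (f v) : V → ZMod 2) = f v • (Pi.single v 1 : V → ZMod 2) := by
    rw [← Pi.single_smul]; simp
  rw [this, map_smul, smul_eq_mul]

/-- A connected edge set contains a set `J` that makes all degrees of `F ∪ J` even. -/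
theorem exists_even {V E : Type} [Fintype V] [DecidableEq V] [Fintype E] [DecidableEq E]
    (src dst : E → V) (F1 F2 : Finset E) (hd : Disjoint F1 F2) (h2 : Conn src dst F2) :
    ∃ J ⊆ F2, ∀ v, Even (dg src dst (F1 ∪ J) v) := by
  classical
  set t : V → ZMod 2 := ∑ e ∈ F1, bd src dst e with ht
  have hmem : t ∈ Submodule.span (ZMod 2) ((bd src dst) '' (F2 : Set E)) := by
    by_contra hcon
    obtain ⟨φ, hφt, hφ⟩ := Submodule.exists_le_ker_of_notMem hcon
    have hφ0 : ∀ e ∈ F2, φ (bd src dst e) = 0 := by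
      intro e he
      exact hφ (Submodule.subset_span ⟨e, by simpa using he, rfl⟩)
    set g : V → ZMod 2 := fun v => φ (Pi.single v 1) with hg
    have hbd : ∀ e, φ (bd src dst e) = g (src e) + g (dst e) := by
      intro e
      rw [functional φ]
      simp only [bd, add_mul, Finset.sum_add_distrib, ite_mul, one_mul, zero_mul]
      simp [hg]
    have two : ∀ x : ZMod 2, x = 0 ∨ x = 1 := by decide
    have hsd : ∀ e ∈ F2, g (src e) = g (dst e) := by
      intro e he
      have h1 := hφ0 e he
      rw [hbd] at h1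
      rcases two (g (src e)) with h | h <;> rcases two (g (dst e)) with h' | h' <;>
        rw [h, h'] at h1 ⊢ <;> revert h1 <;> decide
    have hconst : ∀ v w, g v = g w := by
      intro v w
      by_contra hvw
      obtain ⟨e, he, hne⟩ := h2 {x | g x = g v} ⟨v, rfl⟩ (by
        intro h
        have : w ∈ ({x | g x = g v} : Set V) := by rw [h]; trivial
        exact hvw this.symm)
      apply hne
      simp only [Set.mem_setOf_eq, hsd e he]
    apply hφt
    rw [ht, map_sum]
    refine Finset.sum_eq_zero fun e _ => ?_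
    rw [hbd, hconst (src e) (dst e)]
    rcases two (g (dst e)) with h | h <;> rw [h] <;> decide
  rw [Submodule.mem_span_image_finset_iff_exists_fun] at hmem
  obtain ⟨c', hc'⟩ := hmem
  let c : E → ZMod 2 := fun e => if h : e ∈ F2 then c' ⟨e, h⟩ else 0
  have hc : ∑ e ∈ F2, c e • bd src dst e = t := by
    rw [← hc', ← Finset.sum_attach F2]
    refine Finset.sum_congr rfl fun e _ => ?_
    simp [c, e.2]
  refine ⟨F2.filter (fun e => c e = 1), Finset.filter_subset _ _, fun v => ?_⟩
  have hdisj : Disjoint F1 (F2.filter (fun e => c e = 1)) :=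
    Finset.disjoint_of_subset_right (Finset.filter_subset _ _) hd
  have two : ∀ x : ZMod 2, x = 0 ∨ x = 1 := by decide
  have key : ((dg src dst (F1 ∪ F2.filter (fun e => c e = 1)) v : ℕ) : ZMod 2) = 0 := by
    rw [dg_cast, Finset.sum_union hdisj]
    have h1 : ∑ e ∈ F2.filter (fun e => c e = 1), bd src dst e v = t v := by
      rw [← hc, Finset.sum_apply, Finset.sum_filter]
      refine Finset.sum_congr rfl fun e _ => ?_
      rcases two (c e) with h | h
      · simp [h]
      · simp [h]
    have h2' : ∑ e ∈ F1, bd src dst e v = t v := by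
      rw [ht, Finset.sum_apply]
    rw [h1, h2']
    rcases two (t v) with h | h <;> rw [h] <;> decide
  exact (ZMod.natCast_eq_zero_iff_even).1 key

/-- A finite set of even size has a fixed-point-free involution. -/
theorem even_invol {X : Type} [DecidableEq X] (k : ℕ) : ∀ S : Finset X, S.card = 2 * k →
    ∃ s : X → X, ∀ x ∈ S, s x ∈ S ∧ s x ≠ x ∧ s (s x) = x := by
  induction k with
  | zero =>
    intro S hS
    have : S = ∅ := by simpa using hS
    subst this
    exact ⟨id, by simp⟩
  | succ k ih =>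
    intro S hS
    obtain ⟨x, hx, y, hy, hxy⟩ := Finset.one_lt_card.1 (by omega : 1 < S.card)
    obtain ⟨s', hs'⟩ := ih ((S.erase x).erase y) (by
      rw [Finset.card_erase_of_mem (by simp [hy, hxy.symm]), Finset.card_erase_of_mem hx]
      omega)
    refine ⟨fun z => if z = x then y else if z = y then x else s' z, fun z hz => ?_⟩
    by_cases hzx : z = x
    · subst hzx
      simp [hy, hxy.symm]
    · by_cases hzy : z = y
      · subst hzy
        simp [hx, hxy, hzx]
      · obtain ⟨h1, h2, h3⟩ := hs' z (by simp [hz, hzx, hzy])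
        simp only [Finset.mem_erase] at h1
        simp [hzx, hzy, h1.1, h1.2.1, h1.2.2, h2, h3]

/-- The edges of a connected bipartite multigraph with even degrees are paired at the vertices
of `A` such that the pairs connect all vertices of `B` (re-pair two pairs at the same vertex that
lie in different components; even graphs have no bridges). -/
theorem exists_pairing {A B X : Type} [Fintype A] [DecidableEq A] [Fintype B] [DecidableEq B]
    [Fintype X] [DecidableEq X] (a : X → A) (b : X → B) (F : Finset X)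
    (ha : ∀ u, Even (F.filter (fun x => a x = u)).card)
    (hb : ∀ v, Even (F.filter (fun x => b x = v)).card)
    (hF : Conn (fun x => (Sum.inl (a x) : A ⊕ B)) (fun x => Sum.inr (b x)) F) :
    ∃ Z : Finset (X × X),
      (∀ z ∈ Z, z.1 ∈ F ∧ z.2 ∈ F ∧ a z.1 = a z.2 ∧ z.1 ≠ z.2) ∧
      (∀ z ∈ Z, ∀ z' ∈ Z, z ≠ z' → z.1 ≠ z'.1 ∧ z.1 ≠ z'.2 ∧ z.2 ≠ z'.1 ∧ z.2 ≠ z'.2) ∧
      Conn (fun z : X × X => b z.1) (fun z => b z.2) Z := by
  classical
  let Vd : (X → X) → Prop := fun s => ∀ x ∈ F, s x ∈ F ∧ s x ≠ x ∧ s (s x) = x ∧ a (s x) = a x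
  have hex : ∃ s, Vd s := by
    have h1 : ∀ u, ∃ s : X → X, ∀ x ∈ F.filter (fun x => a x = u),
        s x ∈ F.filter (fun x => a x = u) ∧ s x ≠ x ∧ s (s x) = x := by
      intro u
      obtain ⟨k, hk⟩ := ha u
      exact even_invol k _ (by omega)
    choose σ hσ using h1
    refine ⟨fun x => σ (a x) x, fun x hx => ?_⟩
    obtain ⟨h1, h2, h3⟩ := hσ (a x) x (by simp [hx])
    simp only [Finset.mem_filter] at h1
    refine ⟨h1.1, h2, ?_, h1.2⟩
    show σ (a (σ (a x) x)) (σ (a x) x) = x
    rw [h1.2]; exact h3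
  let C : (X → X) → Finset (Finset B) :=
    fun s => univ.filter (fun Y => ∀ x ∈ F, b x ∈ Y ↔ b (s x) ∈ Y)
  obtain ⟨s, hs, hmin⟩ : ∃ s, Vd s ∧ ∀ s', Vd s' → (C s).card ≤ (C s').card := by
    obtain ⟨s0, hs0⟩ := hex
    obtain ⟨s, hs, hm⟩ := Finset.exists_min_image (univ.filter Vd) (fun s => (C s).card)
      ⟨s0, by simpa using hs0⟩
    exact ⟨s, by simpa using hs, fun s' hs' => hm s' (by simpa using hs')⟩
  have memC : ∀ s Y, Y ∈ C s ↔ ∀ x ∈ F, (b x ∈ Y ↔ b (s x) ∈ Y) := by
    intro s Y; simp [C]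
  have hcl : ∀ Y ∈ C s, Y = ∅ ∨ Y = univ := by
    intro Y hY
    by_contra hne
    push Not at hne
    obtain ⟨hY0, hY1⟩ := hne
    rw [memC] at hY
    -- a vertex `u` of `A` with edges inside and outside
    obtain ⟨e1, he1, e2, he2, haa, h1, h2⟩ : ∃ e1 ∈ F, ∃ e2 ∈ F, a e1 = a e2 ∧ b e1 ∈ Y ∧
        b e2 ∉ Y := by
      by_contra hcon
      push Not at hcon
      let W : Set (A ⊕ B) := {w | (∃ x ∈ F, w = Sum.inl (a x) ∧ b x ∈ Y) ∨
        ∃ v ∈ Y, w = Sum.inr v}
      obtain ⟨v0, hv0⟩ := hY0
      obtain ⟨v1, hv1⟩ : ∃ v1, v1 ∉ Y := by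
        by_contra hall
        push Not at hall
        exact hY1 (Finset.eq_univ_iff_forall.2 hall)
      obtain ⟨e, he, hne⟩ := hF W ⟨Sum.inr v0, Or.inr ⟨v0, hv0, rfl⟩⟩ (by
        intro h
        have : (Sum.inr v1 : A ⊕ B) ∈ W := by rw [h]; trivial
        rcases this with ⟨x, _, hx, _⟩ | ⟨v, hv, hvv⟩
        · exact absurd hx (by simp)
        · rw [Sum.inr.injEq] at hvv; exact hv1 (hvv ▸ hv))
      apply hne
      constructor
      · rintro (⟨x, hx, hax, hbx⟩ | ⟨v, _, hv⟩)
        · rw [Sum.inl.injEq] at hax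
          exact Or.inr ⟨b e, hcon x hx e he hax.symm hbx, rfl⟩
        · exact absurd hv (by simp)
      · rintro (⟨x, _, hx, _⟩ | ⟨v, hv, hvv⟩)
        · exact absurd hx (by simp)
        · rw [Sum.inr.injEq] at hvv
          exact Or.inl ⟨e, he, rfl, hvv ▸ hv⟩
    set f1 := s e1 with hf1
    set f2 := s e2 with hf2
    obtain ⟨hf1F, hf1ne, hf1s, hf1a⟩ := hs e1 he1
    obtain ⟨hf2F, hf2ne, hf2s, hf2a⟩ := hs e2 he2
    rw [← hf1] at hf1F hf1ne hf1s hf1a
    rw [← hf2] at hf2F hf2ne hf2s hf2a
    have hf1Y : b f1 ∈ Y := (hY e1 he1).1 h1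
    have hf2Y : b f2 ∉ Y := fun h => h2 ((hY e2 he2).2 h)
    have d12 : e1 ≠ e2 := fun h => h2 (h ▸ h1)
    have d1f2 : e1 ≠ f2 := fun h => hf2Y (h ▸ h1)
    have df12 : f1 ≠ e2 := fun h => h2 (h ▸ hf1Y)
    have dff : f1 ≠ f2 := fun h => hf2Y (h ▸ hf1Y)
    let s' : X → X := fun x => if x = e1 then e2 else if x = e2 then e1 else
      if x = f1 then f2 else if x = f2 then f1 else s x
    have s'e1 : s' e1 = e2 := by simp [s']
    have s'e2 : s' e2 = e1 := by simp [s', d12.symm]
    have s'f1 : s' f1 = f2 := by simp [s', hf1ne, df12]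
    have s'f2 : s' f2 = f1 := by simp [s', d1f2.symm, hf2ne, dff.symm]
    have s'o : ∀ x, x ≠ e1 → x ≠ e2 → x ≠ f1 → x ≠ f2 → s' x = s x := by
      intro x h1 h2 h3 h4; simp [s', h1, h2, h3, h4]
    -- `s` maps the other elements to other elements
    have so : ∀ x ∈ F, x ≠ e1 → x ≠ e2 → x ≠ f1 → x ≠ f2 →
        s x ≠ e1 ∧ s x ≠ e2 ∧ s x ≠ f1 ∧ s x ≠ f2 := by
      intro x hx h1 h2 h3 h4
      obtain ⟨_, _, hss, _⟩ := hs x hx
      refine ⟨fun h => h3 ?_, fun h => h4 ?_, fun h => h1 ?_, fun h => h2 ?_⟩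
      · rw [← hss, h]
      · rw [← hss, h]
      · rw [← hss, h, hf1s]
      · rw [← hss, h, hf2s]
    have hs' : Vd s' := by
      intro x hx
      by_cases hx1 : x = e1
      · subst hx1; rw [s'e1, s'e2]; exact ⟨he2, d12.symm, rfl, haa.symm⟩
      by_cases hx2 : x = e2
      · subst hx2; rw [s'e2, s'e1]; exact ⟨he1, d12, rfl, haa⟩
      by_cases hx3 : x = f1
      · subst hx3; rw [s'f1, s'f2]; exact ⟨hf2F, dff.symm, rfl, by rw [hf2a, hf1a, haa]⟩
      by_cases hx4 : x = f2
      · subst hx4; rw [s'f2, s'f1]; exact ⟨hf1F, dff, rfl, by rw [hf2a, hf1a, haa]⟩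
      obtain ⟨g1, g2, g3, g4⟩ := so x hx hx1 hx2 hx3 hx4
      obtain ⟨k1, k2, k3, k4⟩ := hs x hx
      rw [s'o x hx1 hx2 hx3 hx4, s'o _ g1 g2 g3 g4]
      exact ⟨k1, k2, k3, k4⟩
    have hss : C s' ⊂ C s := by
      rw [Finset.ssubset_iff_of_subset]
      · refine ⟨Y, (memC s Y).2 hY, fun h => ?_⟩
        have := (memC s' Y).1 h e1 he1
        rw [s'e1] at this
        exact h2 (this.1 h1)
      · intro T hT
        rw [memC] at hT ⊢
        -- parity
        have e12 : b e1 ∈ T ↔ b e2 ∈ T := by have := hT e1 he1; rwa [s'e1] at this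
        have f12 : b f1 ∈ T ↔ b f2 ∈ T := by have := hT f1 hf1F; rwa [s'f1] at this
        set P := F.filter (fun x => b x ∈ T ∩ Y) with hP
        have hPe : Even P.card := by
          have : P.card = ∑ v ∈ T ∩ Y, (F.filter (fun x => b x = v)).card := by
            rw [Finset.card_eq_sum_card_fiberwise (s := P) (f := b) (t := T ∩ Y)
              (fun x hx => (Finset.mem_filter.1 hx).2), hP]
            refine Finset.sum_congr rfl fun v hv => ?_
            congr 1
            ext x
            simp only [Finset.mem_filter]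
            constructor
            · rintro ⟨⟨h1, _⟩, h2⟩; exact ⟨h1, h2⟩
            · rintro ⟨h1, h2⟩; exact ⟨⟨h1, h2 ▸ hv⟩, h2⟩
          rw [this]
          exact Finset.even_sum _ fun v _ => hb v
        have hQe : Even ((P.erase e1).erase f1).card := by
          have hinv : ∀ x ∈ (P.erase e1).erase f1, s x ∈ (P.erase e1).erase f1 := by
            intro x hx
            simp only [hP, Finset.mem_erase, Finset.mem_filter, Finset.mem_inter] at hx ⊢
            obtain ⟨n1, n2, hxF, hxT, hxY⟩ := hx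
            have n3 : x ≠ e2 := fun h => h2 (h ▸ hxY)
            have n4 : x ≠ f2 := fun h => hf2Y (h ▸ hxY)
            obtain ⟨g1, g2, g3, g4⟩ := so x hxF n2 n3 n1 n4
            have t1 := hT x hxF
            rw [s'o x n2 n3 n1 n4] at t1
            exact ⟨g3, g1, (hs x hxF).1, t1.1 hxT, (hY x hxF).1 hxY⟩
          have hsum : ∑ x ∈ (P.erase e1).erase f1, (1 : ZMod 2) = 0 := by
            refine Finset.sum_involution (fun x _ => s x) (fun x _ => by decide)
              (fun x hx _ => ?_) (fun x hx => hinv x hx) (fun x hx => ?_)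
            · have hxF : x ∈ F := by
                simp only [hP, Finset.mem_erase, Finset.mem_filter] at hx; exact hx.2.2.1
              exact (hs x hxF).2.1
            · have hxF : x ∈ F := by
                simp only [hP, Finset.mem_erase, Finset.mem_filter] at hx; exact hx.2.2.1
              exact (hs x hxF).2.2.1
          rw [Finset.sum_const, nsmul_eq_mul, mul_one] at hsum
          exact (ZMod.natCast_eq_zero_iff_even).1 hsum
        have he1P : e1 ∈ P ↔ b e1 ∈ T := by simp [hP, he1, h1]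
        have hf1P : f1 ∈ P ↔ b f1 ∈ T := by simp [hP, hf1F, hf1Y]
        have hef : b e1 ∈ T ↔ b f1 ∈ T := by
          rw [← he1P, ← hf1P]
          by_cases q1 : e1 ∈ P <;> by_cases q2 : f1 ∈ P
          · simp [q1, q2]
          · exfalso
            rw [Finset.erase_eq_of_notMem (a := f1) (fun h => q2 (Finset.mem_of_mem_erase h)),
              Finset.card_erase_of_mem q1] at hQe
            have : 0 < P.card := Finset.card_pos.2 ⟨_, q1⟩
            rcases hPe with ⟨k, hk⟩; rcases hQe with ⟨l, hl⟩; omega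
          · exfalso
            rw [Finset.card_erase_of_mem (Finset.mem_erase.2 ⟨hf1ne, q2⟩),
              Finset.erase_eq_of_notMem q1] at hQe
            have : 0 < P.card := Finset.card_pos.2 ⟨_, q2⟩
            rcases hPe with ⟨k, hk⟩; rcases hQe with ⟨l, hl⟩; omega
          · simp [q1, q2]
        intro x hx
        by_cases hx1 : x = e1
        · subst hx1; exact hef
        by_cases hx2 : x = e2
        · subst hx2; rw [← hf2, ← e12, ← f12]; exact hef
        by_cases hx3 : x = f1
        · subst hx3; rw [hf1s]; exact hef.symm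
        by_cases hx4 : x = f2
        · subst hx4; rw [hf2s, ← e12, ← f12]; exact hef.symm
        have := hT x hx
        rwa [s'o x hx1 hx2 hx3 hx4] at this
    exact absurd (hmin s' hs') (not_le.2 (Finset.card_lt_card hss))
  let ι : X → Fin (Fintype.card X) := Fintype.equivFin X
  have hι : Function.Injective ι := (Fintype.equivFin X).injective
  refine ⟨(F.filter (fun x => ι x < ι (s x))).image (fun x => (x, s x)), ?_, ?_, ?_⟩
  · intro z hz
    simp only [Finset.mem_image, Finset.mem_filter] at hz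
    obtain ⟨x, ⟨hx, _⟩, rfl⟩ := hz
    obtain ⟨h1, h2, _, h4⟩ := hs x hx
    exact ⟨hx, h1, h4.symm, h2.symm⟩
  · intro z hz z' hz' hne
    simp only [Finset.mem_image, Finset.mem_filter] at hz hz'
    obtain ⟨x, ⟨hx, hxl⟩, rfl⟩ := hz
    obtain ⟨y, ⟨hy, hyl⟩, rfl⟩ := hz'
    have hxy : x ≠ y := fun h => hne (by rw [h])
    obtain ⟨_, _, h3, _⟩ := hs x hx
    obtain ⟨_, _, k3, _⟩ := hs y hy
    refine ⟨hxy, fun h => ?_, fun h => ?_, fun h => hxy ?_⟩
    · simp only at h
      rw [h, k3] at hxl
      exact lt_asymm hxl hyl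
    · simp only at h
      rw [← h, h3] at hyl
      exact lt_asymm hxl hyl
    · simp only at h
      rw [← h3, h, k3]
  · intro W hW0 hW1
    have : (univ.filter (fun v => v ∈ W)) ∉ C s := by
      intro h
      rcases hcl _ h with h | h
      · obtain ⟨v, hv⟩ := hW0
        have : v ∈ (univ.filter (fun v => v ∈ W)) := by simp [hv]
        rw [h] at this; simp at this
      · apply hW1
        ext v
        have : v ∈ (univ.filter (fun v => v ∈ W)) := by rw [h]; simp
        simpa using this
    rw [memC] at this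
    push Not at this
    obtain ⟨x, hx, hxx⟩ := this
    simp only [Finset.mem_filter, Finset.mem_univ, true_and] at hxx
    obtain ⟨k1, k2, k3, k4⟩ := hs x hx
    have hne : ι x ≠ ι (s x) := fun h => k2 (hι h).symm
    rcases lt_or_gt_of_ne hne with hl | hl
    · refine ⟨(x, s x), ?_, ?_⟩
      · simp only [Finset.mem_image, Finset.mem_filter]
        exact ⟨x, ⟨hx, hl⟩, rfl⟩
      · simp only
        tauto
    · refine ⟨(s x, x), ?_, ?_⟩
      · simp only [Finset.mem_image, Finset.mem_filter]
        exact ⟨s x, ⟨k1, by rw [k3]; exact hl⟩, by rw [k3]⟩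
      · simp only
        tauto

end Pool.Agent.H9.TD
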