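import Pool.Agent.H9.TD.Rand

set_option autoImplicit false

/-!
The probabilities of the bad events.
-/

namespace Pool.Agent.H9.TD

open Finset Pool.Agent.Helper635.LLL

variable {V D : Type} [Fintype D] [DecidableEq D] [DecidableEq V]
variable {m K : ℕ} {S : Sys V D m K} {j : ℕ} {I : Type} [Fintype I]

theorem sum_fib (s : St S j I) (U : Finset (Co S j)) (Q' : I → Prop) [DecidablePred Q'] :
    ∑ t ∈ U, (univ.filter (fun i => s.rho (S.par (j + 1)) i = t.1 ∧ Q' i)).card ≤
      (univ.filter (fun i => Q' i)).card := by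
  classical
  rw [← card_biUnion]
  · refine card_le_card ?_
    intro i hi
    rw [mem_biUnion] at hi
    obtain ⟨t, _, h⟩ := hi
    rw [mem_filter] at h ⊢
    exact ⟨mem_univ _, h.2.2⟩
  · intro t _ t' _ hne
    show Disjoint _ _
    rw [disjoint_left]
    intro i h1 h2
    rw [mem_filter] at h1 h2
    exact hne (Subtype.ext (h1.2.1.symm.trans h2.2.1))

theorem prob_old {s : St S j I} {R : ℕ} (e : Ext s R) (hj : j + 1 < m) (c0 : Fin R)
    (Δ Δ' : ℝ) (hs : s.Spread Δ) (hΔ : Δ ≤ Δ') (p : ℕ × (V × ℕ)) (hp : p ∈ Idx S j)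
    (hpj : p.1 ≤ j) (s0 : ℕ) (hs0 : (s0 : ℝ) ≤ Δ' - Δ + 1) (p0 : ℝ)
    (hp0 : Real.exp ((K : ℝ) / R) ≤ p0 * 2 ^ s0) :
    (cnt (BadEv e hj c0 Δ' p) : ℝ) ≤ (K * K : ℝ) * p0 * (R : ℝ) ^ Fintype.card (Co S j) := by
  classical
  have hp' := mem_Idx.1 hp
  have hR : 0 < R := Fin.pos c0
  have hR' : (0 : ℝ) < R := by exact_mod_cast hR
  have hp0' : 0 ≤ p0 := by
    by_contra hcon
    push Not at hcon
    have h1 : p0 * 2 ^ s0 < 0 := mul_neg_of_neg_of_pos hcon (by positivity)
    linarith [Real.exp_pos ((K : ℝ) / R)]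
  set r := S.par (j + 1) with hr
  set U := dep s p.1 p.2 with hU
  have hUK : U.card ≤ K := card_dep s hj hp'.1 hp'.2
  set Rel : Finset V := (U.biUnion (fun t => univ.filter (fun d => S.lab d = j + 1 ∧
    S.pe d = t.1))).image (fun d => (S.ce d).1) with hRel
  have hRelc : Rel.card ≤ K * K := by
    refine card_image_le.trans (card_biUnion_le.trans ?_)
    refine (sum_le_sum fun t _ => (S.pe_fib (j + 1) (by omega) (by omega) _ t.2).le).trans ?_
    rw [sum_const, smul_eq_mul]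
    exact Nat.mul_le_mul_right _ hUK
  have main := tail R hR U Rel (fun y t => Bad e (fun i d => s.rho p.1 i = p.2 ∧ (S.ce d).1 = y) t)
    s0 ((K : ℝ) / R) 1 p0 (by norm_num) ?_ (by
      rw [one_mul]; norm_num; exact hp0) (BadEv e hj c0 Δ' p) ?_
  · refine main.trans ?_
    have h1 : (Rel.card : ℝ) ≤ K * K := by exact_mod_cast hRelc
    have h2 : (0 : ℝ) ≤ (R : ℝ) ^ Fintype.card (Co S j) := by positivity
    exact mul_le_mul_of_nonneg_right (mul_le_mul_of_nonneg_right h1 hp0') h2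
  · intro y _
    rw [div_mul_cancel₀ _ hR'.ne']
    have h1 : ∑ t ∈ U, (Bad e (fun i d => s.rho p.1 i = p.2 ∧ (S.ce d).1 = y) t).card ≤ K := by
      refine (sum_le_sum fun t _ => card_Bad e _ y (fun i d h => h.2) t
        (fun i => s.rho p.1 i = p.2) (fun i c h => h.1)).trans ?_
      refine (sum_fib s U _).trans ?_
      exact (s.rho_fib p.1 hpj p.2 hp'.2).le
    exact_mod_cast h1
  · rintro ω ⟨y, hy, h⟩
    have hold := hs p.1 hpj p.2 y hy
    set Z := (univ.filter (fun i => s.rho p.1 i = p.2 ∧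
      (S.ce (e.y (extd c0 ω) i)).1 = y)) with hZ
    have hle : (e.next (extd c0 ω) hj).cnt p.1 p.2 y ≤ s.cnt p.1 p.2 y + Z.card := by
      unfold St.cnt
      refine le_trans (card_le_card ?_) (card_union_le _ _)
      intro i hi
      rw [mem_filter] at hi
      obtain ⟨_, h1, r', h2, h3⟩ := hi
      rw [next_rho_old e hj _ hpj] at h1
      rw [mem_union]
      rcases Nat.lt_or_ge j r' with h4 | h4
      · right
        obtain rfl : r' = j + 1 := by omega
        rw [next_rho_new] at h3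
        rw [hZ, mem_filter]
        exact ⟨mem_univ _, h1, h3⟩
      · left
        rw [next_rho_old e hj _ h4] at h3
        rw [mem_filter]
        exact ⟨mem_univ _, h1, r', h4, h3⟩
    have hle' : ((e.next (extd c0 ω) hj).cnt p.1 p.2 y : ℝ) ≤
        (s.cnt p.1 p.2 y : ℝ) + Z.card := by exact_mod_cast hle
    have hZ1 : Δ' - Δ < (Z.card : ℝ) := by linarith
    have hZs : s0 ≤ Z.card := by
      have : (s0 : ℝ) < Z.card + 1 := by linarith
      exact Nat.lt_succ_iff.1 (by exact_mod_cast this)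
    have hZ0 : 0 < Z.card := by
      have : (0 : ℝ) < Z.card := by linarith
      exact_mod_cast this
    refine ⟨y, ?_, hZs.trans ?_⟩
    · obtain ⟨i, hi⟩ := card_pos.1 hZ0
      rw [hZ, mem_filter] at hi
      rw [hRel, mem_image]
      refine ⟨e.y (extd c0 ω) i, ?_, hi.2.2⟩
      rw [mem_biUnion]
      refine ⟨co s (by omega) i, ?_, ?_⟩
      · rw [hU, mem_dep_old hpj]
        exact ⟨i, hi.2.1, rfl⟩
      · rw [mem_filter]
        exact ⟨mem_univ _, e.lab _ _, e.pe _ _⟩
    · refine count_le e (by omega) c0 (fun i d => s.rho p.1 i = p.2 ∧ (S.ce d).1 = y) y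
        (fun i d h => h.2) ω U ?_
      intro i hi
      rw [hU, mem_dep_old hpj]
      exact ⟨i, hi.1, rfl⟩

theorem prob_new {s : St S j I} {R : ℕ} (e : Ext s R) (hj : j + 1 < m) (c0 : Fin R)
    (Δ Δ' : ℝ) (hs : s.Spread Δ) (hΔ0 : 0 ≤ Δ) (hΔ' : 0 ≤ Δ') (p : ℕ × (V × ℕ))
    (hp : p ∈ Idx S j)
    (hpj : p.1 = j + 1) (s1 : ℕ) (hs1 : (s1 : ℝ) ≤ Δ' + 1) (p0 lam : ℝ) (hlam : 0 ≤ lam)
    (hp0 : Real.exp (lam * (K * Δ / R + 1)) ≤ p0 * (1 + lam) ^ s1) :
    (cnt (BadEv e hj c0 Δ' p) : ℝ) ≤ ((j + 1 : ℕ) * (K * K) : ℝ) * p0 *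
      (R : ℝ) ^ Fintype.card (Co S j) := by
  classical
  have hp' := mem_Idx.1 hp
  have hR : 0 < R := Fin.pos c0
  have hR' : (0 : ℝ) < R := by exact_mod_cast hR
  have hrle := par_le S (show j + 1 ≤ m by omega)
  have hp0' : 0 ≤ p0 := by
    by_contra hcon
    push Not at hcon
    have h1 : p0 * (1 + lam) ^ s1 < 0 := mul_neg_of_neg_of_pos hcon (by positivity)
    linarith [Real.exp_pos (lam * (K * Δ / R + 1))]
  obtain ⟨q, v⟩ := p
  simp only at hpj hp'
  subst hpj
  set U := dep s (j + 1) v with hU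
  have hUK : U.card ≤ K := card_dep s hj hp'.1 hp'.2
  set Rel : Finset V := ((range (j + 1)) ×ˢ (U.biUnion (fun t => univ.filter (fun i =>
    s.rho (S.par (j + 1)) i = t.1)))).image (fun q => (s.rho q.1 q.2).1) with hRel
  have hRelc : Rel.card ≤ (j + 1) * (K * K) := by
    refine card_image_le.trans ?_
    rw [card_product, card_range]
    refine Nat.mul_le_mul_left _ (card_biUnion_le.trans ?_)
    refine (sum_le_sum fun t _ => (s.rho_fib _ hrle _ t.2).le).trans ?_
    rw [sum_const, smul_eq_mul]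
    exact Nat.mul_le_mul_right _ hUK
  have main := tail R hR U Rel (fun y t => Bad e (fun i d => S.ce d = v ∧
    ∃ r' ≤ j, (s.rho r' i).1 = y) t)
    s1 (K * Δ / R + 1) lam p0 hlam ?_ hp0 (BadEv e hj c0 Δ' (j + 1, v)) ?_
  · refine main.trans ?_
    have h1 : (Rel.card : ℝ) ≤ (j + 1 : ℕ) * (K * K) := by exact_mod_cast hRelc
    have h2 : (0 : ℝ) ≤ (R : ℝ) ^ Fintype.card (Co S j) := by positivity
    exact mul_le_mul_of_nonneg_right (mul_le_mul_of_nonneg_right h1 hp0') h2
  · intro y _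
    have hone : (U.filter (fun t => t.1.1 = y)).card ≤ 1 := by
      rw [card_le_one]
      intro t ht t' ht'
      rw [mem_filter, hU, mem_dep_new] at ht ht'
      obtain ⟨⟨d, a1, a2, a3⟩, a4⟩ := ht
      obtain ⟨⟨d', b1, b2, b3⟩, b4⟩ := ht'
      have : d = d' := S.simp' d d' (a1.trans b1.symm) (by rw [a2, b2, a4, b4]) (by rw [a3, b3])
      subst this
      exact Subtype.ext (a2.symm.trans b2)
    have hterm : ∀ t ∈ U, ((Bad e (fun i d => S.ce d = v ∧
        ∃ r' ≤ j, (s.rho r' i).1 = y) t).card : ℝ) ≤ Δ + (if t.1.1 = y then (R : ℝ) else 0) := by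
      intro t _
      by_cases hy : t.1.1 = y
      · rw [if_pos hy]
        have : (Bad e (fun i d => S.ce d = v ∧ ∃ r' ≤ j, (s.rho r' i).1 = y) t).card ≤ R := by
          have := card_le_univ (Bad e (fun i d => S.ce d = v ∧
            ∃ r' ≤ j, (s.rho r' i).1 = y) t)
          rwa [Fintype.card_fin] at this
        have h2 : ((Bad e (fun i d => S.ce d = v ∧
          ∃ r' ≤ j, (s.rho r' i).1 = y) t).card : ℝ) ≤ R := by exact_mod_cast this
        linarith
      · rw [if_neg hy, add_zero]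
        have h1 := card_Bad e (fun i d => S.ce d = v ∧ ∃ r' ≤ j, (s.rho r' i).1 = y) v.1
          (fun i d h => by rw [h.1]) t (fun i => ∃ r' ≤ j, (s.rho r' i).1 = y)
          (fun i c h => h.2)
        have h2 := hs _ hrle t.1 y (Ne.symm hy)
        have h3 : ((univ.filter (fun i => s.rho (S.par (j + 1)) i = t.1 ∧
          ∃ r' ≤ j, (s.rho r' i).1 = y)).card : ℝ) ≤ Δ := h2
        refine le_trans ?_ h3
        exact_mod_cast h1
    refine (sum_le_sum hterm).trans ?_
    rw [sum_add_distrib, sum_const, nsmul_eq_mul, ← sum_filter, sum_const, nsmul_eq_mul, add_mul,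
      div_mul_cancel₀ _ hR'.ne', one_mul]
    have h4 : (U.card : ℝ) ≤ K := by exact_mod_cast hUK
    have h5 : ((U.filter (fun t => t.1.1 = y)).card : ℝ) ≤ 1 := by exact_mod_cast hone
    have h6 := mul_le_mul_of_nonneg_right h4 hΔ0
    have h7 := mul_le_mul_of_nonneg_right h5 hR'.le
    rw [one_mul] at h7
    exact add_le_add h6 h7
  · rintro ω ⟨y, hy, h⟩
    simp only at hy h
    set Z := (univ.filter (fun i => S.ce (e.y (extd c0 ω) i) = v ∧
      ∃ r' ≤ j, (s.rho r' i).1 = y)) with hZ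
    have hle : (e.next (extd c0 ω) hj).cnt (j + 1) v y ≤ Z.card := by
      unfold St.cnt
      refine card_le_card ?_
      intro i hi
      rw [mem_filter] at hi
      obtain ⟨_, h1, r', h2, h3⟩ := hi
      rw [next_rho_new] at h1
      rw [hZ, mem_filter]
      rcases Nat.lt_or_ge j r' with h4 | h4
      · obtain rfl : r' = j + 1 := by omega
        rw [next_rho_new, h1] at h3
        exact absurd h3.symm hy
      · rw [next_rho_old e hj _ h4] at h3
        exact ⟨mem_univ _, h1, r', h4, h3⟩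
    have hle' : ((e.next (extd c0 ω) hj).cnt (j + 1) v y : ℝ) ≤ Z.card := by exact_mod_cast hle
    have hZ1 : Δ' < (Z.card : ℝ) := by linarith
    have hZs : s1 ≤ Z.card := by
      have : (s1 : ℝ) < Z.card + 1 := by linarith
      exact Nat.lt_succ_iff.1 (by exact_mod_cast this)
    have hZ0 : 0 < Z.card := by
      have : (0 : ℝ) < Z.card := by linarith
      exact_mod_cast this
    refine ⟨y, ?_, hZs.trans ?_⟩
    · obtain ⟨i, hi⟩ := card_pos.1 hZ0
      rw [hZ, mem_filter] at hi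
      obtain ⟨_, h1, r', h2, h3⟩ := hi
      rw [hRel, mem_image]
      refine ⟨(r', i), ?_, h3⟩
      rw [mem_product, mem_range, mem_biUnion]
      refine ⟨by simp only; omega, co s (by omega) i, ?_, ?_⟩
      · rw [hU, mem_dep_new]
        exact ⟨_, e.lab _ _, e.pe _ _, h1⟩
      · rw [mem_filter]
        exact ⟨mem_univ _, rfl⟩
    · refine count_le e (by omega) c0 (fun i d => S.ce d = v ∧
        ∃ r' ≤ j, (s.rho r' i).1 = y) v.1 (fun i d h => by rw [h.1]) ω U ?_
      intro i hi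
      rw [hU, mem_dep_new]
      exact ⟨_, e.lab _ _, e.pe _ _, hi.1⟩

end Pool.Agent.H9.TD
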