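import Pool.Agent.H9.TD.Rand2

set_option autoImplicit false

/-!
One step of the assembly.
-/

namespace Pool.Agent.H9.TD

open Finset Pool.Agent.Helper635.LLL

variable {V D : Type} [Fintype D] [DecidableEq D] [DecidableEq V]
variable {m K : ℕ} {S : Sys V D m K} {j : ℕ} {I : Type} [Fintype I]

/-- One step of the assembly. -/
theorem exists_next {s : St S j I} {R : ℕ} (e : Ext s R) (hj : j + 1 < m) (hR : 0 < R)
    (hK : 0 < K) (Δ Δ' : ℝ) (hs : s.Spread Δ) (hΔ0 : 0 ≤ Δ) (hΔ : Δ ≤ Δ') (s0 s1 : ℕ)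
    (hs0 : (s0 : ℝ) ≤ Δ' - Δ + 1) (hs1 : (s1 : ℝ) ≤ Δ' + 1) (p0 lam : ℝ) (hlam : 0 ≤ lam)
    (hp0 : Real.exp ((K : ℝ) / R) ≤ p0 * 2 ^ s0)
    (hp1 : Real.exp (lam * (K * Δ / R + 1)) ≤ p0 * (1 + lam) ^ s1)
    (hp2 : 4 * (m * (K * K) * p0) * (K * (m * K)) ≤ 1) :
    ∃ s' : St S (j + 1) I, s'.Spread Δ' := by
  classical
  let c0 : Fin R := ⟨0, hR⟩
  have hp0' : 0 ≤ p0 := by
    by_contra hcon
    push Not at hcon
    have h1 : p0 * 2 ^ s0 < 0 := mul_neg_of_neg_of_pos hcon (by positivity)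
    linarith [Real.exp_pos ((K : ℝ) / R)]
  have hcard : (0 : ℝ) ≤ (R : ℝ) ^ Fintype.card (Co S j) := by positivity
  have hprob : ∀ p ∈ Idx S j, (cnt (BadEv e hj c0 Δ' p) : ℝ) ≤
      (m * (K * K) * p0) * (R : ℝ) ^ Fintype.card (Co S j) := by
    intro p hp
    rcases Nat.lt_or_ge j p.1 with h | h
    · have h1 := prob_new e hj c0 Δ Δ' hs hΔ0 (hΔ0.trans hΔ) p hp
        (by have := (mem_Idx.1 hp).1; omega) s1 hs1 p0 lam hlam hp1
      refine h1.trans (mul_le_mul_of_nonneg_right (mul_le_mul_of_nonneg_right ?_ hp0') hcard)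
      have : ((j + 1 : ℕ) : ℝ) ≤ m := by exact_mod_cast hj.le
      exact mul_le_mul_of_nonneg_right this (by positivity)
    · have h1 := prob_old e hj c0 Δ Δ' hs hΔ p hp h s0 hs0 p0 hp0
      refine h1.trans (mul_le_mul_of_nonneg_right (mul_le_mul_of_nonneg_right ?_ hp0') hcard)
      have h2 : (1 : ℝ) ≤ m := by exact_mod_cast (show 1 ≤ m by omega)
      exact le_mul_of_one_le_left (mul_self_nonneg (K : ℝ)) h2
  have hpos : 1 ≤ K * (m * K) := by
    have h1 : 0 < m * K := Nat.mul_pos (by omega) hK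
    exact Nat.mul_pos hK h1
  have hnn : (0 : ℝ) ≤ m * (K * K) * p0 := by positivity
  have h4 : 4 * ((m : ℝ) * (K * K) * p0) * ((K * (m * K) : ℕ) : ℝ) ≤ 1 := by
    push_cast
    exact hp2
  obtain ⟨ω, hω⟩ := lll' R (Idx S j) (BadEv e hj c0 Δ')
    (fun p => dep s p.1 p.2) (badEv_dep e hj c0 Δ') (m * (K * K) * p0)
    (K * (m * K)) hnn hprob (card_conflicts s hj) h4 hpos hR
  refine ⟨e.next (extd c0 ω) hj, ?_⟩
  intro r hr v y hy
  by_cases hv : v ∈ S.act r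
  · have h1 := hω (r, v) (mem_Idx.2 ⟨hr, hv⟩)
    by_contra hcon
    push Not at hcon
    exact h1 ⟨y, hy, hcon⟩
  · have h0 : (e.next (extd c0 ω) hj).cnt r v y = 0 := by
      unfold St.cnt
      rw [card_eq_zero, filter_eq_empty_iff]
      rintro i _ ⟨h1, _⟩
      apply hv
      rw [← h1]
      exact (e.next (extd c0 ω) hj).rho_act r hr i
    rw [h0]
    push_cast
    exact hΔ0.trans hΔ

end Pool.Agent.H9.TD
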