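import Mathlib

set_option autoImplicit false

/-!
Block systems and partial copies of a tree.
-/

namespace Pool.Agent.H9.TD

open Finset

variable {V D : Type} [Fintype D] [DecidableEq D] [DecidableEq V]

/-- A block system: the tree has the vertices `0, …, m` and the edges `{j, par j}`,
`1 ≤ j ≤ m`; `D` is the set of edges of the graph, `lab d` the edge of the tree that `d`
represents, `pe d` the virtual vertex (vertex and number of the block) at the end of `d` that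
represents the parent, `ce d` the virtual vertex at the end of `d` that represents the child. -/
structure Sys (V D : Type) [Fintype D] [DecidableEq D] [DecidableEq V] (m K : ℕ) where
  par : ℕ → ℕ
  lab : D → ℕ
  pe : D → V × ℕ
  ce : D → V × ℕ
  act : ℕ → Finset (V × ℕ)
  par_lt : ∀ j, 1 ≤ j → j ≤ m → par j < j
  lab_pos : ∀ d, 1 ≤ lab d
  lab_le : ∀ d, lab d ≤ m
  pe_act : ∀ d, pe d ∈ act (par (lab d))
  ce_act : ∀ d, lab d < m → ce d ∈ act (lab d)
  pe_fib : ∀ j, 1 ≤ j → j ≤ m → ∀ x ∈ act (par j),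
    (univ.filter (fun d => lab d = j ∧ pe d = x)).card = K
  ce_fib : ∀ j, 1 ≤ j → j < m → ∀ x ∈ act j,
    (univ.filter (fun d => lab d = j ∧ ce d = x)).card = K
  simp' : ∀ d d', lab d = lab d' → (pe d).1 = (pe d').1 → (ce d).1 = (ce d').1 → d = d'
  loop' : ∀ d, (pe d).1 ≠ (ce d).1

/-- A system of partial copies on the vertices `0, …, j` of the tree. -/
structure St {m K : ℕ} (S : Sys V D m K) (j : ℕ) (I : Type) [Fintype I] where
  rho : ℕ → I → V × ℕ
  x : ℕ → I → D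
  rho_act : ∀ r ≤ j, ∀ i, rho r i ∈ S.act r
  rho_fib : ∀ r ≤ j, ∀ v ∈ S.act r, (univ.filter (fun i => rho r i = v)).card = K
  x_lab : ∀ r, 1 ≤ r → r ≤ j → ∀ i, S.lab (x r i) = r
  x_pe : ∀ r, 1 ≤ r → r ≤ j → ∀ i, S.pe (x r i) = rho (S.par r) i
  x_ce : ∀ r, 1 ≤ r → r ≤ j → ∀ i, S.ce (x r i) = rho r i
  x_inj : ∀ r, 1 ≤ r → r ≤ j → Function.Injective (x r)
  x_surj : ∀ r, 1 ≤ r → r ≤ j → ∀ d, S.lab d = r → ∃ i, x r i = d
  inj : ∀ i, ∀ r ≤ j, ∀ r' ≤ j, (rho r i).1 = (rho r' i).1 → r = r'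

/-- The number of copies at the virtual vertex `v` of role `r` that contain the vertex `y`. -/
def St.cnt {m K : ℕ} {S : Sys V D m K} {j : ℕ} {I : Type} [Fintype I] (s : St S j I)
    (r : ℕ) (v : V × ℕ) (y : V) : ℕ :=
  (univ.filter (fun i => s.rho r i = v ∧ ∃ r' ≤ j, (s.rho r' i).1 = y)).card

/-- The spread of a system of partial copies. -/
def St.Spread {m K : ℕ} {S : Sys V D m K} {j : ℕ} {I : Type} [Fintype I] (s : St S j I)
    (Δ : ℝ) : Prop :=
  ∀ r ≤ j, ∀ v : V × ℕ, ∀ y, y ≠ v.1 → (s.cnt r v y : ℝ) ≤ Δ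

end Pool.Agent.H9.TD
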